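import Pool.Agent.Lib_MP_8178ab_ag.Basic

open CategoryTheory Limits AlgebraicGeometry Polynomial

namespace MP8178

variable {K : Type} [Field K]

/-- `Spec B` is a smooth quasi-projective variety for a smooth `K`-algebra `B`. -/
noncomputable def specVar (K : Type) [Field K] (B : Type) [CommRing B] [Algebra K B]
    [Algebra.Smooth K B] : Var K where
  obj := Over.mk (Spec.map (CommRingCat.ofHom (algebraMap K B)))
  smooth := by
    dsimp
    rw [HasRingHomProperty.Spec_iff (P := @Smooth)]
    rw [CommRingCat.hom_ofHom, RingHom.smooth_algebraMap]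
    infer_instance
  separated := by
    dsimp; infer_instance
  quasiCompact := by
    dsimp; infer_instance
  quasiProj := IsQuasiProj.of_affine K B

/-- the morphism `Spec B' → Spec B` of a homomorphism `B → B'`. -/
noncomputable def specHom {B B' : Type} [CommRing B] [Algebra K B]
    [Algebra.Smooth K B] [CommRing B'] [Algebra K B'] [Algebra.Smooth K B'] (φ : B →ₐ[K] B') :
    (specVar K B').obj ⟶ (specVar K B).obj :=
  Over.homMk (Spec.map (CommRingCat.ofHom (φ : B →+* B'))) (by
    change Spec.map _ ≫ Spec.map _ = Spec.map _
    rw [← Spec.map_comp, ← CommRingCat.ofHom_comp]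
    congr 2
    exact φ.comp_algebraMap)

/-- the `K`-point of `Spec B` of a homomorphism `B → K`. -/
noncomputable def specPt {B : Type} [CommRing B] [Algebra K B]
    [Algebra.Smooth K B] (φ : B →ₐ[K] K) : Pt (specVar K B) :=
  Over.homMk (Spec.map (CommRingCat.ofHom (φ : B →+* K))) (by
    change Spec.map _ ≫ Spec.map _ = 𝟙 _
    rw [← Spec.map_comp, ← CommRingCat.ofHom_comp, ← Spec.map_id]
    congr 1
    ext a
    exact φ.commutes a)

instance smooth_localization_away (K : Type) [Field K] (h : K[X]) :
    Algebra.Smooth K (Localization.Away h) :=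
  have : Algebra.Smooth K K[X] := ⟨inferInstance, inferInstance⟩
  have : Algebra.Smooth K[X] (Localization.Away h) := Algebra.Smooth.of_isLocalization_Away h
  Algebra.Smooth.comp K K[X] (Localization.Away h)

/-- The open subvariety `h ≠ 0` of the affine line. -/
noncomputable def uVar (K : Type) [Field K] (h : K[X]) : Var K :=
  specVar K (Localization.Away h)

/-- The affine line without `0`, `1` and `l`. -/
noncomputable def tVar (K : Type) [Field K] (l : K) : Var K :=
  uVar K (X * (X - 1) * (X - C l))

end MP8178
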