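import Pool.Agent.Lib_MP_8178ab_ag.SpecVar

open CategoryTheory Limits AlgebraicGeometry

namespace MP8178

variable {k : Type} [Field k]

theorem subsingleton_Spec_field (U : (Spec (CommRingCat.of k)).Opens)
    (h : (U : Set (Spec (CommRingCat.of k))).Nonempty) : U = ⊤ := by
  obtain ⟨x, hx⟩ := h
  have hs : Subsingleton (Spec (CommRingCat.of k)) := by
    change Subsingleton (PrimeSpectrum k)
    infer_instance
  ext y
  simp only [TopologicalSpace.Opens.coe_top, Set.mem_univ, iff_true]
  rwa [hs.elim y x]

/-- étale coordinates: every point of a variety over `k` has an affine open neighbourhood which is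
étale over an affine space. -/
theorem exists_etale_coordinates (V : Var k) (v : V.obj.left) :
    ∃ (n : ℕ) (A : Type) (_ : CommRing A) (_ : Algebra (MvPolynomial (Fin n) k) A)
      (_ : Algebra.Etale (MvPolynomial (Fin n) k) A) (_ : Algebra k A)
      (_ : IsScalarTower k (MvPolynomial (Fin n) k) A) (_ : Algebra.Smooth k A)
      (j : (specVar k A).obj ⟶ V.obj), IsOpenImmersion j.left ∧ v ∈ Set.range j.left := by
  have hsm := V.smooth
  obtain ⟨U, hU, W, hW, hv, e, hf⟩ := Smooth.exists_isStandardSmooth V.obj.hom v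
  have hUt : U = ⊤ := subsingleton_Spec_field U ⟨V.obj.hom v, e hv⟩
  subst hUt
  let a : CommRingCat.of k ⟶ Γ(V.obj.left, W) :=
    (Scheme.ΓSpecIso (CommRingCat.of k)).inv ≫ V.obj.hom.appLE ⊤ W e
  have ha : a.hom.IsStandardSmooth :=
    (RingHom.isStandardSmooth_respectsIso.2 (V.obj.hom.appLE ⊤ W e).hom
      (Scheme.ΓSpecIso (CommRingCat.of k)).symm.commRingCatIsoToRingEquiv hf)
  obtain ⟨n, g, hg, hge⟩ := ha.exists_etale_mvPolynomial
  let A : Type := Γ(V.obj.left, W)
  let _ : Algebra (MvPolynomial (Fin n) k) A := g.toAlgebra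
  let _ : Algebra k A := a.hom.toAlgebra
  have hst : IsScalarTower k (MvPolynomial (Fin n) k) A := by
    refine IsScalarTower.of_algebraMap_eq' ?_
    exact hg.symm
  have het : Algebra.Etale (MvPolynomial (Fin n) k) A := hge
  have hAs : Algebra.Smooth k A := by
    have : Algebra.Smooth k (MvPolynomial (Fin n) k) := ⟨inferInstance, inferInstance⟩
    have : Algebra.Smooth (MvPolynomial (Fin n) k) A := inferInstance
    exact Algebra.Smooth.comp k (MvPolynomial (Fin n) k) A
  refine ⟨n, A, inferInstance, inferInstance, het, inferInstance, hst, hAs,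
    Over.homMk hW.fromSpec ?_, ?_, ?_⟩
  · change hW.fromSpec ≫ V.obj.hom = Spec.map a
    rw [← IsAffineOpen.SpecMap_appLE_fromSpec V.obj.hom (isAffineOpen_top _) hW e,
      IsAffineOpen.fromSpec_top, Scheme.isoSpec_Spec_inv, ← Spec.map_comp]
  · change IsOpenImmersion hW.fromSpec
    infer_instance
  · change v ∈ Set.range hW.fromSpec
    rw [IsAffineOpen.range_fromSpec]
    exact hv

end MP8178
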