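import Mathlib

open TensorProduct

namespace MP8178

/-- Idempotents of a ring with connected spectrum are trivial. -/
theorem idempotent_of_connected {A : Type} [CommRing A] (h : ConnectedSpace (PrimeSpectrum A))
    (a : A) (ha : IsIdempotentElem a) : a = 0 ∨ a = 1 := by
  have h1 : IsClopen (PrimeSpectrum.basicOpen a : Set (PrimeSpectrum A)) :=
    PrimeSpectrum.isClopen_iff.2 ⟨a, ha, rfl⟩
  rcases isClopen_iff.1 h1 with h2 | h2
  · left
    have h3 : PrimeSpectrum.basicOpen a = ⊥ := by
      ext x
      rw [h2]
      simp
    rw [PrimeSpectrum.basicOpen_eq_bot_iff] at h3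
    obtain ⟨m, hm⟩ := h3
    have h4 := ha.pow_succ_eq m
    rw [← h4, pow_succ, hm, zero_mul]
  · right
    have h3 : IsUnit a := by
      by_contra hu
      obtain ⟨m, hm, ham⟩ := exists_max_ideal_of_mem_nonunits hu
      have h4 : (⟨m, hm.isPrime⟩ : PrimeSpectrum A) ∈
          (PrimeSpectrum.basicOpen a : Set (PrimeSpectrum A)) := by
        rw [h2]
        trivial
      exact h4 ham
    have h4 : a * a = a * 1 := by rw [mul_one]; exact ha
    exact h3.mul_left_cancel h4

/-- A connected étale algebra over a polynomial ring over a field is a domain. -/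
theorem isDomain_of_etale {k : Type} [Field k] (n : ℕ) (A : Type) [CommRing A]
    [Algebra (MvPolynomial (Fin n) k) A] [Algebra.Etale (MvPolynomial (Fin n) k) A]
    (h : ConnectedSpace (PrimeSpectrum A)) : IsDomain A := by
  classical
  let R := MvPolynomial (Fin n) k
  let F := FractionRing R
  have hflat : Module.Flat R A := inferInstanceAs (Module.Flat (MvPolynomial (Fin n) k) A)
  have hinjF : Function.Injective (algebraMap R F) := IsFractionRing.injective R F
  have hinj : Function.Injective (Algebra.TensorProduct.includeLeft : A →ₐ[R] A ⊗[R] F) :=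
    Algebra.TensorProduct.includeLeft_injective hinjF
  have het : Algebra.Etale F (F ⊗[R] A) := 
    have : Algebra.Etale R A := inferInstanceAs (Algebra.Etale (MvPolynomial (Fin n) k) A)
    inferInstance
  obtain ⟨I, _, Ai, _, _, e, _⟩ := (Algebra.Etale.iff_exists_algEquiv_prod F (F ⊗[R] A)).1 het
  let e' : A ⊗[R] F ≃+* (Π i, Ai i) :=
    (Algebra.TensorProduct.comm R A F).toRingEquiv.trans e.toRingEquiv
  have hmem : ∀ x : A ⊗[R] F, IsIdempotentElem x → x = 0 ∨ x = 1 := by
    intro x hx
    have hint : IsIntegral A x := by
      refine ⟨Polynomial.X ^ 2 - Polynomial.X, ?_, ?_⟩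
      · refine Polynomial.monic_X_pow_sub ?_
        exact lt_of_le_of_lt Polynomial.degree_X_le (by norm_num)
      · simp only [Polynomial.eval₂_sub, Polynomial.eval₂_pow, Polynomial.eval₂_X]
        rw [pow_two, hx.eq, sub_self]
    have : Algebra.Smooth R A := 
      have : Algebra.Etale R A := inferInstanceAs (Algebra.Etale (MvPolynomial (Fin n) k) A)
      inferInstance
    obtain ⟨z, hz⟩ := (TensorProduct.toIntegralClosure_bijective_of_smooth (R := R) (S := A)
      (B := F)).2 ⟨x, hint⟩
    have hz' : ∀ z : A ⊗[R] integralClosure R F, ∃ a : A,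
        (TensorProduct.toIntegralClosure R A F z : A ⊗[R] F) = a ⊗ₜ[R] 1 := by
      intro z
      induction z using TensorProduct.induction_on with
      | zero => exact ⟨0, by simp⟩
      | tmul a y =>
        obtain ⟨r, hr⟩ := IsIntegrallyClosed.algebraMap_eq_of_integral (R := R) y.2
        refine ⟨r • a, ?_⟩
        have : (TensorProduct.toIntegralClosure R A F (a ⊗ₜ[R] y) : A ⊗[R] F) =
          a ⊗ₜ[R] (y : F) := rfl
        rw [this, ← hr, Algebra.algebraMap_eq_smul_one, tmul_smul, smul_tmul']
      | add u v hu hv =>
        obtain ⟨a, ha⟩ := hu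
        obtain ⟨b, hb⟩ := hv
        exact ⟨a + b, by rw [map_add, Subalgebra.coe_add, ha, hb, add_tmul]⟩
    obtain ⟨a, ha⟩ := hz' z
    rw [hz] at ha
    have ha' : x = a ⊗ₜ[R] (1 : F) := ha
    have haid : IsIdempotentElem a := by
      apply hinj
      rw [map_mul]
      have := hx.eq
      rw [ha'] at this
      exact this
    rcases idempotent_of_connected h a haid with h0 | h1
    · left
      rw [ha', h0, zero_tmul]
    · right
      rw [ha', h1]
      rfl
  have hnt : Nontrivial A := PrimeSpectrum.nonempty_iff_nontrivial.1 h.toNonempty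
  have hsub : Subsingleton I := by
    refine ⟨fun i j => ?_⟩
    by_contra hij
    have hid : IsIdempotentElem (e'.symm (Pi.single i 1)) := by
      rw [IsIdempotentElem, ← map_mul, ← Pi.single_mul, mul_one]
    rcases hmem _ hid with h0 | h0
    · rw [map_eq_zero_iff _ e'.symm.injective] at h0
      have := congrFun h0 i
      simp at this
    · rw [map_eq_one_iff _ e'.symm.injective] at h0
      have := congrFun h0 j
      simp [Ne.symm hij] at this
  let f : A →+* (Π i, Ai i) := e'.toRingHom.comp
    (Algebra.TensorProduct.includeLeft : A →ₐ[R] A ⊗[R] F).toRingHom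
  have hf : Function.Injective f := e'.injective.comp hinj
  have hne : Nonempty I := by
    by_contra hI
    rw [not_nonempty_iff] at hI
    apply (zero_ne_one : (0 : A) ≠ 1)
    apply hf
    ext i
    exact hI.elim i
  obtain ⟨i⟩ := hne
  let g : A →+* Ai i := (Pi.evalRingHom Ai i).comp f
  have hg : Function.Injective g := by
    intro x y hxy
    apply hf
    ext j
    obtain rfl := Subsingleton.elim i j
    exact hxy
  exact hg.isDomain g

end MP8178
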