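import Pool.Agent.Lib_MP_8178ab_ag.Basic

open CategoryTheory Limits AlgebraicGeometry TopologicalSpace

namespace MP8178

/-- connected components of a Noetherian space are open -/
theorem isOpen_connectedComponent_of_noetherian {α : Type*} [TopologicalSpace α]
    [NoetherianSpace α] (x : α) : IsOpen (connectedComponent x) := by
  have hfin : (irreducibleComponents α).Finite := NoetherianSpace.finite_irreducibleComponents
  have hcl : IsClosed (⋃ Z ∈ {Z ∈ irreducibleComponents α | ¬ Z ⊆ connectedComponent x}, Z) := by
    refine Set.Finite.isClosed_biUnion (hfin.subset (Set.sep_subset _ _)) fun Z hZ => ?_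
    exact isClosed_of_mem_irreducibleComponents Z hZ.1
  rw [← isClosed_compl_iff]
  convert hcl
  ext y
  simp only [Set.mem_compl_iff, Set.mem_iUnion, Set.mem_ofPred_eq, exists_prop]
  constructor
  · intro hy
    refine ⟨irreducibleComponent y, ⟨irreducibleComponent_mem_irreducibleComponents y, ?_⟩,
      mem_irreducibleComponent⟩
    intro h
    exact hy (h mem_irreducibleComponent)
  · rintro ⟨Z, ⟨hZ, hZx⟩, hyZ⟩ hy
    apply hZx
    have hconn : IsPreconnected Z := by
      exact hZ.prop.isPreirreducible.isPreconnected
    have := hconn.subset_connectedComponent hyZ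
    rwa [connectedComponent_eq hy]

variable {K : Type} [Field K]

theorem isNoetherian (X : Var K) : IsNoetherian X.obj.left := by
  have h1 := X.smooth
  have h2 := X.quasiCompact
  have h3 : IsLocallyNoetherian X.obj.left := LocallyOfFiniteType.isLocallyNoetherian X.obj.hom
  have h4 : CompactSpace X.obj.left := (quasiCompact_iff_compactSpace X.obj.hom).mp h2
  exact { }

/-- open subschemes are varieties -/
theorem exists_open (X : Var K) (U : X.obj.left.Opens) :
    ∃ (X₀ : Var K) (j : X₀.obj ⟶ X.obj), IsOpenImmersion j.left ∧
      Set.range j.left = (U : Set X.obj.left) := by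
  have hX := isNoetherian X
  have h1 := X.smooth
  have h2 := X.separated
  have h3 := X.quasiCompact
  have h4 : CompactSpace U := by
    exact isCompact_iff_compactSpace.mp (NoetherianSpace.isCompact _)
  let X₀ : Var K :=
    { obj := Over.mk (U.ι ≫ X.obj.hom)
      smooth := MorphismProperty.comp_mem @Smooth _ _ inferInstance h1
      separated := by dsimp; infer_instance
      quasiCompact := by
        dsimp
        rw [quasiCompact_iff_compactSpace]
        exact h4
      quasiProj := X.quasiProj.comp_immersion U.ι }
  refine ⟨X₀, Over.homMk U.ι rfl, ?_, ?_⟩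
  · change IsOpenImmersion U.ι
    infer_instance
  · change Set.range U.ι = _
    exact Scheme.Opens.range_ι U

/-- The connected component of a point is an open and closed subvariety. -/
theorem exists_component (X : Var K) (x : X.obj.left) :
    ∃ (X₀ : Var K) (j : X₀.obj ⟶ X.obj), IsOpenImmersion j.left ∧ IsFinite j.left ∧
      Etale j.left ∧ ConnectedSpace X₀.obj.left ∧ x ∈ Set.range j.left := by
  have hX := isNoetherian X
  let U : X.obj.left.Opens := ⟨connectedComponent x, isOpen_connectedComponent_of_noetherian x⟩
  obtain ⟨X₀, j, hj, hr⟩ := exists_open X U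
  have hrc : IsClosed (Set.range j.left) := by rw [hr]; exact isClosed_connectedComponent
  refine ⟨X₀, j, hj, ?_, inferInstance, ?_, ?_⟩
  · have : IsClosedImmersion j.left :=
      { isClosedEmbedding := ⟨j.left.isOpenEmbedding.isEmbedding, hrc⟩ }
    infer_instance
  · have h1 : ConnectedSpace (Set.range j.left) := by
      rw [hr]
      exact isConnected_iff_connectedSpace.mp isConnected_connectedComponent
    let e := j.left.isOpenEmbedding.isEmbedding.toHomeomorph
    exact e.symm.surjective.connectedSpace e.symm.continuous
  · rw [hr]; exact mem_connectedComponent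

/-- A `K`-point in the image of an open immersion lifts. -/
theorem pt_lift_of_isOpenImmersion {X₀ X : Var K} (j : X₀.obj ⟶ X.obj)
    (hj : IsOpenImmersion j.left) (x : Pt X)
    (hx : x.left (IsLocalRing.closedPoint K) ∈ Set.range j.left) : ∃ x₀ : Pt X₀, x₀ ≫ j = x := by
  have hr : Set.range x.left ⊆ Set.range j.left := by
    rintro _ ⟨y, rfl⟩
    have : y = IsLocalRing.closedPoint K :=
      Subsingleton.elim (α := PrimeSpectrum K) _ _
    rwa [this]
  refine ⟨Over.homMk (IsOpenImmersion.lift j.left x.left hr) ?_, ?_⟩
  · rw [← Over.w j, ← Category.assoc, IsOpenImmersion.lift_fac]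
    exact Over.w x
  · apply Over.OverMorphism.ext
    exact IsOpenImmersion.lift_fac _ _ _

end MP8178
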