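import Pool.Agent.Lib_MP_8178ab_ag.Basic

open CategoryTheory Limits AlgebraicGeometry

namespace MP8178

variable {K : Type} [Field K] [IsAlgClosed K]

/-- Finite morphisms have finite fibres on `K`-points. -/
theorem finite_fiber {F X : Var K} (f : F.obj ⟶ X.obj) (hf : IsFinite f.left) (x : Pt X) :
    Finite {y : Pt F // y ≫ f = x} := by
  have hsm := F.smooth
  have h1 : (f.left ⁻¹' {x.left (IsLocalRing.closedPoint K)}).Finite := by
    have := f.left.finite_preimage_singleton (x.left (IsLocalRing.closedPoint K))
    exact this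
  have : Finite (f.left ⁻¹' {x.left (IsLocalRing.closedPoint K)}) := h1
  refine Finite.of_injective (β := (f.left ⁻¹' {x.left (IsLocalRing.closedPoint K)}))
    (fun y => ⟨y.1.left (IsLocalRing.closedPoint K), ?_⟩) ?_
  · rw [Set.mem_preimage, Set.mem_singleton_iff]
    exact congrArg (fun z : Pt X => z.left (IsLocalRing.closedPoint K)) y.2
  · intro y z hyz
    simp only [Subtype.mk.injEq] at hyz
    apply Subtype.ext
    apply Over.OverMorphism.ext
    exact ext_of_apply_closedPoint_eq F.obj.hom (Over.w y.1) (Over.w z.1) hyz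

/-- A nonempty variety has a `K`-point in every nonempty open subset. -/
theorem exists_pt (X : Var K) (U : X.obj.left.Opens) (hU : (U : Set X.obj.left).Nonempty) :
    ∃ x : Pt X, x.left (IsLocalRing.closedPoint K) ∈ U := by
  have hsm := X.smooth
  have : JacobsonSpace ↥X.obj.left := LocallyOfFiniteType.jacobsonSpace X.obj.hom
  obtain ⟨y, hy, hy'⟩ : ((U : Set X.obj.left) ∩ closedPoints X.obj.left).Nonempty := by
    rw [Set.nonempty_iff_ne_empty]
    intro h0
    have := JacobsonSpace.closure_inter_closedPoints_eq_closure (S := (U : Set X.obj.left)) U.2.isLocallyClosed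
    rw [h0, closure_empty] at this
    obtain ⟨z, hz⟩ := hU
    have := this ▸ subset_closure hz
    exact this
  refine ⟨Over.homMk (pointOfClosedPoint X.obj.hom y hy') (by exact pointOfClosedPoint_comp _ _ _), ?_⟩
  change pointOfClosedPoint X.obj.hom y hy' (IsLocalRing.closedPoint K) ∈ U
  rw [pointOfClosedPoint_apply]
  exact hy

end MP8178
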