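import Pool.Agent.Lib_MP_8178ab_ag.Basic

open CategoryTheory Limits AlgebraicGeometry

namespace MP8178

variable {K : Type} [Field K]

/-- Fibre products with finite étale morphisms exist in `Var K`. -/
theorem exists_pullback {V X' X : Var K} (f : V.obj ⟶ X.obj) (g : X'.obj ⟶ X.obj)
    (hg : IsFinite g.left) (hg' : Etale g.left) :
    ∃ (F : Var K) (p : F.obj ⟶ V.obj) (q : F.obj ⟶ X'.obj), IsPullback p q f g ∧
      IsFinite p.left ∧ Etale p.left := by
  have hV := V.smooth
  have hV' := V.separated
  have hV'' := V.quasiCompact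
  have hX := X.separated
  have hX' := X'.separated
  let P := pullback f.left g.left
  let p₀ : P ⟶ V.obj.left := pullback.fst _ _
  let q₀ : P ⟶ X'.obj.left := pullback.snd _ _
  have hpq : p₀ ≫ f.left = q₀ ≫ g.left := pullback.condition
  have hpf : IsFinite p₀ := inferInstanceAs (IsFinite (pullback.fst f.left g.left))
  have hpe : Etale p₀ := inferInstanceAs (Etale (pullback.fst f.left g.left))
  have hw : q₀ ≫ X'.obj.hom = p₀ ≫ V.obj.hom := by
    rw [← Over.w g, ← Over.w f, ← Category.assoc, ← hpq, Category.assoc]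
  -- the immersion into the product
  let i : P ⟶ pullback V.obj.hom X'.obj.hom :=
    pullback.mapDesc f.left g.left X.obj.hom ≫ (pullback.congrHom (Over.w f) (Over.w g)).hom
  have hi : IsImmersion i := inferInstance
  have hqp : IsQuasiProj (p₀ ≫ V.obj.hom) := by
    have h1 := (V.quasiProj.pullback X'.quasiProj).comp_immersion i
    have h2 : i ≫ pullback.fst V.obj.hom X'.obj.hom ≫ V.obj.hom = p₀ ≫ V.obj.hom := by
      have h3 : i ≫ pullback.fst V.obj.hom X'.obj.hom = p₀ := by
        have e1 : (pullback.congrHom (Over.w f) (Over.w g)).hom ≫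
            pullback.fst V.obj.hom X'.obj.hom = pullback.fst _ _ := by
          rw [pullback.congrHom_hom]
          exact (pullback.lift_fst _ _ _).trans (Category.comp_id _)
        have e2 : pullback.mapDesc f.left g.left X.obj.hom ≫ pullback.fst _ _ =
            pullback.fst _ _ :=
          (pullback.lift_fst _ _ _).trans (Category.comp_id _)
        change (pullback.mapDesc f.left g.left X.obj.hom ≫
          (pullback.congrHom (Over.w f) (Over.w g)).hom) ≫ _ = _
        rw [Category.assoc, e1, e2]
      rw [← Category.assoc, h3]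
    rwa [h2] at h1
  let F : Var K :=
    { obj := Over.mk (p₀ ≫ V.obj.hom)
      smooth := MorphismProperty.comp_mem @Smooth _ _ (inferInstanceAs (Smooth p₀)) hV
      separated := by dsimp; infer_instance
      quasiCompact := by dsimp; infer_instance
      quasiProj := hqp }
  let p : F.obj ⟶ V.obj := Over.homMk p₀ rfl
  let q : F.obj ⟶ X'.obj := Over.homMk q₀ hw
  refine ⟨F, p, q, ?_, hpf, hpe⟩
  refine ⟨⟨?_⟩, ⟨PullbackCone.IsLimit.mk _ (fun s => Over.homMk
    (pullback.lift s.fst.left s.snd.left ?_) ?_) ?_ ?_ ?_⟩⟩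
  · exact Over.OverMorphism.ext hpq
  · have := congrArg Over.Hom.left s.condition
    rwa [Over.comp_left, Over.comp_left] at this
  · change pullback.lift s.fst.left s.snd.left _ ≫ pullback.fst _ _ ≫ V.obj.hom = _
    rw [← Category.assoc, pullback.lift_fst]
    exact Over.w s.fst
  · intro s
    apply Over.OverMorphism.ext
    exact pullback.lift_fst _ _ _
  · intro s
    apply Over.OverMorphism.ext
    exact pullback.lift_snd _ _ _
  · intro s m h1 h2
    apply Over.OverMorphism.ext
    apply pullback.hom_ext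
    · have := congrArg Over.Hom.left h1
      rw [Over.comp_left] at this
      exact this.trans (pullback.lift_fst _ _ _).symm
    · have := congrArg Over.Hom.left h2
      rw [Over.comp_left] at this
      exact this.trans (pullback.lift_snd _ _ _).symm

/-- Points of a fibre product. -/
theorem pt_lift_of_isPullback {V X' X F : Var K} {f : V.obj ⟶ X.obj} {g : X'.obj ⟶ X.obj}
    {p : F.obj ⟶ V.obj} {q : F.obj ⟶ X'.obj} (h : IsPullback p q f g) (v : Pt V) (x : Pt X')
    (hvx : v ≫ f = x ≫ g) : ∃ w : Pt F, w ≫ p = v ∧ w ≫ q = x :=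
  ⟨h.lift v x hvx, h.lift_fst _ _ _, h.lift_snd _ _ _⟩

theorem pt_ext_of_isPullback {V X' X F : Var K} {f : V.obj ⟶ X.obj} {g : X'.obj ⟶ X.obj}
    {p : F.obj ⟶ V.obj} {q : F.obj ⟶ X'.obj} (h : IsPullback p q f g) (w w' : Pt F)
    (h1 : w ≫ p = w' ≫ p) (h2 : w ≫ q = w' ≫ q) : w = w' := h.hom_ext h1 h2

end MP8178
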