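import Pool.Agent.Lib_MP_8178ab_ag.ConstAff
import Pool.Agent.Lib_MP_8178ab_ag.Coord
import Pool.Agent.Lib_MP_8178ab_ag.GPull
import Pool.Agent.Lib_MP_8178ab_ag.GComp

open CategoryTheory Limits AlgebraicGeometry Polynomial

namespace MP8178

variable {K : Type} [Field K] [IsAlgClosed K] {k : Type} [Field k] [IsAlgClosed k]

omit [IsAlgClosed K] in
theorem comp_constHom' {X Y Z : Var K} (h : X.obj ⟶ Y.obj) (t : Pt Z) :
    h ≫ constHom Y t = constHom X t := by
  rw [constHom, constHom, ← Category.assoc]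
  congr 1
  apply Over.OverMorphism.ext
  exact Over.w h

omit [IsAlgClosed K] in
theorem constHom_apply {X Y : Var K} (t : Pt Y) (x : X.obj.left) :
    (constHom X t).left x = t.left (IsLocalRing.closedPoint K) := by
  change t.left (X.obj.hom x) = _
  have hs : Subsingleton (Spec (CommRingCat.of K)) := by
    change Subsingleton (PrimeSpectrum K)
    infer_instance
  rw [hs.elim (X.obj.hom x) (IsLocalRing.closedPoint K)]

/-- The local statement: near every point of `W` the morphism `f` is constant. -/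
theorem const_local {P : GrpdFunctor K} (hP : IsPiOneLike P) (φ : k →+* K) (l : K)
    (hl : l ∉ Set.range φ) (V : Var k) (W : Var K)
    (ρ : W.obj ⟶ (bcVar φ V).obj) (hρ : IsFinite ρ.left) (hρ' : Etale ρ.left)
    (f : W.obj ⟶ (tVar K l).obj) (w : W.obj.left) :
    ∃ (F : Var K) (i : F.obj ⟶ W.obj) (t : Pt (tVar K l)), IsOpenImmersion i.left ∧
      w ∈ Set.range i.left ∧ i ≫ f = constHom F t := by
  obtain ⟨n, A, _, _, _, _, _, _, j, hj, hv⟩ :=
    exists_etale_coordinates V (bcProj φ V (ρ.left w))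
  have hj' := bcMap_isOpenImmersion φ j hj
  have hr := range_bcMap φ j hj
  have hw : ρ.left w ∈ Set.range (bcMap φ j).left := by
    rw [hr]; exact hv
  obtain ⟨F, p, q, hpb, hpf, hpe⟩ := exists_pullback (bcMap φ j) ρ hρ hρ'
  have hpb' : IsPullback p.left q.left (bcMap φ j).left ρ.left :=
    hpb.map (Over.forget _)
  have hq : IsOpenImmersion q.left :=
    MorphismProperty.of_isPullback (P := @IsOpenImmersion) hpb' hj'
  have hwq : w ∈ Set.range q.left := by
    have h1 : w ∈ Set.range (pullback.snd (bcMap φ j).left ρ.left) := by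
      rw [Scheme.Pullback.range_snd]; exact hw
    obtain ⟨z, hz⟩ := h1
    refine ⟨hpb'.isoPullback.inv z, ?_⟩
    rw [← Scheme.Hom.comp_apply, hpb'.isoPullback_inv_snd]
    exact hz
  obtain ⟨y, hy⟩ := hwq
  obtain ⟨F₁, j₁, h1, h2, h3, h4, h5⟩ := exists_component F y
  obtain ⟨t, ht⟩ := const_affine hP φ l hl n A F₁ h4 (j₁ ≫ p)
    (by rw [Over.comp_left]; infer_instance) (by rw [Over.comp_left]; infer_instance)
    ((j₁ ≫ q) ≫ f)
  refine ⟨F₁, j₁ ≫ q, t, ?_, ?_, ht⟩
  · rw [Over.comp_left]; infer_instance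
  · obtain ⟨z, hz⟩ := h5
    refine ⟨z, ?_⟩
    rw [← hy, ← hz]
    rfl

/-- Connected finite étale covers of `V_K`, `V` a variety over `k`, have only constant morphisms
to the affine line without `0`, `1` and `l`, `l ∉ k`. -/
theorem const_general {P : GrpdFunctor K} (hP : IsPiOneLike P) (φ : k →+* K) (l : K)
    (hl : l ∉ Set.range φ) (V : Var k) (W : Var K) (hW : ConnectedSpace W.obj.left)
    (ρ : W.obj ⟶ (bcVar φ V).obj) (hρ : IsFinite ρ.left) (hρ' : Etale ρ.left)
    (f : W.obj ⟶ (tVar K l).obj) : ∃ t : Pt (tVar K l), f = constHom W t := by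
  choose F i t hi hw ht using const_local hP φ l hl V W ρ hρ hρ' f
  have hval : ∀ w x, x ∈ Set.range (i w).left →
      f.left x = (t w).left (IsLocalRing.closedPoint K) := by
    rintro w x ⟨z, rfl⟩
    have := congrArg (fun h => h.left z) (ht w)
    rw [constHom_apply] at this
    exact this
  have hloc : IsLocallyConstant (f.left : W.obj.left → (tVar K l).obj.left) := by
    rw [IsLocallyConstant.iff_exists_open]
    intro x
    refine ⟨Set.range (i x).left, (i x).left.isOpenEmbedding.isOpen_range, hw x, ?_⟩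
    intro y hy
    rw [hval x y hy, hval x x (hw x)]
  obtain ⟨w₀⟩ := hW.toNonempty
  have hsm := (tVar K l).smooth
  have htt : ∀ w, t w = t w₀ := by
    intro w
    apply Over.OverMorphism.ext
    refine ext_of_apply_closedPoint_eq (tVar K l).obj.hom (Over.w (t w)) (Over.w (t w₀)) ?_
    rw [← hval w w (hw w), ← hval w₀ w₀ (hw w₀)]
    exact hloc.apply_eq_of_preconnectedSpace _ _
  refine ⟨t w₀, ?_⟩
  apply Over.OverMorphism.ext
  let 𝒰 : W.obj.left.OpenCover := Scheme.Cover.mkOfCovers W.obj.left (fun w => (F w).obj.left) (fun w => (i w).left)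
    (fun x => ⟨x, (hw x)⟩) (fun w => hi w)
  refine 𝒰.hom_ext _ _ (fun w => ?_)
  change (i w).left ≫ f.left = (i w).left ≫ _
  rw [← Over.comp_left, ht w, htt w, ← Over.comp_left, comp_constHom']

end MP8178
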