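import Mathlib

/-!
# Functions on a group that are homomorphisms on a subgroup of finite index
-/

namespace MP8178

variable {G G' : Type} [Group G] [Group G'] (V : Type) [AddCommGroup V] [Module ℚ V]

/-- `HC V G`: the `ℚ`-vector space of functions `ψ : G → V` with `ψ (g ^ n) = n • ψ g` which are
homomorphisms on some subgroup of finite index. -/
def HC (G : Type) [Group G] : Submodule ℚ (G → V) where
  carrier := {ψ | (∀ (g : G) (n : ℕ), ψ (g ^ n) = (n : ℚ) • ψ g) ∧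
    ∃ H : Subgroup G, H.FiniteIndex ∧ ∀ a ∈ H, ∀ b ∈ H, ψ (a * b) = ψ a + ψ b}
  add_mem' := by
    rintro ψ ψ' ⟨h1, H, hH, h2⟩ ⟨h1', H', hH', h2'⟩
    refine ⟨fun g n => by simp [h1, h1'], H ⊓ H', inferInstance, fun a ha b hb => ?_⟩
    simp only [Pi.add_apply]
    rw [h2 a ha.1 b hb.1, h2' a ha.2 b hb.2]
    abel
  zero_mem' := ⟨by simp, ⊤, inferInstance, by simp⟩
  smul_mem' := by
    rintro c ψ ⟨h1, H, hH, h2⟩
    refine ⟨fun g n => ?_, H, hH, fun a ha b hb => ?_⟩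
    · rw [Pi.smul_apply, Pi.smul_apply, h1, smul_comm]
    simp only [Pi.smul_apply]
    rw [h2 a ha b hb, smul_add]

variable {V}

theorem HC.map_pow {ψ : G → V} (h : ψ ∈ HC V G) (g : G) (n : ℕ) :
    ψ (g ^ n) = (n : ℚ) • ψ g := h.1 g n

theorem HC.map_one {ψ : G → V} (h : ψ ∈ HC V G) : ψ 1 = 0 := by
  have := h.1 1 0
  simpa using this

theorem HC.comp {ψ : G → V} (h : ψ ∈ HC V G) (f : G' →* G) : ψ ∘ f ∈ HC V G' := by
  obtain ⟨h1, H, hH, h2⟩ := h
  have := hH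
  refine ⟨fun g n => ?_, H.comap f, ?_, fun a ha b hb => ?_⟩
  · simp only [Function.comp_apply, _root_.map_pow]
    exact h1 _ _
  · constructor
    rw [Subgroup.index_comap]
    have h3 : (H.subgroupOf f.range).FiniteIndex := inferInstance
    exact h3.index_ne_zero
  · simp only [Function.comp_apply, map_mul]
    exact h2 _ ha _ hb

theorem HC.eq_zero_of_pow {ψ : G → V} (h : ψ ∈ HC V G) (g : G) (n : ℕ) (hn : 0 < n)
    (h0 : ψ (g ^ n) = 0) : ψ g = 0 := by
  rw [h.1 g n] at h0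
  have hn' : (n : ℚ) ≠ 0 := by exact_mod_cast hn.ne'
  exact (smul_eq_zero.mp h0).resolve_left hn'

theorem HC.eq_of_pow {ψ ψ' : G → V} (h : ψ ∈ HC V G) (h' : ψ' ∈ HC V G) (g : G) (n : ℕ)
    (hn : 0 < n) (h0 : ψ (g ^ n) = ψ' (g ^ n)) : ψ g = ψ' g := by
  have h1 := HC.eq_zero_of_pow (Submodule.sub_mem _ h h') g n hn (by
    rw [Pi.sub_apply, h0, sub_self])
  rwa [Pi.sub_apply, sub_eq_zero] at h1

/-- a power of every element lies in a subgroup of finite index. -/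
theorem exists_pow_mem (H : Subgroup G) (hH : H.FiniteIndex) (g : G) :
    ∃ n : ℕ, 0 < n ∧ g ^ n ∈ H := by
  obtain ⟨n, hn, -, hg⟩ := Subgroup.exists_pow_mem_of_index_ne_zero (H := H) hH.index_ne_zero g
  exact ⟨n, hn, hg⟩

theorem HC.map_mul_of_commute {ψ : G → V} (h : ψ ∈ HC V G) {a b : G} (hab : Commute a b) :
    ψ (a * b) = ψ a + ψ b := by
  obtain ⟨h1, H, hH, h2⟩ := id h
  obtain ⟨n, hn, hna⟩ := exists_pow_mem H hH a
  obtain ⟨m, hm, hmb⟩ := exists_pow_mem H hH b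
  have hN : (((n * m : ℕ)) : ℚ) ≠ 0 := by exact_mod_cast (Nat.mul_pos hn hm).ne'
  have ha : a ^ (n * m) ∈ H := by rw [pow_mul]; exact H.pow_mem hna m
  have hb : b ^ (n * m) ∈ H := by rw [mul_comm, pow_mul]; exact H.pow_mem hmb n
  have h3 : ((n * m : ℕ) : ℚ) • ψ (a * b) = ((n * m : ℕ) : ℚ) • (ψ a + ψ b) := by
    rw [← h1, hab.mul_pow, h2 _ ha _ hb, h1, h1, smul_add]
  exact smul_right_injective V hN h3

/-- elements of `HC` extend uniquely from subgroups of finite index. -/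
theorem HC.extend (f : G' →* G) (hf : Function.Injective f) (hi : f.range.FiniteIndex)
    {ψ : G' → V} (h : ψ ∈ HC V G') : ∃ ψ' ∈ HC V G, ψ' ∘ f = ψ := by
  obtain ⟨h1, H, hH, h2⟩ := id h
  choose n hn hmem using fun g => exists_pow_mem f.range hi g
  choose u hu using hmem
  -- `f (u g) = g ^ n g`
  let ψ' : G → V := fun g => ((n g : ℚ))⁻¹ • ψ (u g)
  have key : ∀ (g : G) (m : ℕ) (v : G'), 0 < m → f v = g ^ m → (m : ℚ) • ψ' g = ψ v := by
    intro g m v hm hv
    have e1 : v ^ n g = u g ^ m := by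
      apply hf
      rw [_root_.map_pow, _root_.map_pow, hv, hu, ← pow_mul, ← pow_mul, mul_comm]
    have e2 : (n g : ℚ) • ψ v = (m : ℚ) • ψ (u g) := by
      rw [← h1, ← h1, e1]
    have hn' : (n g : ℚ) ≠ 0 := by exact_mod_cast (hn g).ne'
    change (m : ℚ) • ((n g : ℚ))⁻¹ • ψ (u g) = ψ v
    rw [smul_comm, ← e2, inv_smul_smul₀ hn']
  have hcomp : ψ' ∘ f = ψ := by
    funext v
    have := key (f v) 1 v one_pos (by rw [pow_one])
    simpa using this
  refine ⟨ψ', ⟨fun g m => ?_, H.map f, ?_, ?_⟩, hcomp⟩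
  · rcases Nat.eq_zero_or_pos m with rfl | hm
    · have h0 : ψ' 1 = 0 := by
        have := congrFun hcomp 1
        rw [Function.comp_apply, _root_.map_one] at this
        rw [this, HC.map_one h]
      simp [h0]
    · have hn1 : 0 < n (g ^ m) := hn _
      have e := key (g ^ m) (n (g ^ m)) (u (g ^ m)) hn1 (hu _)
      have e' := key g (m * n (g ^ m)) (u (g ^ m)) (Nat.mul_pos hm hn1) (by
        rw [hu, pow_mul])
      have hn' : (n (g ^ m) : ℚ) ≠ 0 := by exact_mod_cast hn1.ne'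
      apply smul_right_injective V hn'
      change (n (g ^ m) : ℚ) • ψ' (g ^ m) = (n (g ^ m) : ℚ) • (m : ℚ) • ψ' g
      rw [e, ← e', Nat.cast_mul, mul_smul, smul_comm]
  · constructor
    rw [Subgroup.index_map_of_injective _ hf]
    exact mul_ne_zero hH.index_ne_zero hi.index_ne_zero
  · rintro _ ⟨a, ha, rfl⟩ _ ⟨b, hb, rfl⟩
    have e : ∀ c, ψ' (f c) = ψ c := fun c => congrFun hcomp c
    rw [← map_mul, e, e, e]
    exact h2 a ha b hb

theorem HC.ext (f : G' →* G) (hi : f.range.FiniteIndex) {ψ ψ' : G → V} (h : ψ ∈ HC V G)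
    (h' : ψ' ∈ HC V G) (he : ψ ∘ f = ψ' ∘ f) : ψ = ψ' := by
  funext g
  obtain ⟨n, hn, ⟨v, hv⟩⟩ := exists_pow_mem f.range hi g
  refine HC.eq_of_pow h h' g n hn ?_
  rw [← hv]
  exact congrFun he v

/-- homomorphisms are in `HC`. -/
theorem HC.of_hom (f : G →* Multiplicative V) : (fun g => (f g).toAdd) ∈ HC V G := by
  refine ⟨fun g n => ?_, ⊤, inferInstance, fun a _ b _ => ?_⟩
  · simp only [_root_.map_pow, toAdd_pow]
    rw [Nat.cast_smul_eq_nsmul]
  · simp only [map_mul, toAdd_mul]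

end MP8178
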