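import Pool.Agent.Lib_MP_8178ab_ag.Basic
import Pool.Agent.Lib_MP_8178ab_ag.HC

/-!
# Groups of loops, push forward, conjugation by arrows
-/

open CategoryTheory Limits AlgebraicGeometry

namespace MP8178

variable {K : Type} [Field K] (P : GrpdFunctor K)

/-- the group of loops at `x` -/
instance GrpdFunctor.instGroup (X : Var K) (x : Pt X) : Group (P.Hom X x x) where
  mul a b := P.comp a b
  one := P.one X x
  inv a := P.inv a
  mul_assoc a b c := P.assoc a b c
  one_mul a := P.one_comp a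
  mul_one a := P.comp_one a
  inv_mul_cancel a := P.inv_comp a

theorem GrpdFunctor.mul_def {X : Var K} {x : Pt X} (a b : P.Hom X x x) : a * b = P.comp a b := rfl
theorem GrpdFunctor.one_def {X : Var K} {x : Pt X} : (1 : P.Hom X x x) = P.one X x := rfl
theorem GrpdFunctor.inv_def {X : Var K} {x : Pt X} (a : P.Hom X x x) : a⁻¹ = P.inv a := rfl

/-- push forward of loops -/
def GrpdFunctor.push {X Y : Var K} (f : X.obj ⟶ Y.obj) {x : Pt X} {y : Pt Y} (h : x ≫ f = y) :
    P.Hom X x x →* P.Hom Y y y where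
  toFun a := P.map f h h a
  map_one' := P.map_one f h
  map_mul' a b := P.map_comp f h h h a b

/-- conjugation of loops by an arrow `a : x ⟶ y`: `g ↦ a⁻¹ g a`. -/
def GrpdFunctor.cj {X : Var K} {x y : Pt X} (a : P.Hom X x y) :
    P.Hom X x x →* P.Hom X y y where
  toFun g := P.comp (P.comp (P.inv a) g) a
  map_one' := by
    change P.comp (P.comp (P.inv a) (P.one X x)) a = P.one X y
    rw [P.comp_one, P.inv_comp]
  map_mul' g h := by
    change P.comp (P.comp (P.inv a) (P.comp g h)) a =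
      P.comp (P.comp (P.comp (P.inv a) g) a) (P.comp (P.comp (P.inv a) h) a)
    rw [P.assoc (P.comp (P.inv a) g) a, ← P.assoc a (P.comp (P.inv a) h) a,
      ← P.assoc a (P.inv a) h, P.comp_inv, P.one_comp, ← P.assoc, ← P.assoc]

/-- the inverse of an arrow is determined by the groupoid laws -/
theorem GrpdFunctor.inv_eq_of_comp {X : Var K} {x y : Pt X} (a : P.Hom X x y) (b : P.Hom X y x)
    (h : P.comp a b = P.one X x) : b = P.inv a := by
  rw [← P.one_comp b, ← P.inv_comp a, P.assoc, h, P.comp_one]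

theorem GrpdFunctor.map_inv {X Y : Var K} (f : X.obj ⟶ Y.obj) {x y : Pt X} {x' y' : Pt Y}
    (hx : x ≫ f = x') (hy : y ≫ f = y') (a : P.Hom X x y) :
    P.map f hy hx (P.inv a) = P.inv (P.map f hx hy a) := by
  apply P.inv_eq_of_comp
  rw [← P.map_comp f hx hy hx, P.comp_inv, P.map_one]

theorem GrpdFunctor.inv_inv {X : Var K} {x y : Pt X} (a : P.Hom X x y) :
    P.inv (P.inv a) = a := (P.inv_eq_of_comp _ _ (P.inv_comp a)).symm

theorem GrpdFunctor.cj_cj {X : Var K} {x y z : Pt X} (a : P.Hom X x y) (b : P.Hom X y z)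
    (g : P.Hom X x x) : P.cj b (P.cj a g) = P.cj (P.comp a b) g := by
  have hinv : P.inv (P.comp a b) = P.comp (P.inv b) (P.inv a) := by
    symm
    apply P.inv_eq_of_comp
    rw [P.assoc, ← P.assoc b, P.comp_inv, P.one_comp, P.comp_inv]
  change P.comp (P.comp (P.inv b) (P.comp (P.comp (P.inv a) g) a)) b =
    P.comp (P.comp (P.inv (P.comp a b)) g) (P.comp a b)
  rw [hinv]
  simp only [P.assoc]

theorem GrpdFunctor.inv_one {X : Var K} {x : Pt X} : P.inv (P.one X x) = P.one X x :=
  (P.inv_eq_of_comp _ _ (P.one_comp _)).symm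

theorem GrpdFunctor.cj_one {X : Var K} {x : Pt X}
    (g : P.Hom X x x) : P.cj (P.one X x) g = g := by
  change P.comp (P.comp (P.inv (P.one X x)) g) (P.one X x) = g
  rw [P.comp_one, P.inv_one, P.one_comp]

theorem GrpdFunctor.cj_inv_cj {X : Var K} {x y : Pt X} (a : P.Hom X x y)
    (g : P.Hom X x x) : P.cj (P.inv a) (P.cj a g) = g := by
  rw [P.cj_cj, P.comp_inv, P.cj_one]

theorem GrpdFunctor.push_cj {X Y : Var K} (f : X.obj ⟶ Y.obj) {x y : Pt X} {x' y' : Pt Y}
    (hx : x ≫ f = x') (hy : y ≫ f = y') (a : P.Hom X x y) (g : P.Hom X x x) :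
    P.push f hy (P.cj a g) = P.cj (P.map f hx hy a) (P.push f hx g) := by
  change P.map f hy hy (P.comp (P.comp (P.inv a) g) a) =
    P.comp (P.comp (P.inv (P.map f hx hy a)) (P.map f hx hx g)) (P.map f hx hy a)
  rw [P.map_comp f hy hx hy, P.map_comp f hy hx hx, P.map_inv f hx hy]

theorem GrpdFunctor.push_push {X Y Z : Var K} (f : X.obj ⟶ Y.obj) (g : Y.obj ⟶ Z.obj) {x : Pt X}
    {x' : Pt Y} {x'' : Pt Z} (hx : x ≫ f = x') (hx' : x' ≫ g = x'') (h : x ≫ f ≫ g = x'')
    (a : P.Hom X x x) : P.push g hx' (P.push f hx a) = P.push (f ≫ g) h a :=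
  (P.map_map f g hx hx hx' hx' h h a).symm

/-- the one-point variety -/
@[reducible] noncomputable def ptVar (K : Type) [Field K] : Var K where
  obj := ptO K
  smooth := by
    dsimp; infer_instance
  separated := by
    dsimp; infer_instance
  quasiCompact := by
    dsimp; infer_instance
  quasiProj := by
    have := IsQuasiProj.of_affine K K
    rw [Algebra.algebraMap_self, CommRingCat.ofHom_id, Spec.map_id] at this
    exact this

theorem ptO_hom_unique (f : ptO K ⟶ ptO K) : f = 𝟙 _ := by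
  apply Over.OverMorphism.ext
  have := Over.w f
  simpa using this

/-- loops on the point are trivial -/
theorem IsPiOneLike.subsingleton_ptVar {P : GrpdFunctor K} (hP : IsPiOneLike P)
    (x : Pt (ptVar K)) (a b : P.Hom (ptVar K) x x) : a = b := by
  have hx : x = 𝟙 _ := ptO_hom_unique x
  subst hx
  have hl : Nonempty (IsLimit (BinaryFan.mk (𝟙 (ptVar K).obj) (𝟙 (ptVar K).obj))) := by
    refine ⟨BinaryFan.IsLimit.mk _ (fun {T} f g => f) (fun f g => ?_) (fun f g => ?_)
      (fun f g m h1 h2 => ?_)⟩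
    · exact Category.comp_id _
    · apply Over.OverMorphism.ext
      have h1 := Over.w f
      have h2 := Over.w g
      change f.left ≫ 𝟙 _ = g.left
      change f.left ≫ 𝟙 _ = _ at h1
      change g.left ≫ 𝟙 _ = _ at h2
      rw [h1, ← h2, Category.comp_id]
    · simpa using h1
  have hb := (hP.prod (X := ptVar K) (Y := ptVar K) (Z := ptVar K) _ _ hl
    (𝟙 _) (𝟙 _)).2
  obtain ⟨c, hc⟩ := hb (P.map (𝟙 _) rfl rfl a, P.map (𝟙 _) rfl rfl b)
  simp only [Prod.mk.injEq] at hc
  have h1 := hc.1.symm.trans hc.2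
  have key : ∀ (y : Pt (ptVar K)) (hy : 𝟙 _ ≫ 𝟙 (ptVar K).obj = y),
      P.map (𝟙 (ptVar K).obj) hy hy a = P.map (𝟙 (ptVar K).obj) hy hy b → a = b := by
    intro y hy h
    have : y = 𝟙 _ := by rw [← hy, Category.comp_id]
    subst this
    rwa [P.map_id, P.map_id] at h
  exact key _ rfl h1

/-- the morphism to the point -/
noncomputable def toPt (X : Var K) : X.obj ⟶ (ptVar K).obj := Over.homMk X.obj.hom

/-- constant morphism with value `y` -/
noncomputable def constHom (X : Var K) {Y : Var K} (y : Pt Y) : X.obj ⟶ Y.obj := toPt X ≫ y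

theorem comp_constHom {X Y : Var K} (x : Pt X) (y : Pt Y) : x ≫ constHom X y = y := by
  have : x ≫ toPt X = 𝟙 _ := ptO_hom_unique _
  rw [constHom, ← Category.assoc, this, Category.id_comp]

/-- push forward along a constant morphism is trivial -/
theorem IsPiOneLike.push_const {P : GrpdFunctor K} (hP : IsPiOneLike P) {X Y : Var K} {x : Pt X}
    {y y' : Pt Y} (h : x ≫ constHom X y = y') (a : P.Hom X x x) : P.push (constHom X y) h a = 1 := by
  have h1 : x ≫ toPt X = 𝟙 _ := ptO_hom_unique _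
  have h2 : (𝟙 _ : Pt (ptVar K)) ≫ y = y' := by
    rw [← h, comp_constHom, Category.id_comp]
  have := P.push_push (Y := ptVar K) (toPt X) y h1 h2 h a
  change P.push (toPt X ≫ y) h a = 1
  rw [← this, hP.subsingleton_ptVar _ (P.push (toPt X) h1 a) 1, _root_.map_one]

/-- finite étale morphisms induce injections on loops -/
theorem IsPiOneLike.push_injective {P : GrpdFunctor K} (hP : IsPiOneLike P) {X' X : Var K}
    (f : X'.obj ⟶ X.obj) (hf : IsFinite f.left) (he : Etale f.left) {x' : Pt X'} {x : Pt X}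
    (hx : x' ≫ f = x) : Function.Injective (P.push f hx) := by
  intro a b hab
  obtain ⟨c, -, hc⟩ := hP.lift f hf he x' x x hx (P.push f hx a)
  have h1 := hc ⟨x', a⟩ ⟨hx, rfl⟩
  have h2 := hc ⟨x', b⟩ ⟨hx, hab.symm⟩
  have := h1.trans h2.symm
  simpa using this

end MP8178
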