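import Pool.Agent.Lib_MP_8178ab_ag.Sq
import Pool.Agent.Lib_MP_8178ab_ag.Api

open CategoryTheory Limits AlgebraicGeometry Polynomial

namespace MP8178

variable {K : Type} [Field K]

/-- the multiplicative group -/
noncomputable abbrev gm (K : Type) [Field K] : Var K := uVar K (X : K[X])

theorem uHom_congr (h h' q q' : K[X]) (m m' : ℕ) (hq : h.comp q ∣ h' ^ m)
    (hq' : h.comp q' ∣ h' ^ m') (e : q = q') : uHom h h' q m hq = uHom h h' q' m' hq' := by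
  subst e; rfl

theorem uHom_X (h : K[X]) (m : ℕ) (hq : h.comp X ∣ h ^ m) : uHom h h X m hq = 𝟙 _ := by
  obtain ⟨ψ, h1, h1'⟩ := uHom_left_X h h X m hq
  have : ψ = AlgHom.id K _ := alg_ext h1'
  rw [h1, this]
  apply Over.OverMorphism.ext
  exact Spec.map_id _

theorem X_comp_dvd (c : Kˣ) : (X : K[X]).comp (C (c : K) * X) ∣ X ^ 1 := by
  refine ⟨C ((c⁻¹ : Kˣ) : K), ?_⟩
  rw [X_comp, pow_one, mul_right_comm, ← C_mul]
  simp

/-- multiplication by a unit on the multiplicative group -/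
noncomputable def mc (c : Kˣ) : (gm K).obj ⟶ (gm K).obj :=
  uHom X (X : K[X]) (C (c : K) * X) 1 (X_comp_dvd c)

theorem uCoord_mc (x : Pt (gm K)) (c : Kˣ) : uCoord (x ≫ mc c) = c * uCoord x := by
  rw [mc, uCoord_comp_uHom]
  simp

theorem uCoord_sq (x : Pt (gm K)) : uCoord (x ≫ sq K) = uCoord x ^ 2 := by
  rw [sq, uCoord_comp_uHom]
  simp

theorem mc_sq (c : Kˣ) : mc c ≫ sq K = sq K ≫ mc (c ^ 2) := by
  have e1 : (X ^ 2 : K[X]).comp (C (c : K) * X) = (C ((c ^ 2 : Kˣ) : K) * X).comp (X ^ 2) := by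
    simp [mul_pow]
  have d1 : (X : K[X]).comp ((X ^ 2 : K[X]).comp (C (c : K) * X)) ∣ X ^ 2 := by
    refine ⟨C (((c ^ 2)⁻¹ : Kˣ) : K), ?_⟩
    rw [X_comp, pow_comp, X_comp, mul_pow, mul_right_comm, ← C_pow, ← C_mul]
    simp
  have d2 : (X : K[X]).comp ((C ((c ^ 2 : Kˣ) : K) * X).comp (X ^ 2)) ∣ X ^ 2 := by
    rw [← e1]; exact d1
  rw [mc, sq, uHom_comp _ _ _ _ _ _ _ 2 _ _ d1, mc, uHom_comp _ _ _ _ _ _ _ 2 _ _ d2]
  exact uHom_congr _ _ _ _ _ _ _ _ e1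

theorem mc_one : mc (1 : Kˣ) = 𝟙 (gm K).obj := by
  rw [mc, uHom_congr _ _ _ X _ 1 _ (by simp) (by simp), uHom_X]

/-- `z ↦ z ^ (2 ^ n)` -/
noncomputable def sqn (K : Type) [Field K] : ℕ → ((gm K).obj ⟶ (gm K).obj)
  | 0 => 𝟙 _
  | n + 1 => sq K ≫ sqn K n

theorem sqn_fe (h2 : (2 : K) ≠ 0) (n : ℕ) : IsFinite (sqn K n).left ∧ Etale (sqn K n).left := by
  induction n with
  | zero =>
    change IsFinite (𝟙 _) ∧ Etale (𝟙 _)
    exact ⟨inferInstance, inferInstance⟩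
  | succ n ih =>
    obtain ⟨h3, h4⟩ := ih
    obtain ⟨h5, h6⟩ := sq_finite_etale h2
    change IsFinite ((sq K).left ≫ (sqn K n).left) ∧ Etale ((sq K).left ≫ (sqn K n).left)
    exact ⟨inferInstance, inferInstance⟩

theorem uCoord_sqn (x : Pt (gm K)) (n : ℕ) : uCoord (x ≫ sqn K n) = uCoord x ^ (2 ^ n) := by
  induction n generalizing x with
  | zero => simp [sqn]
  | succ n ih =>
    rw [sqn, ← Category.assoc, ih, uCoord_sq, ← pow_mul, pow_succ' 2]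

theorem mc_sqn (c : Kˣ) (n : ℕ) : mc c ≫ sqn K n = sqn K n ≫ mc (c ^ 2 ^ n) := by
  induction n generalizing c with
  | zero => simp [sqn]
  | succ n ih =>
    rw [sqn, ← Category.assoc, mc_sq, Category.assoc, ih, ← pow_mul, pow_succ' 2, Category.assoc]

theorem uCoord_ne_zero (x : Pt (gm K)) : uCoord x ≠ 0 := by
  have := eval_uCoord x
  simpa using this

variable (P : GrpdFunctor K)

theorem map_congr' {P : GrpdFunctor K} {X Y : Var K} {f f' : X.obj ⟶ Y.obj} (e : f = f')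
    {x y : Pt X} {x' y' : Pt Y} (h1 : x ≫ f = x') (h2 : y ≫ f = y') (h1' : x ≫ f' = x')
    (h2' : y ≫ f' = y') (γ : P.Hom X x y) : P.map f h1 h2 γ = P.map f' h1' h2' γ := by
  subst e; rfl

/-- the loop `u` at `x0` lifts along `z ↦ z ^ (2 ^ n)` to an arrow from `x` to `c x`. -/
def Rel (x0 x : Pt (gm K)) (n : ℕ) (u : P.Hom (gm K) x0 x0) (c : Kˣ) : Prop :=
  ∃ (γ : P.Hom (gm K) x (x ≫ mc c)) (h1 : x ≫ sqn K n = x0)
    (h2 : (x ≫ mc c) ≫ sqn K n = x0), P.map (sqn K n) h1 h2 γ = u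

variable {P}

theorem Rel.exists (hP : IsPiOneLike P) (h2 : (2 : K) ≠ 0) {x0 x : Pt (gm K)} {n : ℕ}
    (hx : x ≫ sqn K n = x0) (u : P.Hom (gm K) x0 x0) : ∃ c, Rel P x0 x n u c := by
  obtain ⟨hf, he⟩ := sqn_fe h2 n
  obtain ⟨⟨y', γ⟩, ⟨hy, hγ⟩, -⟩ := hP.lift (sqn K n) hf he x x0 x0 hx u
  dsimp only at hy hγ
  obtain ⟨c, hyc⟩ : ∃ c : Kˣ, y' = x ≫ mc c := by
    refine ⟨Units.mk0 (uCoord y') (uCoord_ne_zero y') /
      Units.mk0 (uCoord x) (uCoord_ne_zero x), ?_⟩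
    apply uPt_ext
    rw [uCoord_mc]
    simp only [Units.val_div_eq_div_val, Units.val_mk0]
    rw [div_mul_cancel₀ _ (uCoord_ne_zero x)]
  subst hyc
  exact ⟨c, γ, hx, hy, hγ⟩

theorem Rel.unique (hP : IsPiOneLike P) (h2 : (2 : K) ≠ 0) {x0 x : Pt (gm K)} {n : ℕ}
    {u : P.Hom (gm K) x0 x0} {c c' : Kˣ} (h : Rel P x0 x n u c) (h' : Rel P x0 x n u c') :
    c = c' := by
  obtain ⟨hf, he⟩ := sqn_fe h2 n
  obtain ⟨γ, h3, h4, h5⟩ := h
  obtain ⟨γ', h3', h4', h5'⟩ := h'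
  obtain ⟨b, -, hb⟩ := hP.lift (sqn K n) hf he x x0 x0 h3 u
  have e1 := hb ⟨x ≫ mc c, γ⟩ ⟨h4, h5⟩
  have e2 := hb ⟨x ≫ mc c', γ'⟩ ⟨h4', h5'⟩
  have e3 : x ≫ mc c = x ≫ mc c' := congrArg Sigma.fst (e1.trans e2.symm)
  have e4 := congrArg uCoord e3
  rw [uCoord_mc, uCoord_mc] at e4
  exact Units.ext (mul_right_cancel₀ (uCoord_ne_zero x) e4)

theorem Rel.mul {x0 x : Pt (gm K)} {n : ℕ}
    {u u' : P.Hom (gm K) x0 x0} {c c' : Kˣ} (h : Rel P x0 x n u c) (h' : Rel P x0 x n u' c') :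
    Rel P x0 x n (P.comp u u') (c * c') := by
  obtain ⟨γ, h3, h4, h5⟩ := h
  obtain ⟨γ', h3', h4', h5'⟩ := h'
  have hc : c ^ 2 ^ n = 1 := by
    have e1 := congrArg uCoord (h4.trans h3.symm)
    rw [uCoord_sqn, uCoord_sqn, uCoord_mc, mul_pow] at e1
    have e2 : (uCoord x) ^ 2 ^ n ≠ 0 := pow_ne_zero _ (uCoord_ne_zero x)
    apply Units.ext
    rw [Units.val_pow_eq_pow_val, Units.val_one]
    exact mul_right_cancel₀ e2 (e1.trans (one_mul _).symm)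
  have hcs : mc c ≫ sqn K n = sqn K n := by
    rw [mc_sqn, hc, mc_one, Category.comp_id]
  have e5 : (x ≫ mc c') ≫ mc c = x ≫ mc (c * c') := by
    apply uPt_ext
    rw [uCoord_mc, uCoord_mc, uCoord_mc, Units.val_mul, mul_assoc]
  have h6 : (x ≫ mc (c * c')) ≫ sqn K n = x0 := by
    rw [← e5, Category.assoc, hcs, h4']
  refine ⟨P.comp γ (P.map (mc c) rfl e5 γ'), h3, h6, ?_⟩
  rw [P.map_comp (sqn K n) h3 h4 h6, h5]
  congr 1
  have h7 : x ≫ mc c ≫ sqn K n = x0 := by rw [hcs, h3]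
  have h8 : (x ≫ mc c') ≫ mc c ≫ sqn K n = x0 := by rw [hcs, h4']
  rw [← P.map_map (mc c) (sqn K n) rfl e5 h4 h6 h7 h8]
  have key : ∀ (f : (gm K).obj ⟶ (gm K).obj) (hf : f = sqn K n) (h9 : x ≫ f = x0)
    (h10 : (x ≫ mc c') ≫ f = x0), P.map f h9 h10 γ' = u' := by
    rintro f rfl h9 h10
    exact h5'
  exact key _ hcs _ _

theorem Rel.sq {x0 x x' : Pt (gm K)} {n : ℕ} (hx : x' ≫ MP8178.sq K = x)
    {u : P.Hom (gm K) x0 x0} {c : Kˣ} (h : Rel P x0 x' (n + 1) u c) :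
    Rel P x0 x n u (c ^ 2) := by
  obtain ⟨γ, h3, h4, h5⟩ := h
  have e1 : (x' ≫ mc c) ≫ MP8178.sq K = x ≫ mc (c ^ 2) := by
    rw [Category.assoc, mc_sq, ← Category.assoc, hx]
  have h6 : x ≫ sqn K n = x0 := by
    rw [← hx, Category.assoc]
    exact h3
  have h7 : (x ≫ mc (c ^ 2)) ≫ sqn K n = x0 := by
    rw [← e1, Category.assoc]
    exact h4
  refine ⟨P.map (MP8178.sq K) hx e1 γ, h6, h7, ?_⟩
  rw [← h5]
  exact (P.map_map (MP8178.sq K) (sqn K n) hx e1 h6 h7 h3 h4 γ).symm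

variable [IsAlgClosed K]

theorem exists_sqrt_pt (x : Pt (gm K)) : ∃ x' : Pt (gm K), x' ≫ sq K = x := by
  obtain ⟨a, ha⟩ := IsAlgClosed.exists_pow_nat_eq (uCoord x) (n := 2) (by norm_num)
  have ha0 : (X : K[X]).eval a ≠ 0 := by
    rw [eval_X]
    rintro rfl
    apply uCoord_ne_zero x
    rw [← ha]
    simp
  refine ⟨uPt X a ha0, ?_⟩
  apply uPt_ext
  rw [uCoord_sq, uCoord_uPt, ha]

/-- The characters of the loops of an open subset of the multiplicative group given by the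
coverings `z ↦ z ^ (2 ^ n)`. -/
theorem kummer {P : GrpdFunctor K} (hP : IsPiOneLike P) (h2 : (2 : K) ≠ 0) (h : K[X]) (h0 : h ≠ 0)
    (hX : X ∣ h) (t : Pt (uVar K h)) :
    ∃ χ : P.Hom (uVar K h) t t →* (ℕ → Kˣ), ∃ g : P.Hom (uVar K h) t t,
      ∀ m : ℕ, 0 < m → (χ g) ^ m ≠ 1 := by
  classical
  let i : (uVar K h).obj ⟶ (gm K).obj := uHom X h X 1 (by simpa using hX)
  have hi : ∀ y : Pt (uVar K h), uCoord (y ≫ i) = uCoord y := by
    intro y
    rw [uCoord_comp_uHom, eval_X]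
  let x0 : Pt (gm K) := t ≫ i
  choose r hr using exists_sqrt_pt (K := K)
  let x : ℕ → Pt (gm K) := fun n => Nat.rec x0 (fun _ y => r y) n
  have hx0 : x 0 = x0 := rfl
  have hxs : ∀ n, x (n + 1) ≫ sq K = x n := fun n => hr (x n)
  have hxn : ∀ n, x n ≫ sqn K n = x0 := by
    intro n
    induction n with
    | zero => exact Category.comp_id _
    | succ n ih =>
      change x (n + 1) ≫ sq K ≫ sqn K n = x0
      rw [← Category.assoc, hxs, ih]
  choose e he using fun n (u : P.Hom (gm K) x0 x0) => Rel.exists hP h2 (hxn n) u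
  let χ' : P.Hom (gm K) x0 x0 →* (ℕ → Kˣ) := MonoidHom.mk' (fun u n => e n u) (by
    intro u u'
    funext n
    exact Rel.unique hP h2 (he n _) ((he n u).mul (he n u')))
  have hes : ∀ n u, e (n + 1) u ^ 2 = e n u := fun n u =>
    Rel.unique hP h2 ((he (n + 1) u).sq (hxs n)) (he n u)
  -- the loop
  let h' : K[X] := h.comp (X ^ 2)
  have h'0 : h' ≠ 0 := by
    intro h3
    rw [Polynomial.comp_eq_zero_iff] at h3
    rcases h3 with h3 | h3
    · exact h0 h3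
    · have := congrArg (fun p => p.coeff 2) h3.2
      simp at this
  let s : (uVar K h').obj ⟶ (uVar K h).obj := uHom h h' (X ^ 2) 1 (by simp [h'])
  let i' : (uVar K h').obj ⟶ (gm K).obj := uHom X h' X 1 (by
    rw [X_comp, pow_one]
    obtain ⟨q, hq⟩ := hX
    refine ⟨X * q.comp (X ^ 2), ?_⟩
    simp only [h']
    rw [hq]
    simp only [mul_comp, X_comp]
    ring)
  have hs : i' ≫ sq K = s ≫ i := by
    have d1 : (X : K[X]).comp ((X ^ 2 : K[X]).comp X) ∣ h' ^ 2 := by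
      obtain ⟨q, hq⟩ := hX
      refine ⟨X ^ 2 * q.comp (X ^ 2) ^ 2, ?_⟩
      simp only [h']
      rw [hq]
      simp only [mul_comp, X_comp, comp_X]
      ring
    have d2 : (X : K[X]).comp ((X : K[X]).comp (X ^ 2)) ∣ h' ^ 2 := by
      simpa using d1
    simp only [i', sq, s, i]
    rw [uHom_comp _ _ _ _ _ _ _ 2 _ _ d1, uHom_comp _ _ _ _ _ _ _ 2 _ _ d2]
    exact uHom_congr _ _ _ _ _ _ _ _ (by simp)
  let a : K := uCoord (x 1)
  have ha : a ^ 2 = uCoord t := by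
    rw [← hi t, ← uCoord_sq]
    exact congrArg uCoord (hxs 0)
  have hev : ∀ b : K, b ^ 2 = uCoord t → h'.eval b ≠ 0 := by
    intro b hb
    simp only [h', eval_comp, eval_pow, eval_X]
    rw [hb]
    exact eval_uCoord t
  have hb1 := hev a ha
  have hb2 := hev (-a) (by rw [neg_sq, ha])
  have hp : ∀ b (hb : b ^ 2 = uCoord t), uPt h' b (hev b hb) ≫ s = t := by
    intro b hb
    apply uPt_ext
    rw [uCoord_comp_uHom, uCoord_uPt]
    simp [hb]
  obtain ⟨δ⟩ := hP.conn (uVar K h') (connected_uVar h' h'0) (uPt h' a hb1) (uPt h' (-a) hb2)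
  let g : P.Hom (uVar K h) t t := P.map s (hp a ha) (hp (-a) (by rw [neg_sq, ha])) δ
  refine ⟨χ'.comp (P.push i rfl), g, ?_⟩
  have hrel : Rel P x0 (x 1) 1 (P.push i rfl g) (-1) := by
    have e1 : uPt h' a hb1 ≫ i' = x 1 := by
      apply uPt_ext
      rw [uCoord_comp_uHom, uCoord_uPt]
      simp [a]
    have e2 : uPt h' (-a) hb2 ≫ i' = x 1 ≫ mc (-1) := by
      apply uPt_ext
      rw [uCoord_comp_uHom, uCoord_uPt, uCoord_mc]
      simp [a]
    have e3 : (x 1 ≫ mc (-1)) ≫ sqn K 1 = x0 := by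
      apply uPt_ext
      rw [uCoord_sqn, uCoord_mc, ← hx0, ← hxs 0, uCoord_sq]
      simp
    refine ⟨P.map i' e1 e2 δ, hxn 1, e3, ?_⟩
    have e4 : i' ≫ sqn K 1 = s ≫ i := by
      change i' ≫ sq K ≫ 𝟙 _ = _
      rw [Category.comp_id, hs]
    have e5 : uPt h' a hb1 ≫ i' ≫ sqn K 1 = x0 := by rw [← Category.assoc, e1, hxn]
    have e6 : uPt h' (-a) hb2 ≫ i' ≫ sqn K 1 = x0 := by rw [← Category.assoc, e2, e3]
    rw [← P.map_map i' (sqn K 1) e1 e2 (hxn 1) e3 e5 e6]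
    change _ = P.map i rfl rfl (P.map s _ _ δ)
    rw [← P.map_map s i (hp a ha) (hp (-a) (by rw [neg_sq, ha])) rfl rfl (e4 ▸ e5) (e4 ▸ e6)]
    exact map_congr' e4 _ _ _ _ _
  have h1 : e 1 (P.push i rfl g) = -1 := Rel.unique hP h2 (he 1 _) hrel
  intro m hm hcon
  obtain ⟨k, b, hb, rfl⟩ := Nat.exists_eq_two_pow_mul_odd hm.ne'
  have h3 : ∀ n, e (n + 1) (P.push i rfl g) ^ 2 ^ n = -1 := by
    intro n
    induction n with
    | zero => simpa using h1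
    | succ n ih => rw [pow_succ' 2, pow_mul, hes, ih]
  have h4 := congrFun hcon (k + 1)
  rw [Pi.pow_apply] at h4
  change (e (k + 1) (P.push i rfl g)) ^ (2 ^ k * b) = 1 at h4
  rw [pow_mul, h3, hb.neg_one_pow] at h4
  have h5 := congrArg Units.val h4
  simp only [Units.val_neg, Units.val_one] at h5
  apply h2
  linear_combination -h5

end MP8178
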