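import Pool.Agent.Lib_MP_8178ab_ag.Api

/-!
# Strictification
-/

open CategoryTheory Limits AlgebraicGeometry

namespace MP8178

variable {K : Type} [Field K] {k : Type} [Field k]

/-- The data of (the restriction to the category of varieties and morphisms defined over `k` of)
a functor to groupoids: groupoids with objects `V_K(K)` for all varieties `V` over `k`, and maps
for all morphisms defined over `k`. -/
structure ResFunctor (φ : k →+* K) where
  Hom : (V : Var k) → Pt (bcVar φ V) → Pt (bcVar φ V) → Type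
  one : (V : Var k) → (x : Pt (bcVar φ V)) → Hom V x x
  comp : {V : Var k} → {x y z : Pt (bcVar φ V)} → Hom V x y → Hom V y z → Hom V x z
  inv : {V : Var k} → {x y : Pt (bcVar φ V)} → Hom V x y → Hom V y x
  map : {V W : Var k} → (f : V.obj ⟶ W.obj) → {x y : Pt (bcVar φ V)} →
    {x' y' : Pt (bcVar φ W)} → (x ≫ bcMap φ f = x') → (y ≫ bcMap φ f = y') →
    Hom V x y → Hom W x' y'

/-- The restriction of a functor on varieties over `K` to the subcategory of varieties and
morphisms defined over `k`. -/
noncomputable def GrpdFunctor.res (P : GrpdFunctor K) (φ : k →+* K) : ResFunctor φ where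
  Hom V x y := P.Hom (bcVar φ V) x y
  one V x := P.one (bcVar φ V) x
  comp a b := P.comp a b
  inv a := P.inv a
  map f _ _ _ _ hx hy a := P.map (bcMap φ f) hx hy a

theorem Equivalent.symm {P Q : GrpdFunctor K} (h : Equivalent P Q) : Equivalent Q P := by
  obtain ⟨e, h1, h2⟩ := h
  refine ⟨fun X x y => (e X x y).symm, fun X x y z a b => ?_, fun X Y f x y x' y' hx hy a => ?_⟩
  · apply (e X x z).injective
    rw [h1]
    simp
  · apply (e Y x' y').injective
    rw [h2]
    simp

theorem Equivalent.trans {P Q R : GrpdFunctor K} (h : Equivalent P Q) (h' : Equivalent Q R) :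
    Equivalent P R := by
  obtain ⟨e, h1, h2⟩ := h
  obtain ⟨e', h1', h2'⟩ := h'
  refine ⟨fun X x y => (e X x y).trans (e' X x y), fun X x y z a b => ?_,
    fun X Y f x y x' y' hx hy a => ?_⟩
  · simp only [Equiv.trans_apply]
    rw [h1, h1']
  · simp only [Equiv.trans_apply]
    rw [h2, h2']

theorem Equivalent.conj {P Q : GrpdFunctor K} (h : Equivalent P Q) (σ : K ≃+* K) :
    Equivalent (P.conj σ) (Q.conj σ) := by
  obtain ⟨e, h1, h2⟩ := h
  refine ⟨fun X x y => e (conjVar σ X) (conjPt σ x) (conjPt σ y), fun X x y z a b => ?_,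
    fun X Y f x y x' y' hx hy a => ?_⟩
  · exact h1 _ _ _ _ _ _
  · exact h2 _ _ _ _ _ _ _ _ _ _

theorem IsPiOneLike.of_equivalent {P Q : GrpdFunctor K} (hP : IsPiOneLike P)
    (h : Equivalent P Q) : IsPiOneLike Q := by
  obtain ⟨e, h1, h2⟩ := h
  refine ⟨?_, ?_, ?_⟩
  · intro X Y Z p q hl z z'
    have hb := hP.prod p q hl z z'
    have hb2 : Function.Bijective
        (fun a : P.Hom Z z z' =>
          ((e X (z ≫ p) (z' ≫ p) (P.map p rfl rfl a)),
            (e Y (z ≫ q) (z' ≫ q) (P.map q rfl rfl a)))) :=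
      ((Equiv.prodCongr (e X (z ≫ p) (z' ≫ p)) (e Y (z ≫ q) (z' ≫ q))).bijective).comp hb
    have hb3 := hb2.comp (e Z z z').symm.bijective
    convert hb3 using 1
    funext a
    simp only [Function.comp_apply]
    rw [h2, h2]
    simp
  · intro X hX x y
    obtain ⟨a⟩ := hP.conn X hX x y
    exact ⟨e X x y a⟩
  · intro X' X f hf he x' x y hx a
    obtain ⟨⟨y', b⟩, ⟨hy, hb⟩, hu⟩ := hP.lift f hf he x' x y hx ((e X x y).symm a)
    refine ⟨⟨y', e X' x' y' b⟩, ⟨hy, ?_⟩, ?_⟩
    · change Q.map f hx hy (e X' x' y' b) = a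
      rw [← h2, hb]
      simp
    · rintro ⟨y'', c⟩ ⟨hy'', hc⟩
      have := hu ⟨y'', (e X' x' y'').symm c⟩ ⟨hy'', by
        change P.map f hx hy'' ((e X' x' y'').symm c) = (e X x y).symm a
        apply (e X x y).injective
        rw [h2]
        simpa using hc⟩
      simp only [Sigma.mk.injEq] at this
      obtain ⟨h3, h4⟩ := this
      subst h3
      have h5 := eq_of_heq h4
      rw [← h5]
      simp

/-- Transport of structure along bijections of the sets of arrows. -/
noncomputable def GrpdFunctor.transport (π : GrpdFunctor K)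
    (H : (X : Var K) → Pt X → Pt X → Type)
    (ε : (X : Var K) → (x y : Pt X) → H X x y ≃ π.Hom X x y) : GrpdFunctor K where
  Hom := H
  one X x := (ε X x x).symm (π.one X x)
  comp {X x y z} a b := (ε X x z).symm (π.comp (ε X x y a) (ε X y z b))
  inv {X x y} a := (ε X y x).symm (π.inv (ε X x y a))
  map {X Y} f {x y x' y'} hx hy a := (ε Y x' y').symm (π.map f hx hy (ε X x y a))
  one_comp {X x y} a := by
    rw [Equiv.apply_symm_apply, π.one_comp, Equiv.symm_apply_apply]
  comp_one {X x y} a := by
    rw [Equiv.apply_symm_apply, π.comp_one, Equiv.symm_apply_apply]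
  assoc {X x y z w} a b c := by
    rw [Equiv.apply_symm_apply, Equiv.apply_symm_apply, π.assoc]
  inv_comp {X x y} a := by
    rw [Equiv.apply_symm_apply, π.inv_comp]
  comp_inv {X x y} a := by
    rw [Equiv.apply_symm_apply, π.comp_inv]
  map_one {X Y} f {x x'} hx := by
    rw [Equiv.apply_symm_apply, π.map_one]
  map_comp {X Y} f {x y z x' y' z'} hx hy hz a b := by
    rw [Equiv.apply_symm_apply, Equiv.apply_symm_apply, Equiv.apply_symm_apply,
      π.map_comp f hx hy hz]
  map_id {X x y} a := by
    rw [π.map_id, Equiv.symm_apply_apply]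
  map_map {X Y Z} f g {x y x' y' x'' y''} hx hy hx' hy' h h' a := by
    rw [Equiv.apply_symm_apply, π.map_map f g hx hy hx' hy']

theorem GrpdFunctor.transport_equivalent (π : GrpdFunctor K)
    (H : (X : Var K) → Pt X → Pt X → Type)
    (ε : (X : Var K) → (x y : Pt X) → H X x y ≃ π.Hom X x y) :
    Equivalent (π.transport H ε) π := by
  refine ⟨ε, fun X x y z a b => ?_, fun X Y f x y x' y' hx hy a => ?_⟩
  · exact Equiv.apply_symm_apply _ _
  · exact Equiv.apply_symm_apply _ _

/-- Equality of two restricted functors. -/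
theorem ResFunctor.ext_cast {φ : k →+* K} {A B : ResFunctor φ}
    (h : ∀ (V : Var k) (x y : Pt (bcVar φ V)), A.Hom V x y = B.Hom V x y)
    (h1 : ∀ (V : Var k) (x : Pt (bcVar φ V)), cast (h V x x) (A.one V x) = B.one V x)
    (h2 : ∀ (V : Var k) (x y z : Pt (bcVar φ V)) (a : A.Hom V x y) (b : A.Hom V y z),
      cast (h V x z) (A.comp a b) = B.comp (cast (h V x y) a) (cast (h V y z) b))
    (h3 : ∀ (V : Var k) (x y : Pt (bcVar φ V)) (a : A.Hom V x y),
      cast (h V y x) (A.inv a) = B.inv (cast (h V x y) a))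
    (h4 : ∀ (V W : Var k) (f : V.obj ⟶ W.obj) (x y : Pt (bcVar φ V)) (x' y' : Pt (bcVar φ W))
      (hx : x ≫ bcMap φ f = x') (hy : y ≫ bcMap φ f = y') (a : A.Hom V x y),
      cast (h W x' y') (A.map f hx hy a) = B.map f hx hy (cast (h V x y) a)) : A = B := by
  obtain ⟨HA, oA, cA, iA, mA⟩ := A
  obtain ⟨HB, oB, cB, iB, mB⟩ := B
  have hH : HA = HB := by
    funext V x y
    exact h V x y
  subst hH
  simp only [cast_eq] at h1 h2 h3 h4
  have e1 : oA = oB := by
    funext V x
    exact h1 V x
  have e2 : @cA = @cB := by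
    funext V x y z a b
    exact h2 V x y z a b
  have e3 : @iA = @iB := by
    funext V x y a
    exact h3 V x y a
  have e4 : @mA = @mB := by
    funext V W f x y x' y' hx hy a
    exact h4 V W f x y x' y' hx hy a
  subst e1 e2 e3 e4
  rfl

/-- If `π` agrees with `P` up to a natural bijection on all varieties satisfying `D`, then `π`
is equivalent to a functor `π'` which is equal to `P` on the varieties and morphisms
defined over `k`. -/
theorem strictify (D : Var K → Prop) (P π : GrpdFunctor K)
    (e : (X : Var K) → D X → (x y : Pt X) → P.Hom X x y ≃ π.Hom X x y)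
    (he_comp : ∀ (X : Var K) (hX : D X) (x y z : Pt X) (a : P.Hom X x y)
      (b : P.Hom X y z), e X hX x z (P.comp a b) = π.comp (e X hX x y a) (e X hX y z b))
    (he_map : ∀ (X Y : Var K) (hX : D X) (hY : D Y) (f : X.obj ⟶ Y.obj) (x y : Pt X)
      (x' y' : Pt Y) (hx : x ≫ f = x') (hy : y ≫ f = y') (a : P.Hom X x y),
      e Y hY x' y' (P.map f hx hy a) = π.map f hx hy (e X hX x y a))
    (φ : k →+* K) (hD : ∀ V : Var k, D (bcVar φ V)) :
    ∃ π' : GrpdFunctor K, Equivalent π' π ∧ π'.res φ = P.res φ := by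
  classical
  let H : (X : Var K) → Pt X → Pt X → Type :=
    fun X x y => if D X then P.Hom X x y else π.Hom X x y
  let ε : (X : Var K) → (x y : Pt X) → H X x y ≃ π.Hom X x y := fun X x y =>
    if h : D X then (Equiv.cast (if_pos h)).trans (e X h x y) else Equiv.cast (if_neg h)
  have hε : ∀ (X : Var K) (hX : D X) (x y : Pt X) (hc : H X x y = P.Hom X x y) (a : H X x y),
      ε X x y a = e X hX x y (cast hc a) := by
    intro X hX x y hc a
    simp only [ε, dif_pos hX, Equiv.trans_apply, Equiv.cast_apply]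
  have hone : ∀ (X : Var K) (hX : D X) (x : Pt X), e X hX x x (P.one X x) = π.one X x := by
    intro X hX x
    have h := he_comp X hX x x x (P.one X x) (P.one X x)
    rw [P.one_comp] at h
    have h' := congrArg (fun u => π.comp (π.inv (e X hX x x (P.one X x))) u) h
    rw [π.inv_comp, ← π.assoc, π.inv_comp, π.one_comp] at h'
    exact h'.symm
  have hinv : ∀ (X : Var K) (hX : D X) (x y : Pt X) (a : P.Hom X x y),
      e X hX y x (P.inv a) = π.inv (e X hX x y a) := by
    intro X hX x y a
    apply π.inv_eq_of_comp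
    rw [← he_comp, P.comp_inv, hone]
  have hsymm : ∀ (X : Var K) (hX : D X) (x y : Pt X) (hc : H X x y = P.Hom X x y)
      (b : π.Hom X x y) (a : P.Hom X x y), b = e X hX x y a →
      cast hc ((ε X x y).symm b) = a := by
    intro X hX x y hc b a hb
    apply (e X hX x y).injective
    rw [← hε X hX x y hc, Equiv.apply_symm_apply, hb]
  refine ⟨π.transport H ε, π.transport_equivalent H ε, ?_⟩
  have hH : ∀ (V : Var k) (x y : Pt (bcVar φ V)),
      H (bcVar φ V) x y = P.Hom (bcVar φ V) x y := fun V x y => if_pos (hD V)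
  apply ResFunctor.ext_cast (A := (π.transport H ε).res φ) (B := P.res φ) hH
  · intro V x
    exact hsymm _ (hD V) x x _ _ _ (hone _ _ _).symm
  · intro V x y z a b
    apply hsymm _ (hD V) x z _ _ _
    refine Eq.trans ?_ (he_comp _ (hD V) x y z (cast (hH V x y) a) (cast (hH V y z) b)).symm
    exact congrArg₂ (fun u v => π.comp u v) (hε _ (hD V) x y (hH V x y) a)
      (hε _ (hD V) y z (hH V y z) b)
  · intro V x y a
    apply hsymm _ (hD V) y x _ _ _
    refine Eq.trans ?_ (hinv _ (hD V) x y (cast (hH V x y) a)).symm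
    exact congrArg (fun u => π.inv u) (hε _ (hD V) x y (hH V x y) a)
  · intro V W f x y x' y' hx hy a
    apply hsymm _ (hD W) x' y' _ _ _
    refine Eq.trans ?_ (he_map _ _ (hD V) (hD W) _ x y x' y' hx hy
      (cast (hH V x y) a)).symm
    exact congrArg (fun u => π.map (bcMap φ f) hx hy u) (hε _ (hD V) x y (hH V x y) a)

end MP8178
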