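import Pool.Agent.Lib_MP_8178ab_ag.TwistLike
import Pool.Agent.Lib_MP_8178ab_ag.Strict
import Pool.Agent.Lib_MP_8178ab_ag.ConstGen
import Pool.Agent.Lib_MP_8178ab_ag.Kummer

open CategoryTheory Limits AlgebraicGeometry Polynomial

namespace MP8178

variable {K : Type} [Field K] {k : Type} [Field k]

/-- the class of test varieties: finite étale over a variety defined over `k` -/
def IsTest (φ : k →+* K) (W : Var K) : Prop :=
  ∃ (V : Var k) (ρ : W.obj ⟶ (bcVar φ V).obj), IsFinite ρ.left ∧ Etale ρ.left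

theorem IsTest.of_etale (φ : k →+* K) {W W' : Var K} (f : W'.obj ⟶ W.obj) (hf : IsFinite f.left)
    (he : Etale f.left) (h : IsTest φ W) : IsTest φ W' := by
  obtain ⟨V, ρ, h1, h2⟩ := h
  refine ⟨V, f ≫ ρ, ?_, ?_⟩
  · rw [Over.comp_left]; infer_instance
  · rw [Over.comp_left]; infer_instance

theorem IsTest.bcVar (φ : k →+* K) (V : Var k) : IsTest φ (bcVar φ V) := by
  refine ⟨V, 𝟙 _, ?_, ?_⟩
  · rw [Over.id_left]; infer_instance
  · rw [Over.id_left]; infer_instance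

/-- morphisms from test varieties to `T` are trivial on loops. -/
theorem push_test [IsAlgClosed K] [IsAlgClosed k] {P : GrpdFunctor K} (hP : IsPiOneLike P)
    (φ : k →+* K) (l : K)
    (hl : l ∉ Set.range φ) (W : Var K) (hW : IsTest φ W) (f : W.obj ⟶ (tVar K l).obj)
    (w : Pt W) (t : Pt (tVar K l)) (ht : w ≫ f = t) (g : P.Hom W w w) : P.push f ht g = 1 := by
  obtain ⟨V, ρ, hρ, hρ'⟩ := hW
  obtain ⟨W₀, j, hj1, hj2, hj3, hj4, hj5⟩ :=
    exists_component W (w.left (IsLocalRing.closedPoint K))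
  obtain ⟨w₀, hw₀⟩ := pt_lift_of_isOpenImmersion j hj1 w hj5
  obtain ⟨⟨y', b⟩, ⟨hy, hb⟩, -⟩ := hP.lift j hj2 hj3 w₀ w w hw₀ g
  have hyw : y' = w₀ := by
    apply Over.OverMorphism.ext
    have h1 := congrArg Over.Hom.left (hy.trans hw₀.symm)
    rw [Over.comp_left, Over.comp_left] at h1
    exact (cancel_mono j.left).mp h1
  subst hyw
  obtain ⟨t₀, ht₀⟩ := const_general hP φ l hl V W₀ hj4 (j ≫ ρ)
    (by rw [Over.comp_left]; infer_instance) (by rw [Over.comp_left]; infer_instance) (j ≫ f)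
  have h2 : g = P.push j hy b := hb.symm
  have h3 : y' ≫ j ≫ f = t := by rw [← Category.assoc, hy, ht]
  rw [h2, P.push_push j f hy ht h3]
  have h4 : ∀ (u : W₀.obj ⟶ (tVar K l).obj) (_ : u = constHom W₀ t₀) (hu : y' ≫ u = t),
      P.push u hu b = 1 := by
    intro u hu hu'
    subst hu
    exact hP.push_const hu' b
  exact h4 _ ht₀ h3

/-- A big space of linear functionals. -/
theorem not_injective_of_big {N B : Type} [AddCommGroup N] [Module ℚ N] (c : N) (hc : c ≠ 0)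
    (F : (N →ₗ[ℚ] (B → ℚ)) → B) (hF : Function.Injective F) : False := by
  obtain ⟨ℓ, hℓ⟩ : ∃ ℓ : Module.Dual ℚ N, ℓ c ≠ 0 := by
    by_contra h
    push Not at h
    exact hc ((Module.forall_dual_apply_eq_zero_iff ℚ c).mp h)
  classical
  let Φ : Set B → (N →ₗ[ℚ] (B → ℚ)) := fun S =>
    LinearMap.pi (fun b => if b ∈ S then ℓ else 0)
  have hΦ : Function.Injective Φ := by
    intro S S' hSS'
    ext b
    have h1 := congrFun (LinearMap.congr_fun hSS' c) b
    simp only [Φ, LinearMap.pi_apply] at h1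
    by_cases hb : b ∈ S <;> by_cases hb' : b ∈ S' <;> simp_all
  exact Function.cantor_injective (F ∘ Φ) (hF.comp hΦ)

/-- The point of the twisted conjugate. -/
theorem exists_pt_tVar [IsAlgClosed K] (l : K) : Nonempty (Pt (tVar K l)) := by
  have hinf : Infinite K := IsAlgClosed.instInfinite
  have h0 : (X * (X - 1) * (X - C l) : K[X]) ≠ 0 :=
    mul_ne_zero (mul_ne_zero X_ne_zero (X_sub_C_ne_zero (1 : K))) (X_sub_C_ne_zero l)
  obtain ⟨a, ha⟩ := Polynomial.exists_eval_ne_zero_of_natDegree_lt_card _ h0 (by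
    exact lt_of_lt_of_le Cardinal.natCast_lt_aleph0 (Cardinal.aleph0_le_mk K))
  exact ⟨uPt _ a ha⟩

theorem kummer_tVar [IsAlgClosed K] {P : GrpdFunctor K} (hP : IsPiOneLike P) (h2 : (2 : K) ≠ 0)
    (l : K) (t : Pt (tVar K l)) :
    ∃ χ : P.Hom (tVar K l) t t →* (ℕ → Kˣ), ∃ g : P.Hom (tVar K l) t t,
      ∀ m : ℕ, 0 < m → (χ g) ^ m ≠ 1 := by
  have h0 : (X * (X - 1) * (X - C l) : K[X]) ≠ 0 :=
    mul_ne_zero (mul_ne_zero X_ne_zero (X_sub_C_ne_zero (1 : K))) (X_sub_C_ne_zero l)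
  exact kummer hP h2 _ h0 (Dvd.dvd.mul_right (dvd_mul_right _ _) _) t

/-- `1 ⊗ x ≠ 0` in `ℚ ⊗ M` for `x` of infinite order. -/
theorem one_tmul_ne_zero {M : Type} [AddCommGroup M] (x : M) (hx : ∀ m : ℕ, 0 < m → m • x ≠ 0) :
    (1 : ℚ) ⊗ₜ[ℤ] x ≠ (0 : TensorProduct ℤ ℚ M) := by
  have hinj : Function.Injective (LinearMap.toSpanSingleton ℤ M x) := by
    rw [injective_iff_map_eq_zero]
    intro n hn
    rw [LinearMap.toSpanSingleton_apply] at hn
    by_contra hne
    have h1 : n.natAbs • x = 0 := by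
      rcases Int.natAbs_eq n with h | h
      · rw [← natCast_zsmul, ← h, hn]
      · rw [← natCast_zsmul]
        have : (n.natAbs : ℤ) = -n := by omega
        rw [this, neg_smul, hn, neg_zero]
    exact hx _ (Int.natAbs_pos.mpr hne) h1
  have h2 := Module.Flat.lTensor_preserves_injective_linearMap (M := ℚ)
    (LinearMap.toSpanSingleton ℤ M x) hinj
  intro h
  have h3 : LinearMap.lTensor ℚ (LinearMap.toSpanSingleton ℤ M x) ((1 : ℚ) ⊗ₜ[ℤ] (1 : ℤ)) = 0 := by
    rw [LinearMap.lTensor_tmul, LinearMap.toSpanSingleton_apply, one_smul, h]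
  have h4 : ((1 : ℚ) ⊗ₜ[ℤ] (1 : ℤ) : TensorProduct ℤ ℚ ℤ) = 0 := h2 (by rw [h3, map_zero])
  have h5 := congrArg (TensorProduct.rid ℤ ℚ) h4
  rw [TensorProduct.rid_tmul, map_zero, one_smul] at h5
  exact one_ne_zero h5

/-- There is a nonzero class on `T` killed by all test varieties. -/
theorem exists_class [IsAlgClosed K] [IsAlgClosed k] (φ : k →+* K) (l : K)
    (hl : l ∉ Set.range φ) (h2 : (2 : K) ≠ 0) {P : GrpdFunctor K} (hP : IsPiOneLike P)
    (t : Pt (tVar K l)) :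
    ∃ (V : Type) (_ : AddCommGroup V) (_ : Module ℚ V) (ψ : CC P (IsTest φ) V (tVar K l) t),
      ψ ≠ 0 := by
  obtain ⟨χ, g₀, hg₀⟩ := kummer_tVar hP h2 l t
  let V : Type := TensorProduct ℤ ℚ (Additive (ℕ → Kˣ))
  let χ' : P.Hom (tVar K l) t t →* Multiplicative V :=
    { toFun := fun g => Multiplicative.ofAdd ((1 : ℚ) ⊗ₜ[ℤ] Additive.ofMul (χ g))
      map_one' := by
        rw [map_one, ofMul_one, TensorProduct.tmul_zero, ofAdd_zero]
      map_mul' := fun a b => by
        rw [map_mul, ofMul_mul, TensorProduct.tmul_add, ofAdd_add] }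
  have hψ : (fun g => (χ' g).toAdd) ∈ CC P (IsTest φ) V (tVar K l) t := by
    refine ⟨HC.of_hom χ', fun W hW w y f hf a g => ?_⟩
    rw [push_test hP φ l hl W hW f w y hf g, map_one]
    change (χ' 1).toAdd = 0
    rw [map_one]
    rfl
  refine ⟨V, inferInstance, inferInstance, ⟨_, hψ⟩, fun h => ?_⟩
  have h1 : (χ' g₀).toAdd = 0 := congrFun (congrArg Subtype.val h) g₀
  refine one_tmul_ne_zero (Additive.ofMul (χ g₀)) (fun m hm h3 => ?_) h1
  apply hg₀ m hm
  exact Additive.ofMul.injective (by rw [ofMul_pow, h3]; rfl)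

/-- conjugating back and forth -/
theorem exists_conj_iso (T : Var K) (t : Pt T) (σ : K ≃+* K) :
    ∃ (h : (conjVar σ (conjVar σ.symm T)).obj ⟶ T.obj)
      (h' : T.obj ⟶ (conjVar σ (conjVar σ.symm T)).obj),
      h' ≫ h = 𝟙 _ ∧ conjPt σ (conjPt σ.symm t) ≫ h = t ∧
      t ≫ h' = conjPt σ (conjPt σ.symm t) := by
  have key : ∀ τ : K ≃+* K, Spec.map (CommRingCat.ofHom (τ : K →+* K)) ≫
      Spec.map (CommRingCat.ofHom (τ.symm : K →+* K)) = 𝟙 _ := by
    intro τ
    rw [← Spec.map_comp, ← Spec.map_id]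
    congr 1
    ext a
    simp
  have hw : (conjVar σ (conjVar σ.symm T)).obj.hom = T.obj.hom := by
    change (T.obj.hom ≫ Spec.map (CommRingCat.ofHom (σ.symm.symm : K →+* K))) ≫
      Spec.map (CommRingCat.ofHom (σ.symm : K →+* K)) = T.obj.hom
    rw [Category.assoc, RingEquiv.symm_symm, key σ, Category.comp_id]
  refine ⟨Over.homMk (𝟙 T.obj.left) ?_, Over.homMk (𝟙 T.obj.left) ?_, ?_, ?_, ?_⟩
  · change 𝟙 T.obj.left ≫ T.obj.hom = (conjVar σ (conjVar σ.symm T)).obj.hom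
    rw [hw, Category.id_comp]
  · change 𝟙 T.obj.left ≫ (conjVar σ (conjVar σ.symm T)).obj.hom = T.obj.hom
    rw [hw]
    exact Category.id_comp _
  · apply Over.OverMorphism.ext
    exact Category.comp_id _
  · apply Over.OverMorphism.ext
    change (Spec.map (CommRingCat.ofHom (σ : K →+* K)) ≫
      Spec.map (CommRingCat.ofHom (σ.symm : K →+* K)) ≫ t.left) ≫ 𝟙 _ = t.left
    rw [← Category.assoc (Spec.map _), key σ, Category.id_comp]
    exact Category.comp_id _
  · apply Over.OverMorphism.ext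
    change t.left ≫ 𝟙 _ = Spec.map (CommRingCat.ofHom (σ : K →+* K)) ≫
      Spec.map (CommRingCat.ofHom (σ.symm : K →+* K)) ≫ t.left
    rw [← Category.assoc (Spec.map _), key σ, Category.id_comp]
    exact Category.comp_id _

theorem main_theorem [IsAlgClosed K] [IsAlgClosed k] (φ : k →+* K) (l : K)
    (hl : l ∉ Set.range φ) (h2 : (2 : K) ≠ 0) (P : GrpdFunctor K) (hP : IsPiOneLike P) :
    ∃ π : GrpdFunctor K, IsPiOneLike π ∧ π.res φ = P.res φ ∧
      ∀ σ : K ≃+* K, ¬ Equivalent (π.conj σ) P := by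
  obtain ⟨t⟩ := exists_pt_tVar (K := K) l
  obtain ⟨V, _, _, ψ, hψ⟩ := exists_class φ l hl h2 hP t
  let B : Type := Σ σ : K ≃+* K, P.Hom (conjVar σ.symm (tVar K l)) (conjPt σ.symm t)
    (conjPt σ.symm t)
  let π₀ := twist P (IsTest φ) V (B → ℚ)
  have hπ₀ : IsPiOneLike π₀ :=
    twist_isPiOneLike hP (fun f hf he hW => IsTest.of_etale φ f hf he hW) _
  obtain ⟨π, hπ, hres⟩ := strictify (IsTest φ) P π₀
    (fun X hX x y =>
      { toFun := fun a => (a, 0)
        invFun := fun a => a.1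
        left_inv := fun a => rfl
        right_inv := fun a => Prod.ext rfl (LinearMap.ext fun c => by
          rw [CC.eq_zero X hX y c, map_zero, map_zero]) })
    (fun X hX x y z a b => Prod.ext rfl (LinearMap.ext fun c => by
      change (0 : B → ℚ) = 0 + 0
      rw [add_zero]))
    (fun X Y hX hY f x y x' y' hx hy a => Prod.ext rfl rfl)
    φ (IsTest.bcVar φ)
  refine ⟨π, hπ₀.of_equivalent hπ.symm, hres, fun σ hσ => ?_⟩
  have hσ' : Equivalent (π₀.conj σ) P := (hπ.symm.conj σ).trans hσ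
  obtain ⟨e, -, -⟩ := hσ'
  obtain ⟨h, h', hh, hx, hx'⟩ := exists_conj_iso (tVar K l) t σ
  let ψ' : CC P (IsTest φ) V (conjVar σ (conjVar σ.symm (tVar K l)))
    (conjPt σ (conjPt σ.symm t)) := CC.pull h hx ψ
  have hψ' : ψ' ≠ 0 := by
    intro h0
    apply hψ
    apply Subtype.ext
    funext g
    have h1 := congrFun (congrArg Subtype.val h0) (P.push h' hx' g)
    have h3 : ψ.1 (P.push h hx (P.push h' hx' g)) = 0 := h1
    have h4 : t ≫ h' ≫ h = t := by rw [hh, Category.comp_id]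
    rw [P.push_push h' h hx' hx h4] at h3
    have h5 : ∀ (u : (tVar K l).obj ⟶ (tVar K l).obj) (_ : u = 𝟙 _) (hu : t ≫ u = t),
        P.push u hu g = g := by
      intro u hu hu'
      subst hu
      exact P.map_id g
    rw [h5 _ hh h4] at h3
    exact h3
  refine not_injective_of_big (B := B) ψ' hψ'
    (fun θ => ⟨σ, e (conjVar σ.symm (tVar K l)) (conjPt σ.symm t) (conjPt σ.symm t)
      ((P.one _ _, θ) : P.Hom (conjVar σ (conjVar σ.symm (tVar K l))) _ _ × _)⟩) ?_
  intro θ θ' hθ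
  have h6 := eq_of_heq (Sigma.mk.inj hθ).2
  exact congrArg Prod.snd ((e _ _ _).injective h6)

end MP8178
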