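import Pool.Agent.Lib_MP_8178ab_ag.SpecVar
import Pool.Agent.Lib_MP_8178ab_ag.Api

/-!
# Base change of morphisms and of cartesian squares
-/

open CategoryTheory Limits AlgebraicGeometry TensorProduct

namespace MP8178

variable {K : Type} [Field K] {k : Type} [Field k]

/-- the projection `V_K → V` of schemes -/
noncomputable def bcProj (φ : k →+* K) (V : Var k) : (bcVar φ V).obj.left ⟶ V.obj.left :=
  pullback.fst V.obj.hom (Spec.map (CommRingCat.ofHom φ))

theorem bcMap_id (φ : k →+* K) (V : Var k) : bcMap φ (𝟙 V.obj) = 𝟙 _ :=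
  (Over.pullback (Spec.map (CommRingCat.ofHom φ))).map_id _

theorem bcMap_comp (φ : k →+* K) {V W U : Var k} (f : V.obj ⟶ W.obj) (g : W.obj ⟶ U.obj) :
    bcMap φ (f ≫ g) = bcMap φ f ≫ bcMap φ g :=
  (Over.pullback (Spec.map (CommRingCat.ofHom φ))).map_comp _ _

/-- the base change of a morphism is a base change. -/
theorem bcMap_isPullback (φ : k →+* K) {V W : Var k} (f : V.obj ⟶ W.obj) :
    IsPullback (bcProj φ V) (bcMap φ f).left f.left (bcProj φ W) := by
  have t : IsPullback (bcProj φ W) (pullback.snd W.obj.hom (Spec.map (CommRingCat.ofHom φ)))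
      W.obj.hom (Spec.map (CommRingCat.ofHom φ)) := IsPullback.of_hasPullback _ _
  have s : IsPullback (bcProj φ V) (pullback.snd V.obj.hom (Spec.map (CommRingCat.ofHom φ)))
      V.obj.hom (Spec.map (CommRingCat.ofHom φ)) := IsPullback.of_hasPullback _ _
  have h1 : (bcMap φ f).left ≫ pullback.snd W.obj.hom (Spec.map (CommRingCat.ofHom φ)) =
      pullback.snd V.obj.hom (Spec.map (CommRingCat.ofHom φ)) := by
    simp only [bcMap, Over.pullback_map_left]
    exact pullback.lift_snd _ _ _
  have h2 : bcProj φ V ≫ f.left = (bcMap φ f).left ≫ bcProj φ W := by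
    simp only [bcMap, bcProj, Over.pullback_map_left]
    exact (pullback.lift_fst _ _ _).symm
  refine IsPullback.of_bot ?_ h2 t
  rw [h1, Over.w f]
  exact s

theorem bcMap_finite (φ : k →+* K) {V W : Var k} (f : V.obj ⟶ W.obj) (h : IsFinite f.left) :
    IsFinite (bcMap φ f).left :=
  MorphismProperty.of_isPullback (P := @IsFinite) (bcMap_isPullback φ f) h

theorem bcMap_etale (φ : k →+* K) {V W : Var k} (f : V.obj ⟶ W.obj) (h : Etale f.left) :
    Etale (bcMap φ f).left :=
  MorphismProperty.of_isPullback (P := @Etale) (bcMap_isPullback φ f) h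

theorem bcMap_isOpenImmersion (φ : k →+* K) {V W : Var k} (f : V.obj ⟶ W.obj)
    (h : IsOpenImmersion f.left) : IsOpenImmersion (bcMap φ f).left :=
  MorphismProperty.of_isPullback (P := @IsOpenImmersion) (bcMap_isPullback φ f) h

/-- the range of the base change of an open immersion is the preimage of the range. -/
theorem range_bcMap (φ : k →+* K) {V W : Var k} (f : V.obj ⟶ W.obj)
    (h : IsOpenImmersion f.left) :
    Set.range (bcMap φ f).left = (bcProj φ W) ⁻¹' Set.range f.left := by
  have _ := h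
  have h1 := bcMap_isPullback φ f
  have h2 := h1.isoPullback_hom_snd
  rw [← Scheme.Pullback.range_snd, ← h2]
  ext x
  simp only [Set.mem_range]
  constructor
  · rintro ⟨y, rfl⟩
    exact ⟨h1.isoPullback.hom y, (Scheme.Hom.comp_apply _ _ _).symm⟩
  · rintro ⟨y, rfl⟩
    refine ⟨h1.isoPullback.inv y, ?_⟩
    rw [← Scheme.Hom.comp_apply, Iso.inv_hom_id_assoc]

/-- base change preserves cartesian squares -/
theorem bc_isPullback (φ : k →+* K) {F V X' X : Var k} {p : F.obj ⟶ V.obj} {q : F.obj ⟶ X'.obj}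
    {f : V.obj ⟶ X.obj} {g : X'.obj ⟶ X.obj} (h : IsPullback p q f g) :
    IsPullback (bcMap φ p) (bcMap φ q) (bcMap φ f) (bcMap φ g) := by
  have : PreservesLimitsOfSize.{0, 0} (Over.pullback (Spec.map (CommRingCat.ofHom φ))) :=
    (Over.mapPullbackAdj (Spec.map (CommRingCat.ofHom φ))).rightAdjoint_preservesLimits
  exact h.map (Over.pullback (Spec.map (CommRingCat.ofHom φ)))

/-- base change preserves products -/
theorem bc_isLimit (φ : k →+* K) {X Y Z : Var k} (p : Z.obj ⟶ X.obj) (q : Z.obj ⟶ Y.obj)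
    (h : Nonempty (IsLimit (BinaryFan.mk p q))) :
    Nonempty (IsLimit (BinaryFan.mk (bcMap φ p) (bcMap φ q))) := by
  have : PreservesLimitsOfSize.{0, 0} (Over.pullback (Spec.map (CommRingCat.ofHom φ))) :=
    (Over.mapPullbackAdj (Spec.map (CommRingCat.ofHom φ))).rightAdjoint_preservesLimits
  exact ⟨mapIsLimitOfPreservesOfIsLimit (Over.pullback (Spec.map (CommRingCat.ofHom φ))) p q
    h.some⟩

/-- `Spec (R ⊗ A)` is the product of `Spec R` and `Spec A`. -/
theorem spec_isLimit (R A : Type) [CommRing R] [CommRing A] [Algebra k R] [Algebra k A]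
    [Algebra.Smooth k R] [Algebra.Smooth k A] [Algebra.Smooth k (R ⊗[k] A)] :
    Nonempty (IsLimit (BinaryFan.mk
      (specHom (Algebra.TensorProduct.includeLeft : R →ₐ[k] R ⊗[k] A))
      (specHom (Algebra.TensorProduct.includeRight : A →ₐ[k] R ⊗[k] A)))) := by
  have hp : IsPullback
      (specHom (Algebra.TensorProduct.includeLeft : R →ₐ[k] R ⊗[k] A)).left
      (specHom (Algebra.TensorProduct.includeRight : A →ₐ[k] R ⊗[k] A)).left
      (specVar k R).obj.hom (specVar k A).obj.hom :=
    isPullback_SpecMap_of_isPushout _ _ _ _ (CommRingCat.isPushout_tensorProduct k R A)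
  refine ⟨BinaryFan.IsLimit.mk _ (fun {T} f g => Over.homMk
    (hp.lift f.left g.left ((Over.w f).trans (Over.w g).symm)) ?_) (fun {T} f g => ?_)
      (fun {T} f g => ?_) (fun {T} f g m h1 h2 => ?_)⟩
  · have h1 := Over.w (specHom (Algebra.TensorProduct.includeLeft : R →ₐ[k] R ⊗[k] A))
    change _ ≫ (specVar k (R ⊗[k] A)).obj.hom = T.hom
    rw [← h1, ← Category.assoc, hp.lift_fst]
    exact Over.w f
  · apply Over.OverMorphism.ext
    exact hp.lift_fst _ _ _
  · apply Over.OverMorphism.ext
    exact hp.lift_snd _ _ _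
  · apply Over.OverMorphism.ext
    apply hp.hom_ext
    · refine Eq.trans ?_ (hp.lift_fst _ _ _).symm
      exact congrArg CommaMorphism.left h1
    · refine Eq.trans ?_ (hp.lift_snd _ _ _).symm
      exact congrArg CommaMorphism.left h2

/-- `K`-points of `V_K` are `K`-points of `V` over `φ`. -/
theorem exists_bcPt (φ : k →+* K) (V : Var k)
    (x : Spec (CommRingCat.of K) ⟶ V.obj.left)
    (hx : x ≫ V.obj.hom = Spec.map (CommRingCat.ofHom φ)) :
    ∃ y : Pt (bcVar φ V), y.left ≫ bcProj φ V = x := by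
  refine ⟨Over.homMk (pullback.lift x (𝟙 _) (by rw [hx, Category.id_comp])) ?_, ?_⟩
  · exact pullback.lift_snd _ _ _
  · exact pullback.lift_fst _ _ _

end MP8178
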