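import Pool.Agent.Lib_MP_8178ab_ag.Defs

open CategoryTheory Limits AlgebraicGeometry

namespace MP8178

attribute [local instance] MvPolynomial.gradedAlgebra

/-- The ring `(ℤ[X₀,…,X_m]_{X₀})₀`. -/
abbrev QPA (m : ℕ) : Type :=
  HomogeneousLocalization.Away (MvPolynomial.homogeneousSubmodule (Fin (m + 1)) ℤ)
    (MvPolynomial.X (0 : Fin (m + 1)))

lemma QPA_X_mem (m : ℕ) (i : Fin (m + 1)) :
    (MvPolynomial.X i : MvPolynomial (Fin (m + 1)) ℤ) ∈
      MvPolynomial.homogeneousSubmodule (Fin (m + 1)) ℤ 1 :=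
  (MvPolynomial.mem_homogeneousSubmodule _ _).mpr (MvPolynomial.isHomogeneous_X _ _)

/-- There is a ring homomorphism `(ℤ[X₀,…,X_m]_{X₀})₀ → B` whose image contains given elements. -/
lemma exists_hom_QPA (m : ℕ) (B : Type) [CommRing B] (b : Fin m → B) :
    ∃ φ : QPA m →+* B, ∀ i, ∃ y, φ y = b i := by
  classical
  let ev : MvPolynomial (Fin (m + 1)) ℤ →+* B :=
    MvPolynomial.eval₂Hom (Int.castRingHom B) (Fin.cons 1 b)
  have h0 : ev (MvPolynomial.X (0 : Fin (m + 1))) = 1 := by simp [ev]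
  have hs : ∀ i : Fin m, ev (MvPolynomial.X i.succ) = b i := by intro i; simp [ev]
  have hu : IsUnit (ev (MvPolynomial.X (0 : Fin (m + 1)))) := by rw [h0]; exact isUnit_one
  let L : Localization.Away (MvPolynomial.X (0 : Fin (m + 1)) : MvPolynomial (Fin (m + 1)) ℤ) →+* B :=
    IsLocalization.Away.lift (MvPolynomial.X (0 : Fin (m + 1))) (g := ev) hu
  have hL : ∀ p, L (algebraMap _ _ p) = ev p := fun p => IsLocalization.Away.lift_eq _ hu p
  let V : QPA m →+* Localization.Away
      (MvPolynomial.X (0 : Fin (m + 1)) : MvPolynomial (Fin (m + 1)) ℤ) :=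
    algebraMap _ _
  refine ⟨L.comp V, fun i => ?_⟩
  have hm : (MvPolynomial.X i.succ : MvPolynomial (Fin (m + 1)) ℤ) ∈
      MvPolynomial.homogeneousSubmodule (Fin (m + 1)) ℤ (1 • 1) := by
    simpa using QPA_X_mem m i.succ
  refine ⟨HomogeneousLocalization.Away.mk _ (QPA_X_mem m 0) 1 (MvPolynomial.X i.succ) hm, ?_⟩
  have hV := HomogeneousLocalization.Away.val_mk
    (𝒜 := MvPolynomial.homogeneousSubmodule (Fin (m + 1)) ℤ) 1 (QPA_X_mem m 0) _ hm
  have hV2 : V (HomogeneousLocalization.Away.mk _ (QPA_X_mem m 0) 1 (MvPolynomial.X i.succ) hm) *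
      algebraMap (MvPolynomial (Fin (m + 1)) ℤ) _ (MvPolynomial.X (0 : Fin (m + 1)) ^ 1) =
      algebraMap (MvPolynomial (Fin (m + 1)) ℤ) _ (MvPolynomial.X i.succ) := by
    refine Eq.trans (congrArg (· * _) hV) ?_
    rw [Localization.mk_eq_mk']
    exact IsLocalization.mk'_spec (Localization.Away
      (MvPolynomial.X (0 : Fin (m + 1)) : MvPolynomial (Fin (m + 1)) ℤ))
      (MvPolynomial.X i.succ : MvPolynomial (Fin (m + 1)) ℤ)
      (⟨MvPolynomial.X (0 : Fin (m + 1)) ^ 1, ⟨1, rfl⟩⟩ : Submonoid.powers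
        (MvPolynomial.X (0 : Fin (m + 1)) : MvPolynomial (Fin (m + 1)) ℤ))
  have := congrArg L hV2
  rw [map_mul, hL, hL, hs, map_pow, h0, one_pow, mul_one] at this
  exact this

lemma QP_prod_affine (A R : Type) [CommRing A] [CommRing R] :
    IsAffine ((Spec (CommRingCat.of A) : Scheme.{0}) ⨯ Spec (CommRingCat.of R)) := by
  have h := IsLimit.conePointUniqueUpToIso (prodIsProd (Spec (CommRingCat.of A) : Scheme.{0})
    (Spec (CommRingCat.of R))) (isProductOfIsTerminalIsPullback (specZIsTerminal.from _)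
      (specZIsTerminal.from _) _ _ specZIsTerminal (pullbackIsPullback _ _))
  have h' : IsAffine (pullback (specZIsTerminal.from (Spec (CommRingCat.of A)))
      (specZIsTerminal.from (Spec (CommRingCat.of R)))) := inferInstance
  have e : ((Spec (CommRingCat.of A) : Scheme.{0}) ⨯ Spec (CommRingCat.of R)) ≅
      pullback (specZIsTerminal.from (Spec (CommRingCat.of A)))
      (specZIsTerminal.from (Spec (CommRingCat.of R))) := h
  exact .of_isIso e.hom

/-- Affine schemes of finite type over a ring are quasi-projective. -/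
theorem IsQuasiProj.of_affine (R B : Type) [CommRing R] [CommRing B] [Algebra R B]
    [Algebra.FiniteType R B] :
    IsQuasiProj (Spec.map (CommRingCat.ofHom (algebraMap R B))) := by
  obtain ⟨m, b, hb⟩ : ∃ (m : ℕ) (b : Fin m → B), Algebra.adjoin R (Set.range b) = ⊤ := by
    obtain ⟨s, hs⟩ := (inferInstance : Algebra.FiniteType R B).1
    refine ⟨s.card, fun i => (s.equivFin.symm i : B), ?_⟩
    rw [← hs]
    congr 1
    ext x
    constructor
    · rintro ⟨i, rfl⟩
      exact (s.equivFin.symm i).2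
    · intro hx
      exact ⟨s.equivFin ⟨x, hx⟩, by simp⟩
  obtain ⟨φ, hφ⟩ := exists_hom_QPA m B b
  let j : Spec (CommRingCat.of (QPA m)) ⟶ PZ m :=
    Proj.awayι (MvPolynomial.homogeneousSubmodule (Fin (m + 1)) ℤ) (MvPolynomial.X 0)
      (QPA_X_mem m 0) one_pos
  have hj : IsOpenImmersion j := AlgebraicGeometry.Proj.instIsOpenImmersionAwayι _ _ _ _
  let f := Spec.map (CommRingCat.ofHom (algebraMap R B))
  let g₀ : Spec (CommRingCat.of B) ⟶ Spec (CommRingCat.of (QPA m)) :=
    Spec.map (CommRingCat.ofHom φ)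
  refine ⟨m, g₀ ≫ j, ?_⟩
  have hfac : prod.lift (g₀ ≫ j) f = prod.lift g₀ f ≫ prod.map j (𝟙 _) := by
    ext1 <;> simp
  change IsImmersion (prod.lift (g₀ ≫ j) f)
  rw [hfac]
  have h1 : IsOpenImmersion (prod.map j (𝟙 (Spec (CommRingCat.of R)))) :=
    MorphismProperty.of_isPullback (P := @IsOpenImmersion)
      (IsPullback.of_prod_fst_with_id j (Spec (CommRingCat.of R))) hj
  have := QP_prod_affine (QPA m) R
  have h2 : IsClosedImmersion (prod.lift g₀ f) := by
    refine IsClosedImmersion.of_surjective_of_isAffine _ ?_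
    have hA : ∀ y : QPA m, ∃ z, (prod.lift g₀ f).appTop z =
        (Scheme.ΓSpecIso (CommRingCat.of B)).inv (φ y) := by
      intro y
      refine ⟨(prod.fst (X := Spec (CommRingCat.of (QPA m)))
        (Y := Spec (CommRingCat.of R))).appTop ((Scheme.ΓSpecIso _).inv y), ?_⟩
      have : (prod.lift g₀ f ≫ prod.fst).appTop ((Scheme.ΓSpecIso _).inv y) =
        (Scheme.ΓSpecIso (CommRingCat.of B)).inv (φ y) := by
        rw [prod.lift_fst]
        exact (congrArg (fun h => h.hom y)
          (Scheme.ΓSpecIso_inv_naturality (CommRingCat.ofHom φ))).symm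
      simpa using this
    have hR : ∀ r : R, ∃ z, (prod.lift g₀ f).appTop z =
        (Scheme.ΓSpecIso (CommRingCat.of B)).inv (algebraMap R B r) := by
      intro r
      refine ⟨(prod.snd (X := Spec (CommRingCat.of (QPA m)))
        (Y := Spec (CommRingCat.of R))).appTop ((Scheme.ΓSpecIso _).inv r), ?_⟩
      have : (prod.lift g₀ f ≫ prod.snd).appTop ((Scheme.ΓSpecIso _).inv r) =
        (Scheme.ΓSpecIso (CommRingCat.of B)).inv (algebraMap R B r) := by
        rw [prod.lift_snd]
        exact (congrArg (fun h => h.hom r)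
          (Scheme.ΓSpecIso_inv_naturality (CommRingCat.ofHom (algebraMap R B)))).symm
      simpa using this
    have hall : ∀ x : B, ∃ z, (prod.lift g₀ f).appTop z =
        (Scheme.ΓSpecIso (CommRingCat.of B)).inv x := by
      intro x
      have hx : x ∈ Algebra.adjoin R (Set.range b) := hb ▸ Algebra.mem_top
      induction hx using Algebra.adjoin_induction with
      | mem x hx =>
        obtain ⟨i, rfl⟩ := hx
        obtain ⟨y, hy⟩ := hφ i
        rw [← hy]
        exact hA y
      | algebraMap r => exact hR r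
      | add x y _ _ hx hy =>
        obtain ⟨u, hu⟩ := hx
        obtain ⟨v, hv⟩ := hy
        exact ⟨u + v, by rw [map_add, hu, hv, map_add]⟩
      | mul x y _ _ hx hy =>
        obtain ⟨u, hu⟩ := hx
        obtain ⟨v, hv⟩ := hy
        exact ⟨u * v, by rw [map_mul, hu, hv, map_mul]⟩
    intro x
    obtain ⟨z, hz⟩ := hall ((Scheme.ΓSpecIso (CommRingCat.of B)).hom x)
    refine ⟨z, ?_⟩
    rw [hz]
    exact congrArg (fun h => h.hom x) (Scheme.ΓSpecIso (CommRingCat.of B)).hom_inv_id
  infer_instance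

end MP8178
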