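import Pool.Agent.Lib_MP_8178ab_ag.QP
import Pool.Agent.Lib_MP_8178ab_ag.QPAffine

open CategoryTheory Limits AlgebraicGeometry

namespace MP8178

variable {K : Type} [Field K]

instance isIso_Spec_equiv (σ : K ≃+* K) :
    IsIso (Spec.map (CommRingCat.ofHom (σ : K →+* K))) := by
  have : IsIso (CommRingCat.ofHom (σ : K →+* K)) :=
    (RingEquiv.toCommRingCatIso (R := K) (S := K) σ).isIso_hom
  infer_instance

/-- The conjugate variety `X^σ`: the base change of `X` along `σ : K → K`; as a scheme it is `X`,
with structure morphism composed with `Spec(σ⁻¹)`. -/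
noncomputable def conjVar (σ : K ≃+* K) (X : Var K) : Var K where
  obj := Over.mk (X.obj.hom ≫ Spec.map (CommRingCat.ofHom (σ.symm : K →+* K)))
  smooth := by
    have := X.smooth
    exact smooth_comp _ _
  separated := by
    have := X.separated
    dsimp; infer_instance
  quasiCompact := by
    have := X.quasiCompact
    dsimp; infer_instance
  quasiProj := X.quasiProj.comp_iso _

/-- the point `x^σ` of `X^σ`. -/
noncomputable def conjPt (σ : K ≃+* K) {X : Var K} (x : Pt X) : Pt (conjVar σ X) :=
  Over.homMk (Spec.map (CommRingCat.ofHom (σ : K →+* K)) ≫ x.left) (by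
    have h : x.left ≫ X.obj.hom = 𝟙 _ := Over.w x
    change (Spec.map (CommRingCat.ofHom (σ : K →+* K)) ≫ x.left) ≫ X.obj.hom ≫
      Spec.map (CommRingCat.ofHom (σ.symm : K →+* K)) = 𝟙 _
    rw [Category.assoc, reassoc_of% h, ← Spec.map_comp, ← Spec.map_id]
    congr 1
    ext a
    simp)

/-- the morphism `f^σ`. -/
noncomputable def conjMap (σ : K ≃+* K) {X Y : Var K} (f : X.obj ⟶ Y.obj) :
    (conjVar σ X).obj ⟶ (conjVar σ Y).obj :=
  Over.homMk f.left (by
    change f.left ≫ Y.obj.hom ≫ _ = X.obj.hom ≫ _
    rw [← Category.assoc, Over.w f])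

theorem conjPt_comp (σ : K ≃+* K) {X Y : Var K} (f : X.obj ⟶ Y.obj) (x : Pt X) (y : Pt Y)
    (h : x ≫ f = y) : conjPt σ x ≫ conjMap σ f = conjPt σ y := by
  subst h
  apply Over.OverMorphism.ext
  change (Spec.map (CommRingCat.ofHom (σ : K →+* K)) ≫ x.left) ≫ f.left =
    Spec.map (CommRingCat.ofHom (σ : K →+* K)) ≫ x.left ≫ f.left
  rw [Category.assoc]

/-- The functor `π ∘ σ`. -/
noncomputable def GrpdFunctor.conj (P : GrpdFunctor K) (σ : K ≃+* K) : GrpdFunctor K where
  Hom X x y := P.Hom (conjVar σ X) (conjPt σ x) (conjPt σ y)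
  one X x := P.one _ _
  comp a b := P.comp a b
  inv a := P.inv a
  map {X Y} f {x y x' y'} hx hy a := P.map (conjMap σ f) (conjPt_comp σ f x x' hx)
    (conjPt_comp σ f y y' hy) a
  one_comp a := P.one_comp a
  comp_one a := P.comp_one a
  assoc a b c := P.assoc a b c
  inv_comp a := P.inv_comp a
  comp_inv a := P.comp_inv a
  map_one := by intros; apply P.map_one
  map_comp := by intros; apply P.map_comp
  map_id := by intro X x y a; exact P.map_id a
  map_map := by
    intro X Y Z f g x y x' y' x'' y'' hx hy hx' hy' h h' a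
    exact P.map_map (conjMap σ f) (conjMap σ g) _ _ _ _ _ _ a

variable {k : Type} [Field k]

/-- Base change `V ↦ V_K` of varieties along a homomorphism of fields `φ : k → K`. -/
noncomputable def bcVar (φ : k →+* K) (V : Var k) : Var K where
  obj := (Over.pullback (Spec.map (CommRingCat.ofHom φ))).obj V.obj
  smooth := by
    have := V.smooth
    change Smooth (pullback.snd V.obj.hom (Spec.map (CommRingCat.ofHom φ)))
    infer_instance
  separated := by
    have := V.separated
    change IsSeparated (pullback.snd V.obj.hom (Spec.map (CommRingCat.ofHom φ)))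
    infer_instance
  quasiCompact := by
    have := V.quasiCompact
    change QuasiCompact (pullback.snd V.obj.hom (Spec.map (CommRingCat.ofHom φ)))
    infer_instance
  quasiProj := IsQuasiProj.baseChange _ V.quasiProj

/-- Base change of morphisms. -/
noncomputable def bcMap (φ : k →+* K) {V W : Var k} (f : V.obj ⟶ W.obj) :
    (bcVar φ V).obj ⟶ (bcVar φ W).obj :=
  (Over.pullback (Spec.map (CommRingCat.ofHom φ))).map f

end MP8178
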