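import Pool.Agent.Lib_MP_8178ab_ag.TensorDomain

open TensorProduct

namespace MP8178

section Val

variable {k K B O : Type} [Field k] [Field K] [Algebra k K] [CommRing B]
  [Algebra k B] [CommRing O] [Algebra k O]

/-- base change of the first factor. -/
noncomputable def bmap (B : Type) [CommRing B] [Algebra k B] {O O' : Type} [CommRing O]
    [Algebra k O] [CommRing O'] [Algebra k O'] (f : O →ₐ[k] O') : O ⊗[k] B →ₐ[k] O' ⊗[k] B :=
  Algebra.TensorProduct.map f (AlgHom.id k B)

theorem bmap_tmul {O O' : Type} [CommRing O]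
    [Algebra k O] [CommRing O'] [Algebra k O'] (f : O →ₐ[k] O') (x : O) (b : B) :
    bmap B f (x ⊗ₜ[k] b) = f x ⊗ₜ[k] b := by
  simp [bmap]

theorem repr_bmap {J : Type} {O O' : Type} [CommRing O]
    [Algebra k O] [CommRing O'] [Algebra k O'] (f : O →ₐ[k] O') (β : Module.Basis J k B)
    (u : O ⊗[k] B) (j : J) :
    (Algebra.TensorProduct.basis O' β).repr (bmap B f u) j =
      f ((Algebra.TensorProduct.basis O β).repr u j) := by
  induction u using TensorProduct.induction_on with
  | zero => simp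
  | tmul x y =>
    rw [bmap_tmul, Algebra.TensorProduct.basis_repr_tmul, Algebra.TensorProduct.basis_repr_tmul]
    simp
  | add x y hx hy => simp only [map_add, Finsupp.add_apply, hx, hy]

theorem bmap_injective {O O' : Type} [CommRing O]
    [Algebra k O] [CommRing O'] [Algebra k O'] (f : O →ₐ[k] O') (hf : Function.Injective f) :
    Function.Injective (bmap B f) := by
  intro u v huv
  let β := Module.Free.chooseBasis k B
  apply (Algebra.TensorProduct.basis O β).repr.injective
  ext j
  apply hf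
  rw [← repr_bmap, ← repr_bmap, huv]

theorem evPt_bmap {O O' : Type} [CommRing O]
    [Algebra k O] [CommRing O'] [Algebra k O'] (f : O →ₐ[k] O') (ψ : B →ₐ[k] k) (u : O ⊗[k] B) :
    evPt ψ (bmap B f u) = f (evPt ψ u) := by
  induction u using TensorProduct.induction_on with
  | zero => simp
  | tmul x y => rw [bmap_tmul, evPt_tmul, evPt_tmul, map_mul, AlgHom.commutes]
  | add x y hx hy => simp only [map_add, hx, hy]

theorem exists_primitive (V : ValuationSubring K) [Algebra k V] (ι : V →ₐ[k] K)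
    (hι : ∀ x : V, ι x = x) (π : V →ₐ[k] IsLocalRing.ResidueField V) 
    (u : K ⊗[k] B) (hu : u ≠ 0) :
    ∃ a : K, a ≠ 0 ∧ ∃ u' : V ⊗[k] B, u = a • bmap B ι u' ∧ bmap B π u' ≠ 0 := by
  classical
  let β := Module.Free.chooseBasis k B
  let γ := Algebra.TensorProduct.basis K β
  have hr : γ.repr u ≠ 0 := by
    intro h
    exact hu (γ.repr.injective (by rw [h, map_zero]))
  have hs : (γ.repr u).support.Nonempty := Finsupp.support_nonempty_iff.2 hr
  obtain ⟨i, hi, hmax⟩ := Finset.exists_max_image (γ.repr u).support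
    (fun j => V.valuation (γ.repr u j)) hs
  set a := γ.repr u i with ha
  have ha0 : a ≠ 0 := Finsupp.mem_support_iff.1 hi
  have hval : ∀ j, a⁻¹ * γ.repr u j ∈ V := by
    intro j
    rw [← V.valuation_le_one_iff, map_mul, map_inv₀]
    by_cases hj : j ∈ (γ.repr u).support
    · have h1 := hmax j hj
      have h2 : V.valuation a ≠ 0 := by simpa using ha0
      calc (V.valuation a)⁻¹ * V.valuation (γ.repr u j) ≤ (V.valuation a)⁻¹ * V.valuation a := by
            gcongr
        _ = 1 := inv_mul_cancel₀ h2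
    · rw [Finsupp.notMem_support_iff.1 hj]
      simp
  let u' : V ⊗[k] B := ∑ j ∈ (γ.repr u).support, (⟨a⁻¹ * γ.repr u j, hval j⟩ : V) ⊗ₜ[k] β j
  have hu' : bmap B ι u' = a⁻¹ • u := by
    conv_rhs => rw [← γ.linearCombination_repr u, Finsupp.linearCombination_apply, Finsupp.sum]
    rw [Finset.smul_sum, map_sum]
    refine Finset.sum_congr rfl fun j _ => ?_
    rw [bmap_tmul, hι, Algebra.TensorProduct.basis_repr_symm_apply', smul_tmul']
    rfl
  refine ⟨a, ha0, u', ?_, fun h0 => ?_⟩
  · rw [hu', smul_smul, mul_inv_cancel₀ ha0, one_smul]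
  · have h1 : (Algebra.TensorProduct.basis V β).repr u' i = 1 := by
      apply Subtype.ext
      rw [← hι, ← repr_bmap, hu', map_smul, Finsupp.smul_apply, smul_eq_mul, ← ha,
        inv_mul_cancel₀ ha0]
      rfl
    have h2 := repr_bmap π β u' i
    rw [h0, h1, map_one] at h2
    simp at h2

/-- A unit of `K ⊗ B` which is `1` at a point has coefficients in every valuation ring. -/
theorem repr_mem_of_unit [IsAlgClosed k] [IsDomain B] [Algebra.FiniteType k B]
    (V : ValuationSubring K) (hV : ∀ x : k, algebraMap k K x ∈ V) {J : Type}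
    (β : Module.Basis J k B) (ψ : B →ₐ[k] k) (u v : K ⊗[k] B) (huv : u * v = 1)
    (hu : evPt ψ u = 1) (j : J) : (Algebra.TensorProduct.basis K β).repr u j ∈ V := by
  letI algV : Algebra k V := ((algebraMap k K).codRestrict V.toSubring hV).toAlgebra
  let ι : V →ₐ[k] K := { V.toSubring.subtype with commutes' := fun x => rfl }
  have hι : ∀ x : V, ι x = x := fun x => rfl
  have hιi : Function.Injective ι := fun x y h => Subtype.ext h
  let π : V →ₐ[k] IsLocalRing.ResidueField V :=
    { IsLocalRing.residue V with commutes' := fun x => rfl }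
  have hπ : ∀ x : V, π x = IsLocalRing.residue V x := fun x => rfl
  haveI : Nontrivial (K ⊗[k] B) := (isDomain_tensor (k := k)).toNontrivial
  have hu0 : u ≠ 0 := left_ne_zero_of_mul (huv.trans_ne one_ne_zero)
  have hv0 : v ≠ 0 := right_ne_zero_of_mul (huv.trans_ne one_ne_zero)
  obtain ⟨a, ha, u', hua, hu'⟩ := exists_primitive V ι hι π u hu0
  obtain ⟨b, hb, v', hvb, hv'⟩ := exists_primitive V ι hι π v hv0
  haveI : IsDomain (IsLocalRing.ResidueField V ⊗[k] B) := isDomain_tensor (k := k)
  have hw : bmap B π (u' * v') ≠ 0 := by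
    rw [map_mul]
    exact mul_ne_zero hu' hv'
  have h1 : (a * b) • bmap B ι (u' * v') = 1 := by
    rw [map_mul, ← huv, hua, hvb, smul_mul_smul_comm]
  have h2 : bmap B ι (u' * v') = (a * b)⁻¹ • 1 := by
    rw [← h1, smul_smul, inv_mul_cancel₀ (mul_ne_zero ha hb), one_smul]
  have h3 : (a * b)⁻¹ = ι (evPt ψ (u' * v')) := by
    rw [← evPt_bmap, h2, map_smul, map_one, smul_eq_mul, mul_one]
  set c' : V := evPt ψ (u' * v') with hc'
  have h4 : u' * v' = c' ⊗ₜ[k] (1 : B) := by
    apply bmap_injective ι hιi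
    rw [h2, bmap_tmul, ← h3, Algebra.TensorProduct.one_def, smul_tmul', smul_eq_mul, mul_one]
  have h5 : IsUnit c' := by
    by_contra hcu
    apply hw
    rw [h4, bmap_tmul, hπ]
    have : IsLocalRing.residue V c' = 0 := by
      rw [IsLocalRing.residue_eq_zero_iff]
      exact hcu
    rw [this, zero_tmul]
  have h6 : IsUnit (evPt ψ u' : V) := by
    rw [hc', map_mul] at h5
    exact isUnit_of_mul_isUnit_left h5
  obtain ⟨d, hd⟩ := h6.exists_left_inv
  have h7 : a * ι (evPt ψ u') = 1 := by
    rw [← evPt_bmap, ← smul_eq_mul, ← map_smul, ← hua, hu]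
  have h8 : a = ι d := by
    have h9 : ι d * ι (evPt ψ u') = 1 := by rw [← map_mul, hd, map_one]
    exact mul_right_cancel₀ (right_ne_zero_of_mul (h7.trans_ne one_ne_zero)) (h7.trans h9.symm)
  rw [hua, map_smul, Finsupp.smul_apply, smul_eq_mul, repr_bmap, h8, hι, hι]
  exact V.mul_mem _ _ (Subtype.mem _) (Subtype.mem _)

end Val

/-- Units of `K ⊗ B` for a domain `B` of finite type over an algebraically closed field `k` are
of the form `c ⊗ b` (Rosenlicht). -/
theorem unit_tensor {k K B : Type} [Field k] [IsAlgClosed k] [Field K] [Algebra k K]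
    [CommRing B] [Algebra k B] [IsDomain B] [Algebra.FiniteType k B] (u : K ⊗[k] B)
    (hu : IsUnit u) : ∃ (c : K) (b : B), u = c ⊗ₜ[k] b := by
  classical
  obtain ⟨ψ, hψ⟩ := exists_point_ne_zero (k := k) (1 : B) one_ne_zero
  let β := Module.Free.chooseBasis k B
  let γ := Algebra.TensorProduct.basis K β
  obtain ⟨v, huv⟩ := hu.exists_right_inv
  have h0 : evPt ψ u * evPt ψ v = 1 := by rw [← map_mul, huv, map_one]
  set c := evPt ψ u with hc
  have hc0 : c ≠ 0 := left_ne_zero_of_mul (h0.trans_ne one_ne_zero)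
  have h1 : (c⁻¹ • u) * (c • v) = 1 := by
    rw [smul_mul_smul_comm, inv_mul_cancel₀ hc0, one_smul, huv]
  have h2 : evPt ψ (c⁻¹ • u) = 1 := by
    rw [map_smul, ← hc, smul_eq_mul, inv_mul_cancel₀ hc0]
  haveI : IsIntegrallyClosedIn (algebraMap k K).range K := by
    rw [Subring.isIntegrallyClosedIn_iff]
    intro x hx
    have hx' : IsIntegral k x := by
      obtain ⟨p, hp, hpx⟩ := hx
      have hl : p ∈ Polynomial.lifts (algebraMap k K).rangeRestrict := by
        rw [Polynomial.mem_lifts]
        exact Polynomial.map_surjective _ (algebraMap k K).rangeRestrict_surjective p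
      obtain ⟨q, hq, -, hqm⟩ := Polynomial.lifts_and_natDegree_eq_and_monic hl hp
      refine ⟨q, hqm, ?_⟩
      rw [← hq, Polynomial.eval₂_map] at hpx
      exact hpx
    exact minpoly.mem_range_of_degree_eq_one k x
      (IsAlgClosed.degree_eq_one_of_irreducible k (minpoly.irreducible hx'))
  have h3 : ∀ j, ∃ x : k, algebraMap k K x = γ.repr (c⁻¹ • u) j := by
    intro j
    by_contra hcon
    have h4 : γ.repr (c⁻¹ • u) j ∉ (algebraMap k K).range := hcon
    obtain ⟨V, hV, hV'⟩ := Subring.exists_le_valuationSubring_of_isIntegrallyClosedIn h4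
    exact hV' (repr_mem_of_unit V (fun x => hV ⟨x, rfl⟩) β ψ _ _ h1 h2 j)
  choose x hx using h3
  refine ⟨c, ∑ j ∈ (γ.repr (c⁻¹ • u)).support, x j • β j, ?_⟩
  have h5 : c⁻¹ • u = (1 : K) ⊗ₜ[k] (∑ j ∈ (γ.repr (c⁻¹ • u)).support, x j • β j) := by
    conv_lhs => rw [← γ.linearCombination_repr (c⁻¹ • u), Finsupp.linearCombination_apply,
      Finsupp.sum]
    rw [tmul_sum]
    refine Finset.sum_congr rfl fun j _ => ?_
    rw [← hx, Algebra.TensorProduct.basis_repr_symm_apply', tmul_smul, smul_tmul',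
      Algebra.smul_def, mul_one]
  calc u = c • (c⁻¹ • u) := by rw [smul_smul, mul_inv_cancel₀ hc0, one_smul]
    _ = c • ((1 : K) ⊗ₜ[k] (∑ j ∈ (γ.repr (c⁻¹ • u)).support, x j • β j)) :=
      congrArg (c • ·) h5
    _ = _ := by rw [smul_tmul', smul_eq_mul, mul_one]

/-- a functional on the second factor. -/
noncomputable def fmap (K : Type) {k B : Type} [Field k] [Field K] [Algebra k K]
    [CommRing B] [Algebra k B] (f : B →ₗ[k] k) : K ⊗[k] B →ₗ[k] K :=
  (TensorProduct.rid k K).toLinearMap ∘ₗ (f.lTensor K)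

theorem fmap_tmul {K k B : Type} [Field k] [Field K] [Algebra k K]
    [CommRing B] [Algebra k B] (f : B →ₗ[k] k) (c : K) (b : B) :
    fmap K f (c ⊗ₜ[k] b) = c * algebraMap k K (f b) := by
  simp [fmap, Algebra.smul_def, mul_comm]

/-- A unit `u` of `K ⊗ B` such that `u - 1` and `u - l` are units is constant. -/
theorem unit_equation {k K B : Type} [Field k] [IsAlgClosed k] [Field K] [Algebra k K]
    [CommRing B] [Algebra k B] [IsDomain B] [Algebra.FiniteType k B] (l : K)
    (hl : l ∉ Set.range (algebraMap k K)) (u : K ⊗[k] B)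
    (h0 : IsUnit u) (h1 : IsUnit (u - 1)) (h2 : IsUnit (u - l ⊗ₜ[k] 1)) :
    ∃ c : K, u = c ⊗ₜ[k] 1 := by
  haveI : Nontrivial (K ⊗[k] B) := (isDomain_tensor (k := k)).toNontrivial
  obtain ⟨c, b, hcb⟩ := unit_tensor u h0
  by_cases hb : b ∈ Submodule.span k {(1 : B)}
  · obtain ⟨x, rfl⟩ := Submodule.mem_span_singleton.1 hb
    exact ⟨x • c, by rw [hcb, tmul_smul, smul_tmul']⟩
  obtain ⟨c1, b1, hcb1⟩ := unit_tensor _ h1
  obtain ⟨c2, b2, hcb2⟩ := unit_tensor _ h2
  have hb' : (1 : B) ∉ Submodule.span k {b} := by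
    intro h
    obtain ⟨x, hx⟩ := Submodule.mem_span_singleton.1 h
    have hx0 : x ≠ 0 := by
      rintro rfl
      rw [zero_smul] at hx
      exact zero_ne_one hx
    apply hb
    rw [← hx, Submodule.mem_span_singleton]
    exact ⟨x⁻¹, by rw [smul_smul, inv_mul_cancel₀ hx0, one_smul]⟩
  obtain ⟨f, hf1, hf2⟩ := Submodule.exists_dual_map_eq_bot_of_notMem hb inferInstance
  obtain ⟨g, hg1, hg2⟩ := Submodule.exists_dual_map_eq_bot_of_notMem hb' inferInstance
  have hf0 : f 1 = 0 := by
    have : f 1 ∈ (Submodule.span k {(1 : B)}).map f :=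
      Submodule.mem_map_of_mem (Submodule.mem_span_singleton_self _)
    rw [hf2] at this
    exact (Submodule.mem_bot k).1 this
  have hg0 : g b = 0 := by
    have : g b ∈ (Submodule.span k {b}).map g :=
      Submodule.mem_map_of_mem (Submodule.mem_span_singleton_self _)
    rw [hg2] at this
    exact (Submodule.mem_bot k).1 this
  have hc0 : c ≠ 0 := by
    rintro rfl
    rw [zero_tmul] at hcb
    exact h0.ne_zero hcb
  have inj := (algebraMap k K).injective
  -- first equation
  have e1 := congrArg (fmap K f) hcb1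
  have e2 := congrArg (fmap K g) hcb1
  rw [hcb, Algebra.TensorProduct.one_def, map_sub, fmap_tmul, fmap_tmul, fmap_tmul, hf0, map_zero,
    mul_zero, sub_zero] at e1
  rw [hcb, Algebra.TensorProduct.one_def, map_sub, fmap_tmul, fmap_tmul, fmap_tmul, hg0, map_zero,
    mul_zero, zero_sub, one_mul] at e2
  have hgb1 : g b1 ≠ 0 := by
    intro h
    rw [h, map_zero, mul_zero, neg_eq_zero] at e2
    exact hg1 (inj (by rw [e2, map_zero]))
  have hc1 : c1 = algebraMap k K (-(g 1) / g b1) := by
    rw [map_div₀, map_neg, e2, mul_div_assoc, div_self, mul_one]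
    rwa [Ne, map_eq_zero]
  have hc : c = algebraMap k K (-(g 1) / g b1 * f b1 / f b) := by
    rw [map_div₀, map_mul, ← hc1, ← e1, mul_div_assoc, div_self, mul_one]
    rwa [Ne, map_eq_zero]
  -- second equation
  have e3 := congrArg (fmap K f) hcb2
  have e4 := congrArg (fmap K g) hcb2
  rw [hcb, map_sub, fmap_tmul, fmap_tmul, fmap_tmul, hf0, map_zero,
    mul_zero, sub_zero] at e3
  rw [hcb, map_sub, fmap_tmul, fmap_tmul, fmap_tmul, hg0, map_zero,
    mul_zero, zero_sub] at e4
  have hfb2 : f b2 ≠ 0 := by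
    intro h
    rw [h, map_zero, mul_zero] at e3
    rcases mul_eq_zero.1 e3 with h | h
    · exact hc0 h
    · exact hf1 (inj (by rw [h, map_zero]))
  have hfb2' : algebraMap k K (f b2) ≠ 0 := by rwa [Ne, map_eq_zero]
  have hg1' : algebraMap k K (g 1) ≠ 0 := by rwa [Ne, map_eq_zero]
  exfalso
  apply hl
  refine ⟨-((-(g 1) / g b1 * f b1 / f b) * f b / f b2 * g b2) / g 1, ?_⟩
  rw [map_div₀, map_neg, map_mul, map_div₀, map_mul, ← hc, e3, mul_div_assoc, div_self hfb2',
    mul_one, ← e4, neg_neg, mul_div_assoc, div_self hg1', mul_one]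

end MP8178
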