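import Pool.Agent.Lib_MP_8178ab_ag.SpecVar
import Pool.Agent.Lib_MP_8178ab_ag.Units
import Pool.Agent.Lib_MP_8178ab_ag.BC

open CategoryTheory Limits AlgebraicGeometry Polynomial TensorProduct

namespace MP8178

variable {K : Type} [Field K] [IsAlgClosed K] {k : Type} [Field k] [IsAlgClosed k]

omit [IsAlgClosed K] [IsAlgClosed k] in
/-- `(X₀)_K = Spec (K ⊗ B)` for an integral affine variety `X₀ = Spec B` over `k`. -/
theorem exists_tensor_model (φ : k →+* K) (X₀ : Var k) (ha : IsAffine X₀.obj.left)
    (hi : IsIntegral X₀.obj.left) :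
    letI := φ.toAlgebra
    ∃ (B : Type) (_ : CommRing B) (_ : Algebra k B) (_ : IsDomain B) (_ : Algebra.FiniteType k B)
      (e : (bcVar φ X₀).obj.left ≅ Spec (CommRingCat.of (K ⊗[k] B))),
      e.inv ≫ (bcVar φ X₀).obj.hom =
        Spec.map (CommRingCat.ofHom (algebraMap K (K ⊗[k] B))) := by
  let _ := φ.toAlgebra
  let f : Spec Γ(X₀.obj.left, ⊤) ⟶ Spec (CommRingCat.of k) := X₀.obj.left.isoSpec.inv ≫ X₀.obj.hom
  let h := Spec.preimage f
  have hf : Spec.map h = f := Spec.map_preimage f
  let B : Type := Γ(X₀.obj.left, ⊤)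
  let _ : Algebra k B := h.hom.toAlgebra
  have hft : Algebra.FiniteType k B := by
    have h1 := X₀.smooth
    have h2 : LocallyOfFiniteType (Spec.map h) := by
      rw [hf]; infer_instance
    rw [HasRingHomProperty.Spec_iff (P := @LocallyOfFiniteType)] at h2
    exact h2
  have hpb : IsPullback (Spec.map (CommRingCat.ofHom (Algebra.TensorProduct.includeRight.toRingHom : B →+* K ⊗[k] B)))
      (Spec.map (CommRingCat.ofHom (algebraMap K (K ⊗[k] B))))
      (Spec.map h) (Spec.map (CommRingCat.ofHom φ)) := by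
    have := CommRingCat.isPushout_tensorProduct k K B
    exact (this.op.map Scheme.Spec)
  have hpb2 : IsPullback (Spec.map (CommRingCat.ofHom (Algebra.TensorProduct.includeRight.toRingHom : B →+* K ⊗[k] B)) ≫ X₀.obj.left.isoSpec.inv)
      (Spec.map (CommRingCat.ofHom (algebraMap K (K ⊗[k] B))))
      X₀.obj.hom (Spec.map (CommRingCat.ofHom φ)) := by
    refine hpb.of_iso (Iso.refl _) X₀.obj.left.isoSpec.symm (Iso.refl _) (Iso.refl _) ?_ ?_ ?_ ?_
    · simp
    · simp
    · rw [hf]; simp [f]
    · simp
  have hpb3 : IsPullback (pullback.fst X₀.obj.hom (Spec.map (CommRingCat.ofHom φ)))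
      (pullback.snd X₀.obj.hom (Spec.map (CommRingCat.ofHom φ))) X₀.obj.hom (Spec.map (CommRingCat.ofHom φ)) :=
    IsPullback.of_hasPullback _ _
  let e := hpb3.isoIsPullback _ _ hpb2
  refine ⟨B, inferInstance, inferInstance, inferInstance, hft, e, ?_⟩
  exact hpb3.isoIsPullback_inv_snd _ _ hpb2

/-- The base change to `K` of an integral variety over `k` is connected. -/
theorem connected_bc (φ : k →+* K) (X₀ : Var k) (ha : IsAffine X₀.obj.left)
    (hi : IsIntegral X₀.obj.left) : ConnectedSpace (bcVar φ X₀).obj.left := by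
  let _ := φ.toAlgebra
  obtain ⟨B, _, _, _, _, e, he⟩ := exists_tensor_model φ X₀ ha hi
  have hd : IsDomain (K ⊗[k] B) := isDomain_tensor
  have : ConnectedSpace (Spec (CommRingCat.of (K ⊗[k] B))) := by
    change ConnectedSpace (PrimeSpectrum (K ⊗[k] B))
    infer_instance
  exact (Scheme.homeoOfIso e).symm.surjective.connectedSpace (Scheme.homeoOfIso e).symm.continuous

/-- Morphisms from the base change of an integral affine variety over `k` to the affine line
without `0`, `1` and `l` are constant. -/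
theorem const_of_integral (φ : k →+* K) (l : K) (hl : l ∉ Set.range φ) (X₀ : Var k)
    (ha : IsAffine X₀.obj.left) (hi : IsIntegral X₀.obj.left)
    (f : (bcVar φ X₀).obj ⟶ (tVar K l).obj) :
    ∃ t : Pt (tVar K l), f = constHom (bcVar φ X₀) t := by
  let _ := φ.toAlgebra
  obtain ⟨B, _, _, _, _, e, he⟩ := exists_tensor_model φ X₀ ha hi
  have hd : IsDomain (K ⊗[k] B) := isDomain_tensor
  let h : K[X] := X * (X - 1) * (X - C l)
  let g : Spec (CommRingCat.of (K ⊗[k] B)) ⟶ Spec (CommRingCat.of (Localization.Away h)) :=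
    e.inv ≫ f.left
  let ψ : Localization.Away h →+* K ⊗[k] B := (Spec.preimage g).hom
  have hψ : Spec.map (CommRingCat.ofHom ψ) = g := Spec.map_preimage g
  have hψa : ∀ c : K, ψ (algebraMap K (Localization.Away h) c) = c ⊗ₜ[k] 1 := by
    have h1 : g ≫ Spec.map (CommRingCat.ofHom (algebraMap K (Localization.Away h))) =
        Spec.map (CommRingCat.ofHom (algebraMap K (K ⊗[k] B))) := by
      rw [← he]
      have := Over.w f
      change (e.inv ≫ f.left) ≫ _ = _
      rw [Category.assoc]
      congr 1
    rw [← hψ, ← Spec.map_comp] at h1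
    have h2 := Spec.map_injective h1
    intro c
    have h3 := congrArg (fun F => F.hom c) h2
    simpa using h3
  have hX : IsUnit (algebraMap K[X] (Localization.Away h) h) :=
    IsLocalization.Away.algebraMap_isUnit h
  let u := ψ (algebraMap K[X] (Localization.Away h) X)
  have hh : IsUnit (ψ (algebraMap K[X] (Localization.Away h) h)) := hX.map ψ
  have hC : ∀ c : K, algebraMap K[X] (Localization.Away h) (C c) =
      algebraMap K (Localization.Away h) c := fun c =>
    (IsScalarTower.algebraMap_apply K K[X] (Localization.Away h) c).symm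
  have hh2 : ψ (algebraMap K[X] (Localization.Away h) h) = u * (u - 1) * (u - l ⊗ₜ[k] 1) := by
    simp only [h, map_mul, map_sub, _root_.map_one, hC, hψa, u]
  rw [hh2] at hh
  have hu0 : IsUnit u := isUnit_of_mul_isUnit_left (isUnit_of_mul_isUnit_left hh)
  have hu1 : IsUnit (u - 1) := isUnit_of_mul_isUnit_right (isUnit_of_mul_isUnit_left hh)
  have hu2 : IsUnit (u - l ⊗ₜ[k] 1) := isUnit_of_mul_isUnit_right hh
  obtain ⟨c, hc⟩ := unit_equation l hl u hu0 hu1 hu2
  have hcne : ∀ a : K, IsUnit ((c - a) ⊗ₜ[k] (1 : B)) → c - a ≠ 0 := by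
    intro a ha h0
    rw [h0, zero_tmul] at ha
    exact not_isUnit_zero ha
  have hev : IsUnit (aeval c h) := by
    have e1 : aeval c h = c * (c - 1) * (c - l) := by simp [h]
    rw [e1, isUnit_iff_ne_zero]
    have a0 := hcne 0 (by rw [sub_zero, ← hc]; exact hu0)
    have a1 := hcne 1 (by rw [sub_tmul, ← hc]; exact hu1)
    have a2 := hcne l (by rw [sub_tmul, ← hc]; exact hu2)
    rw [sub_zero] at a0
    exact mul_ne_zero (mul_ne_zero a0 a1) a2
  let τ : Localization.Away h →ₐ[K] K :=
    IsLocalization.Away.liftAlgHom (S := Localization.Away h) (f := aeval c) (x := h) (by simpa using hev)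
  have hτ : ∀ p : K[X], τ (algebraMap K[X] (Localization.Away h) p) = aeval c p := by
    intro p
    exact IsLocalization.Away.lift_eq h (g := ((aeval c : K[X] →ₐ[K] K) : K[X] →+* K))
      (by simpa using hev) p
  have hψτ : ψ = (algebraMap K (K ⊗[k] B)).comp (τ : Localization.Away h →+* K) := by
    apply IsLocalization.ringHom_ext (Submonoid.powers h)
    apply Polynomial.ringHom_ext
    · intro a
      simp only [RingHom.comp_apply, RingHom.coe_coe]
      rw [hτ, hC, hψa]
      simp
    · simp only [RingHom.comp_apply, RingHom.coe_coe]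
      rw [hτ]
      change u = _
      rw [hc, aeval_X]
      simp
  have key : g = e.inv ≫ ((bcVar φ X₀).obj.hom ≫
      Spec.map (CommRingCat.ofHom (τ : Localization.Away h →+* K))) := by
    rw [← Category.assoc]
    erw [he]
    rw [← Spec.map_comp, ← CommRingCat.ofHom_comp, ← hψτ, hψ]
  refine ⟨specPt τ, ?_⟩
  apply Over.OverMorphism.ext
  change f.left = (bcVar φ X₀).obj.hom ≫ Spec.map (CommRingCat.ofHom (τ : Localization.Away h →+* K))
  exact (cancel_epi e.inv).1 key

end MP8178
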