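import Pool.Agent.Lib_MP_8178ab_ag.Basic

open CategoryTheory Limits AlgebraicGeometry

namespace MP8178

variable {K : Type} [Field K]

/-- A finite étale morphism with nonempty source and connected target is surjective. -/
theorem surjective_of_finite_etale {X W : Scheme.{0}} (h : X ⟶ W) [IsFinite h] [Etale h]
    [ConnectedSpace W] [Nonempty X] : Surjective h := by
  have ho : IsOpenMap h := h.isOpenMap
  have hc : IsClosedMap h := h.isClosedMap
  have hcl : IsClopen (Set.range h) := ⟨hc.isClosed_range, ho.isOpen_range⟩
  constructor
  rw [← Set.range_eq_univ]
  exact hcl.eq_univ (Set.range_nonempty h)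

/-- A morphism between finite étale coverings with connected target and nonempty source is an
epimorphism. -/
theorem epi_of_finite_etale {X W V : Var K} (h : X.obj ⟶ W.obj) (b : W.obj ⟶ V.obj)
    (hb : IsFinite b.left) (hb' : Etale b.left) (ha : IsFinite (h ≫ b).left)
    (ha' : Etale (h ≫ b).left) (hW : ConnectedSpace W.obj.left) (hX : Nonempty X.obj.left) :
    Epi h := by
  rw [Over.comp_left] at ha ha'
  have h1 : IsFinite h.left := IsFinite.of_comp h.left b.left
  have h2 : Etale h.left := Etale.of_comp h.left b.left
  have h3 : Surjective h.left := surjective_of_finite_etale h.left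
  have h4 : Epi h.left := Flat.epi_of_flat_of_surjective h.left
  exact Over.epi_of_epi_left h

end MP8178
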