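import Pool.Agent.Lib_MP_8178ab_ag.SpecVar
import Pool.Agent.Lib_MP_8178ab_ag.EtaleDomain

open CategoryTheory Limits AlgebraicGeometry

namespace MP8178

variable {k : Type} [Field k]

/-- A connected finite étale covering of `Spec A`, `A` étale over a polynomial ring, is affine and
integral. -/
theorem integral_of_finite_etale (n : ℕ) (A : Type) [CommRing A]
    [Algebra (MvPolynomial (Fin n) k) A] [Algebra.Etale (MvPolynomial (Fin n) k) A]
    [Algebra k A] [IsScalarTower k (MvPolynomial (Fin n) k) A] [Algebra.Smooth k A]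
    (X₀ : Var k) (hX : ConnectedSpace X₀.obj.left) (a : X₀.obj ⟶ (specVar k A).obj)
    (ha : IsFinite a.left) (ha' : Etale a.left) :
    IsAffine X₀.obj.left ∧ IsIntegral X₀.obj.left := by
  have haff : IsAffine X₀.obj.left := by
    have : IsAffine (specVar k A).obj.left := by
      change IsAffine (Spec (CommRingCat.of A))
      infer_instance
    exact isAffine_of_isAffineHom a.left
  refine ⟨haff, ?_⟩
  -- `X₀ = Spec B₀`
  let B₀ : Type := Γ(X₀.obj.left, ⊤)
  let ψ : CommRingCat.of A ⟶ Γ(X₀.obj.left, ⊤) :=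
    Spec.preimage (X₀.obj.left.isoSpec.inv ≫ a.left)
  have hψ : Spec.map ψ = X₀.obj.left.isoSpec.inv ≫ a.left := Spec.map_preimage _
  have hψe : Etale (Spec.map ψ) := by rw [hψ]; exact MorphismProperty.comp_mem @Etale _ _ inferInstance ha'
  have hψ' : ψ.hom.Etale := by
    rwa [HasRingHomProperty.Spec_iff (P := @Etale)] at hψe
  let _ : Algebra A Γ(X₀.obj.left, ⊤) := ψ.hom.toAlgebra
  have hAB : Algebra.Etale A Γ(X₀.obj.left, ⊤) := hψ'
  let _ : Algebra (MvPolynomial (Fin n) k) Γ(X₀.obj.left, ⊤) :=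
    (ψ.hom.comp (algebraMap (MvPolynomial (Fin n) k) A)).toAlgebra
  have : IsScalarTower (MvPolynomial (Fin n) k) A Γ(X₀.obj.left, ⊤) :=
    IsScalarTower.of_algebraMap_eq fun _ => rfl
  have hB : Algebra.Etale (MvPolynomial (Fin n) k) Γ(X₀.obj.left, ⊤) :=
    Algebra.Etale.comp (MvPolynomial (Fin n) k) A _
  have hconn : ConnectedSpace (PrimeSpectrum Γ(X₀.obj.left, ⊤)) := by
    let e : X₀.obj.left ≃ₜ PrimeSpectrum Γ(X₀.obj.left, ⊤) :=
      Scheme.homeoOfIso X₀.obj.left.isoSpec
    exact e.surjective.connectedSpace e.continuous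
  have hdom : IsDomain Γ(X₀.obj.left, ⊤) := isDomain_of_etale (k := k) n Γ(X₀.obj.left, ⊤) hconn
  have : Nonempty X₀.obj.left := inferInstance
  exact isIntegral_of_isAffine_of_isDomain X₀.obj.left

end MP8178
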