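import Pool.Agent.Lib_MP_8178ab_ag.Basic

open CategoryTheory Limits AlgebraicGeometry

namespace MP8178

/-- A finite unramified algebra over an algebraically closed field with exactly one point. -/
theorem algebraMap_bijective_of_unique {K B : Type} [Field K] [IsAlgClosed K] [CommRing B]
    [Algebra K B] [Module.Finite K B] [Algebra.FormallyUnramified K B] [Nontrivial B]
    (h : ∀ u v : B →ₐ[K] K, u = v) : Function.Bijective (algebraMap K B) := by
  have key : ∀ m : Ideal B, m.IsMaximal → ∃ u : B →ₐ[K] K, RingHom.ker u = m := by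
    intro m hm
    let := Ideal.Quotient.field m
    have hb : Function.Bijective (algebraMap K (B ⧸ m)) :=
      IsAlgClosed.algebraMap_bijective_of_isIntegral
    let e : K ≃ₐ[K] (B ⧸ m) := AlgEquiv.ofBijective (Algebra.ofId K (B ⧸ m)) hb
    refine ⟨(e.symm : (B ⧸ m) →ₐ[K] K).comp (Ideal.Quotient.mkₐ K m), ?_⟩
    ext x
    rw [RingHom.mem_ker]
    have h1 : ((e.symm : (B ⧸ m) →ₐ[K] K).comp (Ideal.Quotient.mkₐ K m)) x =
      e.symm (Ideal.Quotient.mk m x) := rfl
    rw [h1, EmbeddingLike.map_eq_zero_iff, Ideal.Quotient.eq_zero_iff_mem]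
  obtain ⟨m, hm⟩ := Ideal.exists_maximal B
  have : IsLocalRing B := by
    refine IsLocalRing.of_unique_max_ideal ⟨m, hm, fun n hn => ?_⟩
    obtain ⟨u, hu⟩ := key m hm
    obtain ⟨v, hv⟩ := key n hn
    rw [← hu, ← hv, h u v]
  exact Algebra.FormallyUnramified.bijective_of_isAlgClosed_of_isLocalRing K B

variable {K : Type} [Field K] [IsAlgClosed K]

/-- A finite étale scheme over an algebraically closed field with exactly one section. -/
theorem isIso_of_unique_section {P : Scheme.{0}} (q : P ⟶ Spec (CommRingCat.of K))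
    (hf : IsFinite q) (he : Etale q) (s : Spec (CommRingCat.of K) ⟶ P) (hs : s ≫ q = 𝟙 _)
    (h : ∀ t : Spec (CommRingCat.of K) ⟶ P, t ≫ q = 𝟙 _ → t = s) : IsIso q := by
  wlog hP : ∃ B, P = Spec B
  · have hPa : IsAffine P := isAffine_of_isAffineHom q
    have h1 : IsIso (P.isoSpec.inv ≫ q) := by
      refine this (P.isoSpec.inv ≫ q) inferInstance inferInstance (s ≫ P.isoSpec.hom) (by simp [hs])
        (fun t ht => ?_) ⟨_, rfl⟩
      rw [← h (t ≫ P.isoSpec.inv) (by rw [Category.assoc, ht])]
      simp
    exact (isIso_comp_left_iff P.isoSpec.inv q).1 h1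
  obtain ⟨B, rfl⟩ := hP
  obtain ⟨φ, rfl⟩ := Spec.map_surjective q
  obtain ⟨σ, rfl⟩ := Spec.map_surjective s
  have hfin : φ.hom.Finite := (IsFinite.SpecMap_iff φ).1 hf
  have het : φ.hom.Etale := (HasRingHomProperty.Spec_iff (P := @Etale)).1 he
  have hσ : φ ≫ σ = 𝟙 _ := by
    apply Spec.map_injective
    rw [Spec.map_comp, hs, Spec.map_id]
  have hnt : Nontrivial B := σ.hom.domain_nontrivial
  algebraize [φ.hom]
  have hb : Function.Bijective (algebraMap K B) := by
    apply algebraMap_bijective_of_unique
    have hu : ∀ u : B →ₐ[K] K, CommRingCat.ofHom (u : B →+* K) = σ := by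
      intro u
      apply Spec.map_injective
      apply h
      rw [← Spec.map_comp, ← Spec.map_id]
      congr 1
      ext x
      exact u.commutes x
    intro u v
    have := (hu u).trans (hu v).symm
    ext x
    exact congrArg (fun w => w.hom x) this
  have : IsIso φ := by
    rw [ConcreteCategory.isIso_iff_bijective]
    exact hb
  infer_instance

/-- A finite étale morphism to a connected variety with a single point above one point is an
isomorphism. -/
theorem isIso_of_unique_point {F X : Var K} (f : F.obj ⟶ X.obj) (hf : IsFinite f.left)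
    (he : Etale f.left) (hX : ConnectedSpace X.obj.left) (x₀ : Pt F)
    (h : ∀ y : Pt F, y ≫ f = x₀ ≫ f → y = x₀) : IsIso f := by
  have h1 : IsIso f.left := by
    rw [Scheme.Hom.isIso_iff_finrank_eq]
    have hlc := Scheme.Hom.isLocallyConstant_finrank f.left
    ext y
    rw [hlc.apply_eq_of_preconnectedSpace y ((x₀ ≫ f).left (IsLocalRing.closedPoint K))]
    have h2 := Scheme.Hom.finrank_pullback_snd f.left (x₀ ≫ f).left (IsLocalRing.closedPoint K)
    rw [← h2]
    have hx0 : x₀.left ≫ F.obj.hom = 𝟙 _ := Over.w x₀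
    have h3 : IsIso (pullback.snd f.left (x₀ ≫ f).left) := by
      refine isIso_of_unique_section _ inferInstance inferInstance
        (pullback.lift x₀.left (𝟙 _) (by simp)) (pullback.lift_snd _ _ _) (fun t ht => ?_)
      apply pullback.hom_ext
      · rw [pullback.lift_fst]
        have hw : (t ≫ pullback.fst f.left (x₀ ≫ f).left) ≫ F.obj.hom = 𝟙 _ := by
          have h4 : f.left ≫ X.obj.hom = F.obj.hom := Over.w f
          rw [← h4, Category.assoc, pullback.condition_assoc, reassoc_of% ht]
          have h5 : (x₀ ≫ f).left ≫ X.obj.hom = 𝟙 _ := Over.w (x₀ ≫ f)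
          exact h5
        have h6 := h (Over.homMk (t ≫ pullback.fst f.left (x₀ ≫ f).left) hw) (by
          apply Over.OverMorphism.ext
          change (t ≫ pullback.fst f.left (x₀ ≫ f).left) ≫ f.left = (x₀ ≫ f).left
          rw [Category.assoc, pullback.condition, reassoc_of% ht])
        exact congrArg (fun z : Pt F => z.left) h6
      · rw [pullback.lift_snd, ht]
    rw [Scheme.Hom.finrank_eq_one_of_isIso]
    rfl
  exact (Over.isoMk (asIso f.left) (Over.w f)).isIso_hom

end MP8178
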