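import Pool.Agent.Lib_MP_8178ab_ag.Api
import Pool.Agent.Lib_MP_8178ab_ag.GPull
import Pool.Agent.Lib_MP_8178ab_ag.GComp
import Pool.Agent.Lib_MP_8178ab_ag.GDeg

open CategoryTheory Limits AlgebraicGeometry

namespace MP8178

variable {K : Type} [Field K] [IsAlgClosed K]

/-- Lifting criterion for finite étale morphisms. -/
theorem lift_criterion {P : GrpdFunctor K} (hP : IsPiOneLike P) {X W V : Var K}
    (a : X.obj ⟶ V.obj) (b : W.obj ⟶ V.obj) (hb : IsFinite b.left) (hb' : Etale b.left)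
    (hX : ConnectedSpace X.obj.left) (x : Pt X) (w : Pt W) (v : Pt V) (hx : x ≫ a = v)
    (hw : w ≫ b = v) (hle : (P.push a hx).range ≤ (P.push b hw).range) :
    ∃ h : X.obj ⟶ W.obj, h ≫ b = a ∧ x ≫ h = w := by
  obtain ⟨F, p, q, hF, hp, hp'⟩ := exists_pullback a b hb hb'
  obtain ⟨f₀, hf₀p, hf₀q⟩ := pt_lift_of_isPullback hF x w (by rw [hx, hw])
  obtain ⟨F₀, j, hj1, hj2, hj3, hj4, hj5⟩ :=
    exists_component F (f₀.left (IsLocalRing.closedPoint K))
  obtain ⟨f₁, hf₁⟩ := pt_lift_of_isOpenImmersion j hj1 f₀ hj5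
  have hmono : ∀ y y' : Pt F₀, y ≫ j = y' ≫ j → y = y' := by
    intro y y' h
    apply Over.OverMorphism.ext
    have h1 := congrArg Over.Hom.left h
    rw [Over.comp_left, Over.comp_left] at h1
    exact (cancel_mono j.left).mp h1
  have hx1 : f₁ ≫ j ≫ p = x := by rw [← Category.assoc, hf₁, hf₀p]
  have hw1 : f₁ ≫ j ≫ q = w := by rw [← Category.assoc, hf₁, hf₀q]
  have huniq : ∀ y : Pt F₀, y ≫ (j ≫ p) = f₁ ≫ (j ≫ p) → y = f₁ := by
    intro y hy
    rw [hx1] at hy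
    obtain ⟨γ⟩ := hP.conn F₀ hj4 f₁ y
    obtain ⟨g', hg'⟩ := hle ⟨P.map (j ≫ p) hx1 hy γ, rfl⟩
    have hyq : (y ≫ j ≫ q) ≫ b = v := by
      rw [Category.assoc, Category.assoc, ← hF.w, ← Category.assoc j p a, ← Category.assoc y,
        hy, hx]
    have hmap : P.map b hw hyq (P.map (j ≫ q) hw1 rfl γ) =
        P.push a hx (P.map (j ≫ p) hx1 hy γ) := by
      have e1 : f₁ ≫ (j ≫ q) ≫ b = v := by rw [← Category.assoc, hw1, hw]
      have e2 : y ≫ (j ≫ q) ≫ b = v := by rw [← Category.assoc, hyq]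
      have e3 : f₁ ≫ (j ≫ p) ≫ a = v := by rw [← Category.assoc, hx1, hx]
      have e4 : y ≫ (j ≫ p) ≫ a = v := by rw [← Category.assoc, hy, hx]
      rw [← P.map_map (j ≫ q) b hw1 rfl hw hyq e1 e2]
      change _ = P.map a hx hx (P.map (j ≫ p) hx1 hy γ)
      rw [← P.map_map (j ≫ p) a hx1 hy hx hx e3 e4]
      have e5 : (j ≫ q) ≫ b = (j ≫ p) ≫ a := by
        rw [Category.assoc, Category.assoc, hF.w]
      have key : ∀ (u u' : F₀.obj ⟶ V.obj) (huu : u = u') (k1 : f₁ ≫ u = v) (k2 : y ≫ u = v)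
          (k3 : f₁ ≫ u' = v) (k4 : y ≫ u' = v), P.map u k1 k2 γ = P.map u' k3 k4 γ := by
        intro u u' huu k1 k2 k3 k4
        subst huu
        rfl
      exact key _ _ e5 _ _ _ _
    obtain ⟨c, -, hc⟩ := hP.lift b hb hb' w v v hw (P.push a hx (P.map (j ≫ p) hx1 hy γ))
    have h1 := hc ⟨w, g'⟩ ⟨hw, hg'⟩
    have h2 := hc ⟨y ≫ j ≫ q, P.map (j ≫ q) hw1 rfl γ⟩ ⟨hyq, hmap⟩
    have h3 : y ≫ j ≫ q = w := congrArg Sigma.fst (h2.trans h1.symm)
    apply hmono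
    rw [hf₁]
    apply pt_ext_of_isPullback hF
    · rw [Category.assoc, hy, hf₀p]
    · rw [Category.assoc, h3, hf₀q]
  have hiso : IsIso (j ≫ p) := isIso_of_unique_point (j ≫ p)
    (by rw [Over.comp_left]; infer_instance) (by rw [Over.comp_left]; infer_instance) hX f₁ huniq
  refine ⟨inv (j ≫ p) ≫ j ≫ q, ?_, ?_⟩
  · rw [Category.assoc, Category.assoc, ← hF.w, ← Category.assoc j p a, IsIso.inv_hom_id_assoc]
  · rw [← hx1, ← Category.assoc, Category.assoc f₁, IsIso.hom_inv_id, Category.comp_id, hw1]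

end MP8178
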