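import Pool.Agent.Lib_MP_8178ab_ag.Api
import Pool.Agent.Lib_MP_8178ab_ag.GPull

open CategoryTheory Limits AlgebraicGeometry

namespace MP8178

variable {K : Type} [Field K]

/-- surjectivity half of (1), with free end points -/
theorem IsPiOneLike.exists_prod {P : GrpdFunctor K} (hP : IsPiOneLike P) {X Y Z : Var K}
    (p : Z.obj ⟶ X.obj) (q : Z.obj ⟶ Y.obj) (h : Nonempty (IsLimit (BinaryFan.mk p q)))
    {z z' : Pt Z} {x x' : Pt X} {y y' : Pt Y} (hx : z ≫ p = x) (hx' : z' ≫ p = x')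
    (hy : z ≫ q = y) (hy' : z' ≫ q = y') (a : P.Hom X x x') (b : P.Hom Y y y') :
    ∃ c : P.Hom Z z z', P.map p hx hx' c = a ∧ P.map q hy hy' c = b := by
  subst hx hx' hy hy'
  obtain ⟨c, hc⟩ := (hP.prod p q h z z').2 (a, b)
  simp only [Prod.mk.injEq] at hc
  exact ⟨c, hc.1, hc.2⟩

/-- injectivity half of (1), with free end points -/
theorem IsPiOneLike.prod_ext {P : GrpdFunctor K} (hP : IsPiOneLike P) {X Y Z : Var K}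
    (p : Z.obj ⟶ X.obj) (q : Z.obj ⟶ Y.obj) (h : Nonempty (IsLimit (BinaryFan.mk p q)))
    {z z' : Pt Z} {x x' : Pt X} {y y' : Pt Y} (hx : z ≫ p = x) (hx' : z' ≫ p = x')
    (hy : z ≫ q = y) (hy' : z' ≫ q = y') (c d : P.Hom Z z z')
    (h1 : P.map p hx hx' c = P.map p hx hx' d) (h2 : P.map q hy hy' c = P.map q hy hy' d) :
    c = d := by
  subst hx hx' hy hy'
  exact (hP.prod p q h z z').1 (Prod.ext h1 h2)

/-- uniqueness of lifts, with free end points -/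
theorem IsPiOneLike.lift_unique {P : GrpdFunctor K} (hP : IsPiOneLike P) {X' X : Var K}
    (f : X'.obj ⟶ X.obj) (hf : IsFinite f.left) (he : Etale f.left)
    {x' y₁ y₂ : Pt X'} {x y : Pt X} (hx : x' ≫ f = x) (hy₁ : y₁ ≫ f = y) (hy₂ : y₂ ≫ f = y)
    (b₁ : P.Hom X' x' y₁) (b₂ : P.Hom X' x' y₂)
    (h : P.map f hx hy₁ b₁ = P.map f hx hy₂ b₂) : y₁ = y₂ := by
  obtain ⟨c, -, hc⟩ := hP.lift f hf he x' x y hx (P.map f hx hy₁ b₁)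
  have h1 := hc ⟨y₁, b₁⟩ ⟨hy₁, rfl⟩
  have h2 := hc ⟨y₂, b₂⟩ ⟨hy₂, h.symm⟩
  exact congrArg Sigma.fst (h1.trans h2.symm)

/-- a morphism equal to a constant one kills loops -/
theorem IsPiOneLike.push_eq_one {P : GrpdFunctor K} (hP : IsPiOneLike P) {X Y : Var K} {x : Pt X}
    {y y' : Pt Y} (f : X.obj ⟶ Y.obj) (hf : f = constHom X y) (h : x ≫ f = y')
    (a : P.Hom X x x) : P.push f h a = 1 := by
  subst hf
  exact hP.push_const h a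

/-- push forward along an endomorphism equal to the identity -/
theorem GrpdFunctor.push_eq_self {P : GrpdFunctor K} {X : Var K} {x : Pt X}
    (f : X.obj ⟶ X.obj) (hf : f = 𝟙 _) (h : x ≫ f = x)
    (a : P.Hom X x x) : P.push f h a = a := by
  subst hf
  exact P.map_id a

theorem transport_aux {P : GrpdFunctor K} (hP : IsPiOneLike P) {S V Y E E₁ E₂ : Var K}
    (p : Y.obj ⟶ S.obj) (q : Y.obj ⟶ V.obj) (hY : Nonempty (IsLimit (BinaryFan.mk p q)))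
    (ρ : E.obj ⟶ Y.obj) (hρ : IsFinite ρ.left) (hρ' : Etale ρ.left)
    (s₁ s₂ : Pt S) (j₁ j₂ : V.obj ⟶ Y.obj)
    (hj₁p : j₁ ≫ p = constHom V s₁) (hj₁q : j₁ ≫ q = 𝟙 _)
    (hj₂p : j₂ ≫ p = constHom V s₂) (hj₂q : j₂ ≫ q = 𝟙 _)
    (e₁ : E₁.obj ⟶ E.obj) (π₁ : E₁.obj ⟶ V.obj) (h₁ : IsPullback e₁ π₁ ρ j₁)
    (e₂ : E₂.obj ⟶ E.obj) (π₂ : E₂.obj ⟶ V.obj) (h₂ : IsPullback e₂ π₂ ρ j₂)
    (hf₂ : IsFinite π₂.left) (he₂ : Etale π₂.left)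
    (x₁ : Pt E₁) (x₂ : Pt E₂) (v : Pt V) (hv₁ : x₁ ≫ π₁ = v) (hv₂ : x₂ ≫ π₂ = v)
    (y₁ y₂ : Pt Y) (hy₁ : v ≫ j₁ = y₁) (hy₂ : v ≫ j₂ = y₂)
    (u₁ u₂ : Pt E) (hu₁ : x₁ ≫ e₁ = u₁) (hu₂ : x₂ ≫ e₂ = u₂)
    (hr₁ : u₁ ≫ ρ = y₁) (hr₂ : u₂ ≫ ρ = y₂) (hq₁ : y₁ ≫ q = v) (hq₂ : y₂ ≫ q = v)
    (ε : P.Hom E u₁ u₂) (hε : P.map q hq₁ hq₂ (P.map ρ hr₁ hr₂ ε) = P.one V v) :
    (P.push π₁ hv₁).range ≤ (P.push π₂ hv₂).range := by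
  rintro g ⟨l, rfl⟩
  obtain ⟨⟨z, m⟩, ⟨hz, hm⟩, -⟩ := hP.lift π₂ hf₂ he₂ x₂ v v hv₂ (P.push π₁ hv₁ l)
  dsimp only at hz hm
  -- points of `S`
  have hs₁ : y₁ ≫ p = s₁ := by
    rw [← hy₁, Category.assoc, hj₁p, comp_constHom]
  have hs₂ : y₂ ≫ p = s₂ := by
    rw [← hy₂, Category.assoc, hj₂p, comp_constHom]
  -- the conjugated loop
  have hc : P.push ρ hr₂ (P.cj ε (P.push e₁ hu₁ l)) = P.push j₂ hy₂ (P.push π₁ hv₁ l) := by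
    have hA : P.push ρ hr₁ (P.push e₁ hu₁ l) = P.push j₁ hy₁ (P.push π₁ hv₁ l) := by
      have ha : x₁ ≫ e₁ ≫ ρ = y₁ := by rw [← Category.assoc, hu₁, hr₁]
      rw [P.push_push e₁ ρ hu₁ hr₁ ha, P.push_push π₁ j₁ hv₁ hy₁ (by
        rw [← h₁.w]; exact ha)]
      have key : ∀ (f g : E₁.obj ⟶ Y.obj) (hfg : f = g) (h : x₁ ≫ f = y₁) (h' : x₁ ≫ g = y₁),
          P.push f h l = P.push g h' l := by
        intro f g hfg h h'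
        subst hfg
        rfl
      exact key _ _ h₁.w _ _
    rw [P.push_cj ρ hr₁ hr₂ ε, hA]
    generalize P.push π₁ hv₁ l = g
    apply hP.prod_ext p q hY hs₂ hs₂ hq₂ hq₂
    · change P.push p hs₂ _ = P.push p hs₂ _
      rw [P.push_cj p hs₁ hs₂]
      rw [P.push_push j₁ p hy₁ hs₁ (by rw [← Category.assoc, hy₁, hs₁]),
        P.push_push j₂ p hy₂ hs₂ (by rw [← Category.assoc, hy₂, hs₂]),
        hP.push_eq_one _ hj₁p, hP.push_eq_one _ hj₂p, _root_.map_one]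
    · change P.push q hq₂ _ = P.push q hq₂ _
      rw [P.push_cj q hq₁ hq₂]
      rw [P.push_push j₁ q hy₁ hq₁ (by rw [← Category.assoc, hy₁, hq₁]),
        P.push_push j₂ q hy₂ hq₂ (by rw [← Category.assoc, hy₂, hq₂]),
        P.push_eq_self _ hj₁q, P.push_eq_self _ hj₂q, hε, P.cj_one]
  -- the image in `E` of the lift of `g` to `E₂`
  have hze : (z ≫ e₂) ≫ ρ = y₂ := by
    rw [Category.assoc, h₂.w, ← Category.assoc, hz, hy₂]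
  have hm' : P.map ρ hr₂ hze (P.map e₂ hu₂ rfl m) = P.push j₂ hy₂ (P.push π₁ hv₁ l) := by
    have ha : x₂ ≫ e₂ ≫ ρ = y₂ := by rw [← Category.assoc, hu₂, hr₂]
    have hb : z ≫ e₂ ≫ ρ = y₂ := by rw [← Category.assoc, hze]
    rw [← P.map_map e₂ ρ hu₂ rfl hr₂ hze ha hb m, ← hm]
    change _ = P.map j₂ hy₂ hy₂ _
    rw [← P.map_map π₂ j₂ hv₂ hz hy₂ hy₂ (by rw [← h₂.w]; exact ha) (by rw [← h₂.w]; exact hb) m]
    have key : ∀ (f g : E₂.obj ⟶ Y.obj) (hfg : f = g) (h : x₂ ≫ f = y₂) (h' : x₂ ≫ g = y₂)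
        (k : z ≫ f = y₂) (k' : z ≫ g = y₂),
        P.map f h k m = P.map g h' k' m := by
      intro f g hfg h h' k k'
      subst hfg
      rfl
    exact key _ _ h₂.w _ _ _ _
  have hzu : z ≫ e₂ = u₂ :=
    hP.lift_unique ρ hρ hρ' hr₂ hze hr₂ (P.map e₂ hu₂ rfl m) (P.cj ε (P.push e₁ hu₁ l))
      (hm'.trans hc.symm)
  have hzx : z = x₂ := pt_ext_of_isPullback h₂ z x₂ (hzu.trans hu₂.symm) (hz.trans hv₂.symm)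
  subst hzx
  exact ⟨m, hm⟩

/-- Parallel transport of coverings: `Y = S × V`, `E → Y` finite étale, `S` connected, and
`E₁`, `E₂` the restrictions of `E` to `{s₁} × V` and `{s₂} × V`. For every point `x₁` of `E₁`
there is a point `x₂` of `E₂` over the same point of `V` such that the loops of `V` which lift to
loops at `x₂` are those which lift to loops at `x₁`. -/
theorem transport {P : GrpdFunctor K} (hP : IsPiOneLike P) {S V Y E E₁ E₂ : Var K}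
    (p : Y.obj ⟶ S.obj) (q : Y.obj ⟶ V.obj) (hY : Nonempty (IsLimit (BinaryFan.mk p q)))
    (hS : ConnectedSpace S.obj.left)
    (ρ : E.obj ⟶ Y.obj) (hρ : IsFinite ρ.left) (hρ' : Etale ρ.left)
    (s₁ s₂ : Pt S) (j₁ j₂ : V.obj ⟶ Y.obj)
    (hj₁p : j₁ ≫ p = constHom V s₁) (hj₁q : j₁ ≫ q = 𝟙 _)
    (hj₂p : j₂ ≫ p = constHom V s₂) (hj₂q : j₂ ≫ q = 𝟙 _)
    (e₁ : E₁.obj ⟶ E.obj) (π₁ : E₁.obj ⟶ V.obj) (h₁ : IsPullback e₁ π₁ ρ j₁)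
    (e₂ : E₂.obj ⟶ E.obj) (π₂ : E₂.obj ⟶ V.obj) (h₂ : IsPullback e₂ π₂ ρ j₂)
    (hf₁ : IsFinite π₁.left) (he₁ : Etale π₁.left)
    (hf₂ : IsFinite π₂.left) (he₂ : Etale π₂.left)
    (x₁ : Pt E₁) (v : Pt V) (hv : x₁ ≫ π₁ = v) :
    ∃ (x₂ : Pt E₂) (hv₂ : x₂ ≫ π₂ = v), (P.push π₂ hv₂).range = (P.push π₁ hv).range := by
  obtain ⟨δ⟩ := hP.conn S hS s₁ s₂
  obtain ⟨y₁, hy₁⟩ : ∃ y, v ≫ j₁ = y := ⟨_, rfl⟩
  obtain ⟨y₂, hy₂⟩ : ∃ y, v ≫ j₂ = y := ⟨_, rfl⟩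
  have hs₁ : y₁ ≫ p = s₁ := by
    rw [← hy₁, Category.assoc, hj₁p, comp_constHom]
  have hs₂ : y₂ ≫ p = s₂ := by
    rw [← hy₂, Category.assoc, hj₂p, comp_constHom]
  have hq₁ : y₁ ≫ q = v := by
    rw [← hy₁, Category.assoc, hj₁q, Category.comp_id]
  have hq₂ : y₂ ≫ q = v := by
    rw [← hy₂, Category.assoc, hj₂q, Category.comp_id]
  obtain ⟨ε, -, hεq⟩ := hP.exists_prod p q hY hs₁ hs₂ hq₁ hq₂ δ (P.one V v)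
  obtain ⟨u₁, hu₁⟩ : ∃ u, x₁ ≫ e₁ = u := ⟨_, rfl⟩
  have hr₁ : u₁ ≫ ρ = y₁ := by
    rw [← hu₁, Category.assoc, h₁.w, ← Category.assoc, hv, hy₁]
  obtain ⟨⟨u₂, ε'⟩, ⟨hr₂, hε'⟩, -⟩ := hP.lift ρ hρ hρ' u₁ y₁ y₂ hr₁ ε
  dsimp only at hr₂ hε'
  obtain ⟨x₂, hu₂, hv₂⟩ := pt_lift_of_isPullback h₂ u₂ v (hr₂.trans hy₂.symm)
  refine ⟨x₂, hv₂, le_antisymm ?_ ?_⟩
  · refine transport_aux hP p q hY ρ hρ hρ' s₂ s₁ j₂ j₁ hj₂p hj₂q hj₁p hj₁q e₂ π₂ h₂ e₁ π₁ h₁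
      hf₁ he₁ x₂ x₁ v hv₂ hv y₂ y₁ hy₂ hy₁ u₂ u₁ hu₂ hu₁ hr₂ hr₁ hq₂ hq₁ (P.inv ε') ?_
    rw [P.map_inv ρ hr₁ hr₂, hε', P.map_inv q hq₁ hq₂, hεq, P.inv_one]
  · refine transport_aux hP p q hY ρ hρ hρ' s₁ s₂ j₁ j₂ hj₁p hj₁q hj₂p hj₂q e₁ π₁ h₁ e₂ π₂ h₂
      hf₂ he₂ x₁ x₂ v hv hv₂ y₁ y₂ hy₁ hy₂ u₁ u₂ hu₁ hu₂ hr₁ hr₂ hq₁ hq₂ ε' ?_
    rw [hε', hεq]

end MP8178
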