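import Pool.Agent.Lib_MP_8178ab_ag.SpreadGeo
import Pool.Agent.Lib_MP_8178ab_ag.IntegralFE
import Pool.Agent.Lib_MP_8178ab_ag.ConstBase
import Pool.Agent.Lib_MP_8178ab_ag.EpiFE
import Pool.Agent.Lib_MP_8178ab_ag.Transport
import Pool.Agent.Lib_MP_8178ab_ag.LiftCrit
import Pool.Agent.Lib_MP_8178ab_ag.GFib

open CategoryTheory Limits AlgebraicGeometry Polynomial

namespace MP8178

theorem comp_constHom_left {K : Type} [Field K] {X W Y : Var K} (h : X.obj ⟶ W.obj) (t : Pt Y) :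
    h ≫ constHom W t = constHom X t := by
  have : h ≫ toPt W = toPt X := by
    apply Over.OverMorphism.ext
    exact Over.w h
  change h ≫ toPt W ≫ t = toPt X ≫ t
  rw [← Category.assoc, this]

variable {K : Type} [Field K] [IsAlgClosed K] {k : Type} [Field k] [IsAlgClosed k]

/-- Connected finite étale covers of `V_K`, where `V = Spec A` is étale over an affine space over
`k`, have only constant morphisms to the affine line without `0`, `1` and `l`, `l ∉ k`. -/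
theorem const_affine {P : GrpdFunctor K} (hP : IsPiOneLike P) (φ : k →+* K) (l : K)
    (hl : l ∉ Set.range φ) (n : ℕ) (A : Type) [CommRing A]
    [Algebra (MvPolynomial (Fin n) k) A] [Algebra.Etale (MvPolynomial (Fin n) k) A]
    [Algebra k A] [IsScalarTower k (MvPolynomial (Fin n) k) A] [Algebra.Smooth k A]
    (W : Var K) (hW : ConnectedSpace W.obj.left)
    (ρ : W.obj ⟶ (bcVar φ (specVar k A)).obj) (hρ : IsFinite ρ.left) (hρ' : Etale ρ.left)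
    (f : W.obj ⟶ (tVar K l).obj) : ∃ t : Pt (tVar K l), f = constHom W t := by
  obtain ⟨S, Y, E, E₀, p, q, τ, s₁, s₂, j₁, j₂, e₁, ρ₀, e₂, hY, hS, hτ, hτ', h1p, h1q, h2p, h2q,
    hpb1, hρ₀, hρ₀', hpb2⟩ := spread_geo φ A W ρ hρ hρ'
  obtain ⟨x₁, -⟩ := exists_pt W ⊤ (by simp)
  obtain ⟨x₂, hv₂, hrange⟩ := transport hP p q hY hS τ hτ hτ' s₁ s₂ j₁ j₂ h1p h1q h2p h2q e₁ ρ
    hpb1 e₂ (bcMap φ ρ₀) hpb2 hρ hρ' (bcMap_finite φ ρ₀ hρ₀) (bcMap_etale φ ρ₀ hρ₀') x₁ _ rfl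
  obtain ⟨X₀, j, hj1, hj2, hj3, hj4, hj5⟩ :=
    exists_component E₀ (bcProj φ E₀ (x₂.left (IsLocalRing.closedPoint K)))
  obtain ⟨x₂', hx₂'⟩ := pt_lift_of_isOpenImmersion (bcMap φ j) (bcMap_isOpenImmersion φ j hj1) x₂
    (by rw [range_bcMap φ j hj1]; exact hj5)
  have hfin : IsFinite (j ≫ ρ₀).left := by rw [Over.comp_left]; infer_instance
  have het : Etale (j ≫ ρ₀).left := by rw [Over.comp_left]; infer_instance
  obtain ⟨haff, hint⟩ := integral_of_finite_etale n A X₀ hj4 (j ≫ ρ₀) hfin het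
  have hconn := connected_bc φ X₀ haff hint
  have hx : x₂' ≫ bcMap φ (j ≫ ρ₀) = x₁ ≫ ρ := by
    rw [bcMap_comp, ← Category.assoc, hx₂', hv₂]
  have hle : (P.push (bcMap φ (j ≫ ρ₀)) hx).range ≤
      (P.push ρ (rfl : x₁ ≫ ρ = x₁ ≫ ρ)).range := by
    rw [← hrange]
    rintro _ ⟨a, rfl⟩
    refine ⟨P.push (bcMap φ j) hx₂' a, ?_⟩
    have h3 : x₂' ≫ bcMap φ j ≫ bcMap φ ρ₀ = x₁ ≫ ρ := by
      rw [← Category.assoc, hx₂', hv₂]
    rw [P.push_push (bcMap φ j) (bcMap φ ρ₀) hx₂' hv₂ h3]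
    have key : ∀ (u u' : (bcVar φ X₀).obj ⟶ (bcVar φ (specVar k A)).obj) (_ : u = u')
        (h : x₂' ≫ u = x₁ ≫ ρ) (h' : x₂' ≫ u' = x₁ ≫ ρ), P.push u h a = P.push u' h' a := by
      intro u u' huu h h'
      subst huu
      rfl
    exact key _ _ (bcMap_comp φ j ρ₀).symm _ _
  obtain ⟨h, hh, -⟩ := lift_criterion hP (bcMap φ (j ≫ ρ₀)) ρ hρ hρ' hconn x₂' x₁ (x₁ ≫ ρ) hx rfl
    hle
  obtain ⟨t, ht⟩ := const_of_integral φ l hl X₀ haff hint (h ≫ f)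
  have hepi : Epi h := epi_of_finite_etale h ρ hρ hρ' (by rw [hh]; exact bcMap_finite φ _ hfin)
    (by rw [hh]; exact bcMap_etale φ _ het) hW inferInstance
  refine ⟨t, ?_⟩
  rw [← cancel_epi h, ht, comp_constHom_left]

end MP8178
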