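import Mathlib

/-!
# Definitions for MP_8178ab_ag

Smooth quasi-projective varieties over a field `K`, functors from them to groupoids whose objects
are the `K`-points, `π₁`-like functors, equivalence of functors.
-/

open CategoryTheory Limits AlgebraicGeometry

namespace MP8178

attribute [local instance] MvPolynomial.gradedAlgebra in
/-- Projective space `ℙⁿ` over `ℤ`. -/
noncomputable def PZ (n : ℕ) : Scheme.{0} :=
  Proj (MvPolynomial.homogeneousSubmodule (Fin (n + 1)) ℤ)

/-- `f : X ⟶ S` is quasi-projective: `X` is, over `S`, a locally closed subscheme of a projective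
space `ℙⁿ × S` over `S`. -/
def IsQuasiProj {X S : Scheme.{0}} (f : X ⟶ S) : Prop :=
  ∃ (n : ℕ) (g : X ⟶ PZ n), IsImmersion (prod.lift g f)

/-- Smooth quasi-projective varieties over the field `K`. (Separated and quasi-compact are
consequences of quasi-projective; they are included for convenience.) -/
structure Var (K : Type) [Field K] where
  /-- the underlying scheme over `Spec K` -/
  obj : Over (Spec (CommRingCat.of K))
  smooth : Smooth obj.hom
  separated : IsSeparated obj.hom
  quasiCompact : QuasiCompact obj.hom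
  quasiProj : IsQuasiProj obj.hom

/-- The point `Spec K` over `Spec K`. -/
noncomputable abbrev ptO (K : Type) [Field K] : Over (Spec (CommRingCat.of K)) :=
  Over.mk (𝟙 (Spec (CommRingCat.of K)))

/-- The set `X(K)` of `K`-points. -/
abbrev Pt {K : Type} [Field K] (X : Var K) : Type := ptO K ⟶ X.obj

/-- A functor `π` from smooth quasi-projective varieties over `K` to groupoids such that
`Ob π(X) = X(K)` functorially: `Hom X x y` is the set of arrows `x ⟶ y` of `π(X)`, and for
`f : X ⟶ Y` the functor `π(f)` is `x ↦ x ≫ f` on objects and `map f` on arrows. -/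
structure GrpdFunctor (K : Type) [Field K] where
  Hom : (X : Var K) → Pt X → Pt X → Type
  one : (X : Var K) → (x : Pt X) → Hom X x x
  comp : {X : Var K} → {x y z : Pt X} → Hom X x y → Hom X y z → Hom X x z
  inv : {X : Var K} → {x y : Pt X} → Hom X x y → Hom X y x
  map : {X Y : Var K} → (f : X.obj ⟶ Y.obj) → {x y : Pt X} → {x' y' : Pt Y} →
    (x ≫ f = x') → (y ≫ f = y') → Hom X x y → Hom Y x' y'
  one_comp : ∀ {X : Var K} {x y : Pt X} (a : Hom X x y), comp (one X x) a = a
  comp_one : ∀ {X : Var K} {x y : Pt X} (a : Hom X x y), comp a (one X y) = a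
  assoc : ∀ {X : Var K} {x y z w : Pt X} (a : Hom X x y) (b : Hom X y z) (c : Hom X z w),
    comp (comp a b) c = comp a (comp b c)
  inv_comp : ∀ {X : Var K} {x y : Pt X} (a : Hom X x y), comp (inv a) a = one X y
  comp_inv : ∀ {X : Var K} {x y : Pt X} (a : Hom X x y), comp a (inv a) = one X x
  map_one : ∀ {X Y : Var K} (f : X.obj ⟶ Y.obj) {x : Pt X} {x' : Pt Y} (hx : x ≫ f = x'),
    map f hx hx (one X x) = one Y x'
  map_comp : ∀ {X Y : Var K} (f : X.obj ⟶ Y.obj) {x y z : Pt X} {x' y' z' : Pt Y}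
    (hx : x ≫ f = x') (hy : y ≫ f = y') (hz : z ≫ f = z') (a : Hom X x y) (b : Hom X y z),
    map f hx hz (comp a b) = comp (map f hx hy a) (map f hy hz b)
  map_id : ∀ {X : Var K} {x y : Pt X} (a : Hom X x y),
    map (𝟙 X.obj) (Category.comp_id x) (Category.comp_id y) a = a
  map_map : ∀ {X Y Z : Var K} (f : X.obj ⟶ Y.obj) (g : Y.obj ⟶ Z.obj) {x y : Pt X}
    {x' y' : Pt Y} {x'' y'' : Pt Z} (hx : x ≫ f = x') (hy : y ≫ f = y') (hx' : x' ≫ g = x'')
    (hy' : y' ≫ g = y'') (h : x ≫ f ≫ g = x'') (h' : y ≫ f ≫ g = y'') (a : Hom X x y),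
    map (f ≫ g) h h' a = map g hx' hy' (map f hx hy a)

/-- `π₁`-like functors: (1) products, (2) connectedness, (3) unique lifting along finite étale
morphisms. (Condition (0) is built into `GrpdFunctor`.) -/
structure IsPiOneLike {K : Type} [Field K] (P : GrpdFunctor K) : Prop where
  /-- (1) `π(X × Y) = π(X) × π(Y)` -/
  prod : ∀ {X Y Z : Var K} (p : Z.obj ⟶ X.obj) (q : Z.obj ⟶ Y.obj),
    Nonempty (IsLimit (BinaryFan.mk p q)) → ∀ z z' : Pt Z,
    Function.Bijective (fun a : P.Hom Z z z' =>
      ((P.map p rfl rfl a : P.Hom X (z ≫ p) (z' ≫ p)),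
        (P.map q rfl rfl a : P.Hom Y (z ≫ q) (z' ≫ q))))
  /-- (2) `π(X)` is connected if `X` is connected -/
  conn : ∀ X : Var K, ConnectedSpace X.obj.left → ∀ x y : Pt X, Nonempty (P.Hom X x y)
  /-- (3) unique lifting -/
  lift : ∀ {X' X : Var K} (f : X'.obj ⟶ X.obj), IsFinite f.left → Etale f.left →
    ∀ (x' : Pt X') (x y : Pt X) (hx : x' ≫ f = x) (a : P.Hom X x y),
    ∃! b : (Σ y' : Pt X', P.Hom X' x' y'), ∃ hy : b.1 ≫ f = y, P.map f hx hy b.2 = a

/-- Equivalence of functors satisfying (0): a natural isomorphism, the identity on objects. -/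
def Equivalent {K : Type} [Field K] (P Q : GrpdFunctor K) : Prop :=
  ∃ e : (X : Var K) → (x y : Pt X) → P.Hom X x y ≃ Q.Hom X x y,
    (∀ (X : Var K) (x y z : Pt X) (a : P.Hom X x y) (b : P.Hom X y z),
      e X x z (P.comp a b) = Q.comp (e X x y a) (e X y z b)) ∧
    (∀ (X Y : Var K) (f : X.obj ⟶ Y.obj) (x y : Pt X) (x' y' : Pt Y) (hx : x ≫ f = x')
      (hy : y ≫ f = y') (a : P.Hom X x y),
      e Y x' y' (P.map f hx hy a) = Q.map f hx hy (e X x y a))

end MP8178
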