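import Pool.Agent.Lib_MP_8178ab_ag.Api
import Pool.Agent.Lib_MP_8178ab_ag.GFib

open CategoryTheory Limits AlgebraicGeometry

namespace MP8178

variable {K : Type} [Field K] [IsAlgClosed K]

/-- finite étale morphisms have image of finite index on loops -/
theorem IsPiOneLike.push_finiteIndex {P : GrpdFunctor K} (hP : IsPiOneLike P) {X' X : Var K}
    (f : X'.obj ⟶ X.obj) (hf : IsFinite f.left) (he : Etale f.left) {x' : Pt X'} {x : Pt X}
    (hx : x' ≫ f = x) : (P.push f hx).range.FiniteIndex := by
  have hfin : Finite {y : Pt X' // y ≫ f = x} := finite_fiber f hf x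
  -- the end point of the lift
  have hl : ∀ g : P.Hom X x x, ∃ y : {y : Pt X' // y ≫ f = x}, ∃ b : P.Hom X' x' y.1,
      P.map f hx y.2 b = g := by
    intro g
    obtain ⟨⟨y, b⟩, ⟨hy, hb⟩, -⟩ := hP.lift f hf he x' x x hx g
    exact ⟨⟨y, hy⟩, b, hb⟩
  choose F b hb using hl
  have key : ∀ g h : P.Hom X x x, F g = F h → g * h⁻¹ ∈ (P.push f hx).range := by
    intro g h hgh
    have aux : ∀ (y : {y : Pt X' // y ≫ f = x}) (c : P.Hom X' x' y.1),
        P.map f hx y.2 c = g → y = F h → g * h⁻¹ ∈ (P.push f hx).range := by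
      intro y c hc hy
      subst hy
      refine ⟨P.comp c (P.inv (b h)), ?_⟩
      change P.map f hx hx (P.comp c (P.inv (b h))) = g * h⁻¹
      rw [P.map_comp f hx (F h).2 hx, P.map_inv f hx (F h).2, hc, hb h]
      rfl
    exact aux (F g) (b g) (hb g) hgh
  have : Finite (P.Hom X x x ⧸ (P.push f hx).range) := by
    refine Finite.of_injective (fun q => F (q.out)⁻¹) ?_
    intro q r hqr
    have := key _ _ hqr
    rw [_root_.inv_inv] at this
    rw [← Quotient.out_eq' q, ← Quotient.out_eq' r]
    exact QuotientGroup.eq.2 this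
  exact Subgroup.finiteIndex_of_finite_quotient

end MP8178
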