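import Pool.Agent.Lib_MP_8178ab_ag.Segre

open CategoryTheory Limits AlgebraicGeometry

set_option linter.unusedSimpArgs false

namespace MP8178

theorem IsQuasiProj.comp_immersion {X Y S : Scheme.{0}} (i : X ⟶ Y) [IsImmersion i] {f : Y ⟶ S}
    (h : IsQuasiProj f) : IsQuasiProj (i ≫ f) := by
  obtain ⟨n, g, hg⟩ := h
  refine ⟨n, i ≫ g, ?_⟩
  rw [← prod.comp_lift]
  infer_instance

theorem IsQuasiProj.comp_iso {X S T : Scheme.{0}} {f : X ⟶ S} (h : IsQuasiProj f) (e : S ⟶ T)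
    [IsIso e] : IsQuasiProj (f ≫ e) := by
  obtain ⟨n, g, hg⟩ := h
  refine ⟨n, g, ?_⟩
  have : prod.lift g (f ≫ e) = prod.lift g f ≫ prod.map (𝟙 _) e := by
    rw [prod.lift_map, Category.comp_id]
  rw [this]
  infer_instance

/-- The graph of the base change is a base change. -/
theorem isPullback_lift {A X S T : Scheme.{0}} (f : X ⟶ S) (t : T ⟶ S) (g : X ⟶ A) :
    IsPullback (Limits.pullback.fst f t)
      (prod.lift (Limits.pullback.fst f t ≫ g) (Limits.pullback.snd f t))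
      (prod.lift g f) (prod.map (𝟙 A) t) := by
  refine ⟨⟨?_⟩, ⟨PullbackCone.IsLimit.mk _ (fun s => Limits.pullback.lift s.fst
    (s.snd ≫ prod.snd) ?_) ?_ ?_ ?_⟩⟩
  · rw [prod.comp_lift, prod.lift_map, Category.comp_id, pullback.condition]
  · have := congrArg (· ≫ prod.snd) s.condition
    simpa [prod.lift_fst, prod.lift_snd, prod.lift_fst_assoc, prod.lift_snd_assoc, prod.map_fst, prod.map_snd, prod.map_fst_assoc, prod.map_snd_assoc] using this
  · intro s
    exact pullback.lift_fst _ _ _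
  · intro s
    have h1 := congrArg (· ≫ prod.fst) s.condition
    have h2 : s.fst ≫ g = s.snd ≫ prod.fst := by
      simpa [prod.lift_fst, prod.lift_snd, prod.lift_fst_assoc, prod.lift_snd_assoc, prod.map_fst, prod.map_snd, prod.map_fst_assoc, prod.map_snd_assoc] using h1
    apply Limits.prod.hom_ext
    · rw [Category.assoc, prod.lift_fst, ← Category.assoc, pullback.lift_fst, h2]
    · refine (Category.assoc _ _ _).trans ?_
      refine (congrArg _ (prod.lift_snd _ _)).trans ?_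
      exact pullback.lift_snd _ _ _
  · intro s m h1 h2
    apply pullback.hom_ext
    · rw [pullback.lift_fst, h1]
    · rw [pullback.lift_snd, ← h2, Category.assoc, prod.lift_snd]

theorem IsQuasiProj.baseChange {X S T : Scheme.{0}} {f : X ⟶ S} (g : T ⟶ S)
    (hf : IsQuasiProj f) : IsQuasiProj (Limits.pullback.snd f g) := by
  obtain ⟨n, u, hu⟩ := hf
  exact ⟨n, Limits.pullback.fst f g ≫ u,
    MorphismProperty.of_isPullback (P := @IsImmersion) (isPullback_lift f g u) hu⟩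

theorem isPullback_prod_map_left {A B C : Scheme.{0}} (s : A ⟶ B) :
    IsPullback (prod.fst : A ⨯ C ⟶ A) (prod.map s (𝟙 C)) s (prod.fst : B ⨯ C ⟶ B) := by
  refine ⟨⟨?_⟩, ⟨PullbackCone.IsLimit.mk _ (fun t => prod.lift t.fst (t.snd ≫ prod.snd))
    ?_ ?_ ?_⟩⟩
  · simp [prod.lift_fst, prod.lift_snd, prod.lift_fst_assoc, prod.lift_snd_assoc, prod.map_fst, prod.map_snd, prod.map_fst_assoc, prod.map_snd_assoc]
  · intro t
    exact prod.lift_fst _ _
  · intro t
    apply Limits.prod.hom_ext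
    · simp [t.condition, prod.lift_fst, prod.lift_snd, prod.lift_fst_assoc, prod.lift_snd_assoc, prod.map_fst, prod.map_snd, prod.map_fst_assoc, prod.map_snd_assoc]
    · simp [prod.lift_fst, prod.lift_snd, prod.lift_fst_assoc, prod.lift_snd_assoc, prod.map_fst, prod.map_snd, prod.map_fst_assoc, prod.map_snd_assoc]
  · intro t m h1 h2
    apply Limits.prod.hom_ext
    · rw [prod.lift_fst, h1]
    · rw [prod.lift_snd, ← h2]; simp [prod.lift_fst, prod.lift_snd, prod.lift_fst_assoc, prod.lift_snd_assoc, prod.map_fst, prod.map_snd, prod.map_fst_assoc, prod.map_snd_assoc]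

theorem isPullback_prod_map_right {A B C : Scheme.{0}} (s : A ⟶ B) :
    IsPullback (prod.snd : C ⨯ A ⟶ A) (prod.map (𝟙 C) s) s (prod.snd : C ⨯ B ⟶ B) := by
  refine ⟨⟨?_⟩, ⟨PullbackCone.IsLimit.mk _ (fun t => prod.lift (t.snd ≫ prod.fst) t.fst)
    ?_ ?_ ?_⟩⟩
  · simp [prod.lift_fst, prod.lift_snd, prod.lift_fst_assoc, prod.lift_snd_assoc, prod.map_fst, prod.map_snd, prod.map_fst_assoc, prod.map_snd_assoc]
  · intro t
    exact prod.lift_snd _ _
  · intro t
    apply Limits.prod.hom_ext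
    · simp [prod.lift_fst, prod.lift_snd, prod.lift_fst_assoc, prod.lift_snd_assoc, prod.map_fst, prod.map_snd, prod.map_fst_assoc, prod.map_snd_assoc]
    · simp [t.condition, prod.lift_fst, prod.lift_snd, prod.lift_fst_assoc, prod.lift_snd_assoc, prod.map_fst, prod.map_snd, prod.map_fst_assoc, prod.map_snd_assoc]
  · intro t m h1 h2
    apply Limits.prod.hom_ext
    · rw [prod.lift_fst, ← h2]; simp [prod.lift_fst, prod.lift_snd, prod.lift_fst_assoc, prod.lift_snd_assoc, prod.map_fst, prod.map_snd, prod.map_fst_assoc, prod.map_snd_assoc]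
    · rw [prod.lift_snd, h1]

theorem IsQuasiProj.pullback {X Y S : Scheme.{0}} {f : X ⟶ S} {g : Y ⟶ S}
    (hf : IsQuasiProj f) (hg : IsQuasiProj g) :
    IsQuasiProj (Limits.pullback.fst f g ≫ f) := by
  obtain ⟨m, u, hu⟩ := hf
  obtain ⟨n, v, hv⟩ := hg
  obtain ⟨N, s, hs⟩ := segre m n
  -- `X ×_S Y → PZ n ⨯ X`
  let c₁ : Limits.pullback f g ⟶ PZ n ⨯ X :=
    prod.lift (Limits.pullback.snd f g ≫ v) (Limits.pullback.fst f g)
  have hc₁ : IsImmersion c₁ := by
    have h1 := MorphismProperty.of_isPullback (P := @IsImmersion) (isPullback_lift g f v) hv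
    have h2 : c₁ = (pullbackSymmetry f g).hom ≫
        prod.lift (Limits.pullback.fst g f ≫ v) (Limits.pullback.snd g f) := by
      apply Limits.prod.hom_ext
      · simp [c₁, prod.lift_fst, prod.lift_snd, prod.lift_fst_assoc, prod.lift_snd_assoc, prod.map_fst, prod.map_snd, prod.map_fst_assoc, prod.map_snd_assoc]
      · simp [c₁, prod.lift_fst, prod.lift_snd, prod.lift_fst_assoc, prod.lift_snd_assoc, prod.map_fst, prod.map_snd, prod.map_fst_assoc, prod.map_snd_assoc]
    rw [h2]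
    infer_instance
  let c₂ : PZ n ⨯ X ⟶ PZ n ⨯ (PZ m ⨯ S) := prod.map (𝟙 _) (prod.lift u f)
  have hc₂ : IsImmersion c₂ :=
    MorphismProperty.of_isPullback (P := @IsImmersion) (isPullback_prod_map_right _) hu
  let c₃ : PZ n ⨯ (PZ m ⨯ S) ⟶ (PZ m ⨯ PZ n) ⨯ S :=
    prod.lift (prod.lift (prod.snd ≫ prod.fst) prod.fst) (prod.snd ≫ prod.snd)
  let c₃' : (PZ m ⨯ PZ n) ⨯ S ⟶ PZ n ⨯ (PZ m ⨯ S) :=
    prod.lift (prod.fst ≫ prod.snd) (prod.lift (prod.fst ≫ prod.fst) prod.snd)
  have hc₃ : IsIso c₃ := by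
    refine ⟨c₃', ?_, ?_⟩
    · apply Limits.prod.hom_ext
      · simp [c₃, c₃', prod.lift_fst, prod.lift_snd, prod.lift_fst_assoc, prod.lift_snd_assoc, prod.map_fst, prod.map_snd, prod.map_fst_assoc, prod.map_snd_assoc]
      · apply Limits.prod.hom_ext <;> simp [c₃, c₃', prod.lift_fst, prod.lift_snd, prod.lift_fst_assoc, prod.lift_snd_assoc, prod.map_fst, prod.map_snd, prod.map_fst_assoc, prod.map_snd_assoc]
    · apply Limits.prod.hom_ext
      · apply Limits.prod.hom_ext <;> simp [c₃, c₃', prod.lift_fst, prod.lift_snd, prod.lift_fst_assoc, prod.lift_snd_assoc, prod.map_fst, prod.map_snd, prod.map_fst_assoc, prod.map_snd_assoc]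
      · simp [c₃, c₃', prod.lift_fst, prod.lift_snd, prod.lift_fst_assoc, prod.lift_snd_assoc, prod.map_fst, prod.map_snd, prod.map_fst_assoc, prod.map_snd_assoc]
  let c₄ : (PZ m ⨯ PZ n) ⨯ S ⟶ PZ N ⨯ S := prod.map s (𝟙 _)
  have hc₄ : IsImmersion c₄ :=
    MorphismProperty.of_isPullback (P := @IsImmersion) (isPullback_prod_map_left _) hs
  refine ⟨N, (c₁ ≫ c₂ ≫ c₃ ≫ c₄) ≫ prod.fst, ?_⟩
  have hc : prod.lift ((c₁ ≫ c₂ ≫ c₃ ≫ c₄) ≫ prod.fst) (Limits.pullback.fst f g ≫ f) =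
      c₁ ≫ c₂ ≫ c₃ ≫ c₄ := by
    apply Limits.prod.hom_ext
    · simp [prod.lift_fst, prod.lift_snd, prod.lift_fst_assoc, prod.lift_snd_assoc, prod.map_fst, prod.map_snd, prod.map_fst_assoc, prod.map_snd_assoc]
    · simp [c₁, c₂, c₃, c₄, prod.lift_fst, prod.lift_snd, prod.lift_fst_assoc, prod.lift_snd_assoc, prod.map_fst, prod.map_snd, prod.map_fst_assoc, prod.map_snd_assoc]
  rw [hc]
  infer_instance

end MP8178
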