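import Pool.Agent.Lib_MP_8178ab_ag.Defs

/-!
# The Segre embedding
-/

open CategoryTheory Limits AlgebraicGeometry HomogeneousLocalization

namespace MP8178

namespace SegreAux

attribute [local instance] MvPolynomial.gradedAlgebra

/-- the grading of `ℤ[x_i : i ∈ σ]` -/
abbrev Gr (σ : Type) : ℕ → Submodule ℤ (MvPolynomial σ ℤ) := MvPolynomial.homogeneousSubmodule σ ℤ

variable {σ : Type}

lemma X_mem (i : σ) : (MvPolynomial.X i : MvPolynomial σ ℤ) ∈ Gr σ 1 :=
  MvPolynomial.isHomogeneous_X ..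

/-- the chart ring -/
abbrev Aw (i : σ) : Type := Away (Gr σ) (MvPolynomial.X i : MvPolynomial σ ℤ)

/-- the coordinate `x_k / x_i` -/
noncomputable def crd (i k : σ) : Aw i :=
  Away.mk (Gr σ) (X_mem i) 1 (MvPolynomial.X k) (by simpa using X_mem k)

lemma crd_self (i : σ) : crd i i = 1 := by
  apply HomogeneousLocalization.val_injective
  simp only [crd, Away.val_mk, HomogeneousLocalization.val_one]
  rw [← Localization.mk_one, Localization.mk_eq_mk_iff, Localization.r_iff_exists]
  exact ⟨1, by simp⟩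

lemma val_mk_eq (i : σ) (n : ℕ) (p : MvPolynomial σ ℤ) (hp : p ∈ Gr σ (n • 1)) :
    Away.mk (Gr σ) (X_mem i) n p hp = MvPolynomial.eval₂Hom (Int.castRingHom (Aw i)) (crd i) p := by
  have hinj : Function.Injective (algebraMap (Aw i)
      (Localization.Away (MvPolynomial.X i : MvPolynomial σ ℤ))) := val_injective _
  apply hinj
  set L := Localization.Away (MvPolynomial.X i : MvPolynomial σ ℤ)
  set u : L := Localization.mk 1 ⟨MvPolynomial.X i, Submonoid.mem_powers _⟩ with hu
  have h1 : ∀ k : σ, algebraMap (Aw i) L (crd i k) =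
      u * algebraMap (MvPolynomial σ ℤ) L (MvPolynomial.X k) := by
    intro k
    rw [HomogeneousLocalization.algebraMap_apply, crd, Away.val_mk, hu,
      ← Localization.mk_one_eq_algebraMap, Localization.mk_mul]
    congr 1
    · simp
    · ext; simp
  have h2 : algebraMap (Aw i) L (MvPolynomial.eval₂Hom (Int.castRingHom (Aw i)) (crd i) p)
      = MvPolynomial.eval₂ (Int.castRingHom L)
        (fun k => u * algebraMap (MvPolynomial σ ℤ) L (MvPolynomial.X k)) p := by
    rw [MvPolynomial.coe_eval₂Hom, MvPolynomial.hom_eval₂]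
    congr 1
    · exact RingHom.ext_int _ _
    · funext k; exact h1 k
  rw [h2, MvPolynomial.eval₂_eq]
  have h3 : ∀ d ∈ p.support, ∏ k ∈ d.support,
      (u * algebraMap (MvPolynomial σ ℤ) L (MvPolynomial.X k)) ^ d k
      = u ^ n * algebraMap (MvPolynomial σ ℤ) L (MvPolynomial.monomial d 1) := by
    intro d hd
    have hdeg : ∑ k ∈ d.support, d k = n := by
      have := hp (MvPolynomial.mem_support_iff.mp hd)
      rw [Finsupp.weight_apply, Finsupp.sum] at this
      simpa using this
    rw [MvPolynomial.monomial_eq, map_mul, map_finsuppProd]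
    simp only [mul_pow, Finset.prod_mul_distrib, Finset.prod_pow_eq_pow_sum, hdeg, map_one,
      one_mul, Finsupp.prod, map_pow]
  rw [Finset.sum_congr rfl (fun d hd => by rw [h3 d hd])]
  have h4 : algebraMap (MvPolynomial σ ℤ) L p =
      ∑ d ∈ p.support, (Int.castRingHom L) (p.coeff d) *
      algebraMap (MvPolynomial σ ℤ) L (MvPolynomial.monomial d 1) := by
    conv_lhs => rw [p.as_sum]
    rw [map_sum]
    refine Finset.sum_congr rfl fun d _ => ?_
    have : MvPolynomial.monomial d (p.coeff d) = MvPolynomial.C (p.coeff d) *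
        MvPolynomial.monomial d 1 := by
      rw [MvPolynomial.C_mul_monomial, mul_one]
    rw [this, map_mul]
    congr 1
    simp
  have h5 : ∑ d ∈ p.support, (Int.castRingHom L) (p.coeff d) *
      (u ^ n * algebraMap (MvPolynomial σ ℤ) L (MvPolynomial.monomial d 1)) =
      u ^ n * algebraMap (MvPolynomial σ ℤ) L p := by
    rw [h4, Finset.mul_sum]
    refine Finset.sum_congr rfl fun d _ => by ring
  rw [h5, HomogeneousLocalization.algebraMap_apply, Away.val_mk, hu, Localization.mk_pow,
    ← Localization.mk_one_eq_algebraMap, Localization.mk_mul]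
  congr 1
  · simp
  · ext; simp

theorem aw_ext {R : Type} [CommRing R] (i : σ) (f g : Aw i →+* R)
    (h : ∀ k, f (crd i k) = g (crd i k)) : f = g := by
  ext x
  obtain ⟨n, p, hp, rfl⟩ := Away.mk_surjective (Gr σ) (X_mem i) x
  rw [val_mk_eq, MvPolynomial.coe_eval₂Hom, MvPolynomial.hom_eval₂, MvPolynomial.hom_eval₂]
  congr 1
  · exact RingHom.ext_int _ _
  · funext k; exact h k

/-- the homomorphism with `x_k / x_i ↦ r k` -/
noncomputable def chom {R : Type} [CommRing R] (i : σ) (r : σ → R) (hr : r i = 1) : Aw i →+* R :=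
  (IsLocalization.Away.lift (S := Localization.Away (MvPolynomial.X i : MvPolynomial σ ℤ))
    (MvPolynomial.X i : MvPolynomial σ ℤ)
    (g := MvPolynomial.eval₂Hom (Int.castRingHom R) r) (by simp [hr])).comp
    (algebraMap (Aw i) (Localization.Away (MvPolynomial.X i : MvPolynomial σ ℤ)))

lemma chom_crd {R : Type} [CommRing R] (i : σ) (r : σ → R) (hr : r i = 1) (k : σ) :
    chom i r hr (crd i k) = r k := by
  have hu : algebraMap (Aw i) (Localization.Away (MvPolynomial.X i : MvPolynomial σ ℤ))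
      (crd i k) * algebraMap (MvPolynomial σ ℤ)
        (Localization.Away (MvPolynomial.X i : MvPolynomial σ ℤ)) (MvPolynomial.X i)
      = algebraMap (MvPolynomial σ ℤ) _ (MvPolynomial.X k) := by
    rw [HomogeneousLocalization.algebraMap_apply, crd, Away.val_mk,
      ← Localization.mk_one_eq_algebraMap, ← Localization.mk_one_eq_algebraMap,
      Localization.mk_mul, Localization.mk_eq_mk_iff, Localization.r_iff_exists]
    exact ⟨1, by simp [mul_comm]⟩
  have := congrArg (IsLocalization.Away.lift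
    (S := Localization.Away (MvPolynomial.X i : MvPolynomial σ ℤ))
    (MvPolynomial.X i : MvPolynomial σ ℤ)
    (g := MvPolynomial.eval₂Hom (Int.castRingHom R) r) (by simp [hr])) hu
  rw [map_mul, IsLocalization.Away.lift_eq, IsLocalization.Away.lift_eq] at this
  simp only [MvPolynomial.coe_eval₂Hom, MvPolynomial.eval₂_X, hr, mul_one] at this
  exact this

lemma crd_rel (i j k : σ) :
    awayMap (Gr σ) (X_mem j) (x := MvPolynomial.X i * MvPolynomial.X j) rfl (crd i k) =
    awayMap (Gr σ) (X_mem j) (x := MvPolynomial.X i * MvPolynomial.X j) rfl (crd i j) *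
    awayMap (Gr σ) (X_mem i) (x := MvPolynomial.X i * MvPolynomial.X j) (mul_comm _ _)
      (crd j k) := by
  apply HomogeneousLocalization.val_injective
  rw [HomogeneousLocalization.val_mul]
  simp only [crd, awayMap_mk, Away.val_mk, Localization.mk_mul]
  rw [Localization.mk_eq_mk_iff, Localization.r_iff_exists]
  exact ⟨1, by simp; ring⟩

/-! ### morphisms to affine schemes -/

section Sec

variable {T T' : Scheme.{0}} {R S : Type} [CommRing R] [CommRing S]

/-- the ring homomorphism of a morphism to `Spec R` -/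
noncomputable def sec (a : T ⟶ Spec (CommRingCat.of R)) : R →+* Γ(T, ⊤) :=
  ((Scheme.ΓSpecIso (CommRingCat.of R)).inv ≫ a.appTop).hom

/-- the morphism to `Spec R` of a ring homomorphism -/
noncomputable def mkS (f : R →+* Γ(T, ⊤)) : T ⟶ Spec (CommRingCat.of R) :=
  T.toSpecΓ ≫ Spec.map (CommRingCat.ofHom f)

lemma sec_mkS (f : R →+* Γ(T, ⊤)) : sec (mkS f) = f := by
  have : (Scheme.ΓSpecIso (CommRingCat.of R)).inv ≫ (mkS f).appTop = CommRingCat.ofHom f := by
    rw [mkS, Scheme.Hom.comp_appTop, ← Scheme.ΓSpecIso_inv_naturality_assoc, Scheme.toSpecΓ_appTop,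
      Iso.inv_hom_id, Category.comp_id]
  rw [sec, this]
  rfl

lemma sec_injective {a b : T ⟶ Spec (CommRingCat.of R)} (h : sec a = sec b) : a = b := by
  have h1 : (Scheme.ΓSpecIso (CommRingCat.of R)).inv ≫ a.appTop =
      (Scheme.ΓSpecIso (CommRingCat.of R)).inv ≫ b.appTop := by
    ext x
    exact DFunLike.congr_fun h x
  rw [cancel_epi] at h1
  exact ext_of_isAffine h1

lemma sec_comp (g : T' ⟶ T) (a : T ⟶ Spec (CommRingCat.of R)) (r : R) :
    sec (g ≫ a) r = g.appTop.hom (sec a r) := by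
  simp [sec]

lemma sec_map (a : T ⟶ Spec (CommRingCat.of R)) (φ : S →+* R) :
    sec (a ≫ Spec.map (CommRingCat.ofHom φ)) = (sec a).comp φ := by
  have : (Scheme.ΓSpecIso (CommRingCat.of S)).inv ≫
      (a ≫ Spec.map (CommRingCat.ofHom φ)).appTop =
      CommRingCat.ofHom φ ≫ (Scheme.ΓSpecIso (CommRingCat.of R)).inv ≫ a.appTop := by
    rw [Scheme.Hom.comp_appTop, Scheme.ΓSpecIso_inv_naturality_assoc]
  rw [sec, this]
  rfl

end Sec

/-- projective space on the variables `σ` -/
noncomputable abbrev PS (σ : Type) : Scheme.{0} := Proj (Gr σ)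

/-- the chart -/
noncomputable abbrev Ch (i : σ) : Scheme.{0} := Spec (CommRingCat.of (Aw i))

/-- inclusion of the chart -/
noncomputable def ch (i : σ) : Ch i ⟶ PS σ :=
  Proj.awayι (Gr σ) (MvPolynomial.X i) (X_mem i) one_pos

instance (i : σ) : IsOpenImmersion (ch i) := by delta ch; infer_instance

section Coord

variable {T T' : Scheme.{0}}

/-- coordinates of a morphism to a chart -/
noncomputable def co {i : σ} (a : T ⟶ Ch i) (k : σ) : Γ(T, ⊤) := sec a (crd i k)

lemma co_self {i : σ} (a : T ⟶ Ch i) : co a i = 1 := by rw [co, crd_self, map_one]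

lemma ch_ext {i : σ} {a b : T ⟶ Ch i} (h : ∀ k, co a k = co b k) : a = b :=
  sec_injective (aw_ext i _ _ h)

/-- the morphism with given coordinates -/
noncomputable def mkC (i : σ) (r : σ → Γ(T, ⊤)) (hr : r i = 1) : T ⟶ Ch i := mkS (chom i r hr)

lemma co_mkC (i : σ) (r : σ → Γ(T, ⊤)) (hr : r i = 1) (k : σ) : co (mkC i r hr) k = r k := by
  rw [co, mkC, sec_mkS, chom_crd]

lemma co_comp {i : σ} (g : T' ⟶ T) (a : T ⟶ Ch i) (k : σ) :
    co (g ≫ a) k = g.appTop.hom (co a k) := sec_comp g a _

/-- the ring of the intersection of two charts -/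
abbrev Aw2 (i j : σ) : Type :=
  Away (Gr σ) (MvPolynomial.X i * MvPolynomial.X j : MvPolynomial σ ℤ)

/-- first localisation map -/
noncomputable def am (i j : σ) : Aw i →+* Aw2 i j :=
  awayMap (Gr σ) (X_mem j) (x := MvPolynomial.X i * MvPolynomial.X j) rfl

/-- second localisation map -/
noncomputable def am' (i j : σ) : Aw j →+* Aw2 i j :=
  awayMap (Gr σ) (X_mem i) (x := MvPolynomial.X i * MvPolynomial.X j) (mul_comm _ _)

lemma am_rel (i j k : σ) : am i j (crd i k) = am i j (crd i j) * am' i j (crd j k) :=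
  crd_rel i j k

lemma spec_am_ch (i j : σ) : Spec.map (CommRingCat.ofHom (am i j)) ≫ ch i =
    Spec.map (CommRingCat.ofHom (am' i j)) ≫ ch j := by
  have h1 := Proj.SpecMap_awayMap_awayι (Gr σ) (X_mem i) one_pos (X_mem j)
    (x := MvPolynomial.X i * MvPolynomial.X j) rfl
  have h2 := Proj.SpecMap_awayMap_awayι (Gr σ) (X_mem j) one_pos (X_mem i)
    (x := MvPolynomial.X i * MvPolynomial.X j) (mul_comm _ _)
  exact h1.trans h2.symm

/-- coordinates on two charts -/
theorem L1 {i j : σ} {a : T ⟶ Ch i} {b : T ⟶ Ch j} (h : a ≫ ch i = b ≫ ch j) (k : σ) :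
    co a k = co a j * co b k := by
  let c : T ⟶ Spec (CommRingCat.of (Aw2 i j)) := pullback.lift a b h ≫
    (Proj.pullbackAwayιIso (Gr σ) (X_mem i) one_pos (X_mem j) one_pos
      (x := MvPolynomial.X i * MvPolynomial.X j) rfl).hom
  have hca : c ≫ Spec.map (CommRingCat.ofHom (am i j)) = a := by
    simp only [c, Category.assoc]
    erw [Proj.pullbackAwayιIso_hom_SpecMap_awayMap_left (Gr σ) (X_mem i) one_pos (X_mem j) one_pos
      (x := MvPolynomial.X i * MvPolynomial.X j) rfl]
    exact pullback.lift_fst _ _ _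
  have hcb : c ≫ Spec.map (CommRingCat.ofHom (am' i j)) = b := by
    simp only [c, Category.assoc]
    erw [Proj.pullbackAwayιIso_hom_SpecMap_awayMap_right (Gr σ) (X_mem i) one_pos (X_mem j)
      one_pos (x := MvPolynomial.X i * MvPolynomial.X j) rfl]
    exact pullback.lift_snd _ _ _
  simp only [co]
  rw [← hca, ← hcb, sec_map, sec_map]
  simp only [RingHom.comp_apply]
  rw [am_rel, map_mul]

/-- compatibility of charts -/
theorem L2 {i j : σ} {a : T ⟶ Ch i} {b : T ⟶ Ch j} (h : ∀ k, co a k = co a j * co b k) :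
    a ≫ ch i = b ≫ ch j := by
  have hu : co a j * co b i = 1 := by rw [← h i, co_self]
  let : Algebra (Aw i) (Aw2 i j) := (am i j).toAlgebra
  have : IsLocalization.Away (Away.isLocalizationElem (X_mem i) (X_mem j)) (Aw2 i j) :=
    Away.isLocalization_mul (X_mem i) (X_mem j) rfl one_ne_zero
  have he0 : (Away.isLocalizationElem (X_mem i) (X_mem j) : Aw i) = crd i j := by
    simp [Away.isLocalizationElem, crd]
  have : IsLocalization.Away (crd i j) (Aw2 i j) := he0 ▸ this
  let e : Aw2 i j →+* Γ(T, ⊤) := IsLocalization.Away.lift (crd i j) (g := sec a)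
    (IsUnit.of_mul_eq_one _ hu)
  have hea : ∀ x, e (am i j x) = sec a x := fun x => IsLocalization.Away.lift_eq (crd i j) _ x
  have h1 : (mkS e) ≫ Spec.map (CommRingCat.ofHom (am i j)) = a := by
    apply sec_injective
    rw [sec_map, sec_mkS]
    ext x
    exact hea x
  have h2 : (mkS e) ≫ Spec.map (CommRingCat.ofHom (am' i j)) = b := by
    apply ch_ext
    intro k
    rw [co, sec_map, sec_mkS]
    have h3 := congrArg e (am_rel i j k)
    rw [map_mul, hea, hea] at h3
    have h4 : co a k = co a j * e (am' i j (crd j k)) := h3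
    rw [h k] at h4
    have h5 : co b i * (co a j * co b k) = co b i * (co a j * e (am' i j (crd j k))) := by rw [h4]
    rw [← mul_assoc, ← mul_assoc, mul_comm (co b i), hu, one_mul, one_mul] at h5
    exact h5.symm
  rw [← h1, ← h2, Category.assoc, Category.assoc, spec_am_ch]

end Coord


section Geom

variable {σ τ ρ : Type} (e : σ × τ ≃ ρ)

/-- charts of the product -/
noncomputable abbrev U (i : σ) (j : τ) : Scheme.{0} := Ch i ⨯ Ch j

/-- inclusion of charts of the product -/
noncomputable def u (i : σ) (j : τ) : U i j ⟶ PS σ ⨯ PS τ := prod.map (ch i) (ch j)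

lemma u_fst (i : σ) (j : τ) : u i j ≫ prod.fst = prod.fst ≫ ch i := by simp [u]
lemma u_snd (i : σ) (j : τ) : u i j ≫ prod.snd = prod.snd ≫ ch j := by simp [u]

lemma isOpenImmersion_prod_map_id {X X' Y : Scheme.{0}} (f : X ⟶ X') [IsOpenImmersion f] :
    IsOpenImmersion (prod.map f (𝟙 Y)) := by
  have h1 : IsPullback (prod.map f (𝟙 Y)) prod.fst prod.fst f := by
    refine ⟨⟨Limits.prod.map_fst _ _⟩, ⟨PullbackCone.IsLimit.mk _
      (fun s => prod.lift s.snd (s.fst ≫ prod.snd)) ?_ ?_ ?_⟩⟩
    · intro s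
      apply Limits.prod.hom_ext
      · rw [Category.assoc, Limits.prod.map_fst, Limits.prod.lift_fst_assoc]
        exact s.condition.symm
      · rw [Category.assoc, Limits.prod.map_snd, Category.comp_id, Limits.prod.lift_snd]
    · intro s
      exact Limits.prod.lift_fst _ _
    · intro s m h1 h2
      apply Limits.prod.hom_ext
      · rw [Limits.prod.lift_fst]; exact h2
      · rw [Limits.prod.lift_snd, ← h1, Category.assoc, Limits.prod.map_snd, Category.comp_id]
  exact MorphismProperty.of_isPullback h1.flip inferInstance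

lemma isOpenImmersion_id_prod_map {X Y Y' : Scheme.{0}} (g : Y ⟶ Y') [IsOpenImmersion g] :
    IsOpenImmersion (prod.map (𝟙 X) g) := by
  have h1 : IsPullback (prod.map (𝟙 X) g) prod.snd prod.snd g := by
    refine ⟨⟨Limits.prod.map_snd _ _⟩, ⟨PullbackCone.IsLimit.mk _
      (fun s => prod.lift (s.fst ≫ prod.fst) s.snd) ?_ ?_ ?_⟩⟩
    · intro s
      apply Limits.prod.hom_ext
      · rw [Category.assoc, Limits.prod.map_fst, Category.comp_id, Limits.prod.lift_fst]
      · rw [Category.assoc, Limits.prod.map_snd, Limits.prod.lift_snd_assoc]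
        exact s.condition.symm
    · intro s
      exact Limits.prod.lift_snd _ _
    · intro s m h1 h2
      apply Limits.prod.hom_ext
      · rw [Limits.prod.lift_fst, ← h1, Category.assoc, Limits.prod.map_fst, Category.comp_id]
      · rw [Limits.prod.lift_snd]; exact h2
  exact MorphismProperty.of_isPullback h1.flip inferInstance

instance (i : σ) (j : τ) : IsOpenImmersion (u i j) := by
  have h : u i j = prod.map (ch i) (𝟙 (Ch j)) ≫ prod.map (𝟙 (PS σ)) (ch j) := by
    rw [u, Limits.prod.map_map, Category.comp_id, Category.id_comp]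
  have := isOpenImmersion_prod_map_id (Y := Ch j) (ch i)
  have := isOpenImmersion_id_prod_map (X := PS σ) (ch j)
  rw [h]
  infer_instance

lemma range_ch (i : σ) : (ch i).opensRange = Proj.basicOpen (Gr σ) (MvPolynomial.X i) :=
  Proj.opensRange_awayι ..

lemma irrelevant_le : (HomogeneousIdeal.irrelevant (Gr σ)).toIdeal ≤
    Ideal.span (Set.range fun i : σ => (MvPolynomial.X i : MvPolynomial σ ℤ)) := by
  intro p hp
  have h0 : MvPolynomial.coeff 0 p = 0 := by
    have h1 := (HomogeneousIdeal.mem_irrelevant_iff (Gr σ) p).mp hp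
    rw [GradedRing.proj_apply] at h1
    have h2 : ((DirectSum.decompose (Gr σ) p) 0 : MvPolynomial σ ℤ) =
      MvPolynomial.homogeneousComponent 0 p :=
      MvPolynomial.decomposition.decompose'_apply p 0
    rw [h2, MvPolynomial.homogeneousComponent_zero] at h1
    exact (MvPolynomial.C_eq_zero.mp h1)
  rw [← Set.image_univ, MvPolynomial.mem_ideal_span_X_image]
  intro m hm
  by_contra hcon
  push Not at hcon
  have : m = 0 := by
    ext i
    exact hcon i (Set.mem_univ _)
  subst this
  exact (MvPolynomial.mem_support_iff.mp hm) h0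

/-- the standard cover -/
noncomputable def cov (σ : Type) : (PS σ).AffineOpenCover :=
  Proj.affineOpenCoverOfIrrelevantLESpan (Gr σ) (fun i : σ => MvPolynomial.X i)
    (m := fun _ => 1) X_mem (fun _ => one_pos) irrelevant_le

lemma exists_mem_range (x : PS σ) : ∃ i, x ∈ Set.range (ch i) :=
  ⟨(cov σ).idx x, (cov σ).covers x⟩

lemma exists_mem_range_u (x : (PS σ ⨯ PS τ : Scheme.{0})) :
    ∃ ij : σ × τ, x ∈ Set.range (u ij.1 ij.2) := by
  obtain ⟨i, hi⟩ := exists_mem_range ((prod.fst : PS σ ⨯ PS τ ⟶ PS σ) x)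
  obtain ⟨j, hj⟩ := exists_mem_range ((prod.snd : PS σ ⨯ PS τ ⟶ PS τ) x)
  let P : Scheme.{0} := PS σ ⨯ PS τ
  let f : Spec (P.residueField x) ⟶ P := P.fromSpecResidueField x
  have h1 : Set.range (f ≫ (prod.fst : PS σ ⨯ PS τ ⟶ PS σ)) ⊆ Set.range (ch i) := by
    rintro _ ⟨s, rfl⟩
    rw [Scheme.Hom.comp_apply, Scheme.fromSpecResidueField_apply]
    exact hi
  have h2 : Set.range (f ≫ (prod.snd : PS σ ⨯ PS τ ⟶ PS τ)) ⊆ Set.range (ch j) := by
    rintro _ ⟨s, rfl⟩
    rw [Scheme.Hom.comp_apply, Scheme.fromSpecResidueField_apply]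
    exact hj
  let g : Spec (P.residueField x) ⟶ U i j :=
    prod.lift (IsOpenImmersion.lift (ch i) _ h1) (IsOpenImmersion.lift (ch j) _ h2)
  have hg : g ≫ u i j = f := by
    apply Limits.prod.hom_ext
    · rw [Category.assoc, u_fst, prod.lift_fst_assoc, IsOpenImmersion.lift_fac]
    · rw [Category.assoc, u_snd, prod.lift_snd_assoc, IsOpenImmersion.lift_fac]
  have hx : x ∈ Set.range f := by
    rw [Scheme.range_fromSpecResidueField]
    exact Set.mem_singleton x
  obtain ⟨s, hs⟩ := hx
  refine ⟨(i, j), g s, ?_⟩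
  rw [← Scheme.Hom.comp_apply, hg, hs]

/-- cover of the product -/
noncomputable def pcov (σ τ : Type) : (PS σ ⨯ PS τ : Scheme.{0}).OpenCover where
  I₀ := σ × τ
  X ij := U ij.1 ij.2
  f ij := u ij.1 ij.2
  mem₀ := by
    rw [Scheme.presieve₀_mem_precoverage_iff]
    exact ⟨exists_mem_range_u, inferInstance⟩

/-- local Segre map -/
noncomputable def v (i : σ) (j : τ) : U i j ⟶ Ch (e (i, j)) :=
  mkC (e (i, j)) (fun t => co (prod.fst : U i j ⟶ Ch i) (e.symm t).1 *
    co (prod.snd : U i j ⟶ Ch j) (e.symm t).2) (by simp [co_self])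

lemma co_v {T : Scheme.{0}} (i : σ) (j : τ) (f : T ⟶ U i j) (k : σ) (l : τ) :
    co (f ≫ v e i j) (e (k, l)) = co (f ≫ prod.fst) k * co (f ≫ prod.snd) l := by
  rw [co_comp, v, co_mkC, map_mul, ← co_comp, ← co_comp]
  simp

lemma compat {T : Scheme.{0}} {i i' : σ} {j j' : τ} (f : T ⟶ U i j) (g : T ⟶ U i' j')
    (h : f ≫ u i j = g ≫ u i' j') :
    f ≫ v e i j ≫ ch (e (i, j)) = g ≫ v e i' j' ≫ ch (e (i', j')) := by
  have h1 : (f ≫ prod.fst) ≫ ch i = (g ≫ prod.fst) ≫ ch i' := by
    rw [Category.assoc, Category.assoc, ← u_fst, ← u_fst, reassoc_of% h]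
  have h2 : (f ≫ prod.snd) ≫ ch j = (g ≫ prod.snd) ≫ ch j' := by
    rw [Category.assoc, Category.assoc, ← u_snd, ← u_snd, reassoc_of% h]
  rw [← Category.assoc, ← Category.assoc]
  apply L2
  intro t
  obtain ⟨⟨k, l⟩, rfl⟩ := e.surjective t
  rw [co_v, co_v, co_v, L1 h1 k, L1 h2 l]
  ring

/-- the Segre morphism -/
noncomputable def sg : PS σ ⨯ PS τ ⟶ PS ρ :=
  (pcov σ τ).glueMorphisms (fun ij => v e ij.1 ij.2 ≫ ch (e (ij.1, ij.2)))
    (fun _ _ => compat e _ _ pullback.condition)

lemma u_sg (i : σ) (j : τ) : u i j ≫ sg e = v e i j ≫ ch (e (i, j)) :=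
  Scheme.Cover.ι_glueMorphisms (pcov σ τ) _ _ (i, j)

/-- the retraction -/
noncomputable def w (i : σ) (j : τ) : Ch (e (i, j)) ⟶ U i j :=
  prod.lift (mkC i (fun k => co (𝟙 _) (e (k, j))) (co_self _))
    (mkC j (fun l => co (𝟙 _) (e (i, l))) (co_self _))

lemma co_w_fst {T : Scheme.{0}} (i : σ) (j : τ) (f : T ⟶ Ch (e (i, j))) (k : σ) :
    co (f ≫ w e i j ≫ prod.fst) k = co f (e (k, j)) := by
  rw [w, prod.lift_fst, co_comp, co_mkC, ← co_comp, Category.comp_id]

lemma co_w_snd {T : Scheme.{0}} (i : σ) (j : τ) (f : T ⟶ Ch (e (i, j))) (l : τ) :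
    co (f ≫ w e i j ≫ prod.snd) l = co f (e (i, l)) := by
  rw [w, prod.lift_snd, co_comp, co_mkC, ← co_comp, Category.comp_id]

lemma v_w (i : σ) (j : τ) : v e i j ≫ w e i j = 𝟙 _ := by
  apply Limits.prod.hom_ext
  · apply ch_ext
    intro k
    rw [Category.assoc, co_w_fst, Category.id_comp, ← Category.id_comp (v e i j), co_v,
      Category.id_comp, Category.id_comp, co_self, mul_one]
  · apply ch_ext
    intro k
    rw [Category.assoc, co_w_snd, Category.id_comp, ← Category.id_comp (v e i j), co_v,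
      Category.id_comp, Category.id_comp, co_self, one_mul]

instance (i : σ) (j : τ) : IsClosedImmersion (v e i j) := by
  have : IsClosedImmersion (v e i j ≫ w e i j) := by rw [v_w]; infer_instance
  exact IsClosedImmersion.of_comp (v e i j) (w e i j)

lemma key_aux {T : Scheme.{0}} {i k : σ} {j l : τ} (t : T ⟶ U k l) (c : T ⟶ Ch (e (i, j)))
    (h : t ≫ v e k l ≫ ch (e (k, l)) = c ≫ ch (e (i, j))) :
    (c ≫ w e i j) ≫ u i j = t ≫ u k l := by
  have h' : c ≫ ch (e (i, j)) = (t ≫ v e k l) ≫ ch (e (k, l)) := by rw [← h, Category.assoc]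
  have hγ : ∀ p q, co c (e (p, q)) = co c (e (k, l)) * (co (t ≫ prod.fst) p * co (t ≫ prod.snd) q) := by
    intro p q
    rw [L1 h', co_v]
  apply Limits.prod.hom_ext
  · rw [Category.assoc, Category.assoc, Category.assoc, u_fst, u_fst]
    have : (c ≫ w e i j ≫ prod.fst) ≫ ch i = (t ≫ prod.fst) ≫ ch k := by
      apply L2
      intro p
      rw [co_w_fst, co_w_fst, hγ p j, hγ k j, co_self]
      ring
    simpa using this
  · rw [Category.assoc, Category.assoc, Category.assoc, u_snd, u_snd]
    have : (c ≫ w e i j ≫ prod.snd) ≫ ch j = (t ≫ prod.snd) ≫ ch l := by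
      apply L2
      intro p
      rw [co_w_snd, co_w_snd, hγ i p, hγ i l, co_self]
      ring
    simpa using this

lemma key {T : Scheme.{0}} {i : σ} {j : τ} (t : T ⟶ PS σ ⨯ PS τ) (c : T ⟶ Ch (e (i, j)))
    (h : t ≫ sg e = c ≫ ch (e (i, j))) : (c ≫ w e i j) ≫ u i j = t := by
  apply Scheme.Cover.hom_ext ((pcov σ τ).pullback₁ t)
  rintro ⟨k, l⟩
  change pullback.fst t (u k l) ≫ _ = pullback.fst t (u k l) ≫ _
  rw [pullback.condition, ← Category.assoc, ← Category.assoc]
  apply key_aux
  rw [← u_sg, ← pullback.condition_assoc, h, Category.assoc]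

lemma isPullback_sg (i : σ) (j : τ) :
    IsPullback (u i j) (v e i j) (sg e) (ch (e (i, j))) := by
  refine ⟨⟨u_sg e i j⟩, ⟨PullbackCone.IsLimit.mk _ (fun s => s.snd ≫ w e i j) ?_ ?_ ?_⟩⟩
  · intro s
    exact key e s.fst s.snd s.condition
  · intro s
    rw [← cancel_mono (ch (e (i, j))), Category.assoc, ← u_sg, ← Category.assoc,
      key e s.fst s.snd s.condition, s.condition]
  · intro s m h1 h2
    rw [← h2, Category.assoc, v_w, Category.comp_id]

theorem isClosedImmersion_sg : IsClosedImmersion (sg e) := by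
  rw [IsZariskiLocalAtTarget.iff_of_openCover (P := @IsClosedImmersion) (cov ρ).openCover]
  intro r
  obtain ⟨⟨i, j⟩, hr⟩ := e.surjective r
  subst hr
  change IsClosedImmersion (pullback.snd (sg e) (ch (e (i, j))))
  rw [← (isPullback_sg e i j).isoPullback_inv_snd,
    MorphismProperty.cancel_left_of_respectsIso @IsClosedImmersion]
  infer_instance

end Geom

end SegreAux

/-- Segre embedding. -/
theorem segre (m n : ℕ) : ∃ (N : ℕ) (s : PZ m ⨯ PZ n ⟶ PZ N), IsImmersion s := by
  let e : Fin (m + 1) × Fin (n + 1) ≃ Fin (m * n + m + n + 1) :=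
    finProdFinEquiv.trans (finCongr (by ring))
  have h : IsClosedImmersion (SegreAux.sg e) := SegreAux.isClosedImmersion_sg e
  have h' : IsImmersion (SegreAux.sg e) := inferInstance
  exact ⟨m * n + m + n, SegreAux.sg e, h'⟩

end MP8178
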