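import Mathlib

open TensorProduct CategoryTheory

namespace MP8178

/-- Generic smoothness: a finitely generated subalgebra of a field extension of a perfect field
is contained in one which is smooth. -/
theorem exists_smooth_subalgebra {k K : Type} [Field k] [PerfectField k] [Field K] [Algebra k K]
    (R : Subalgebra k K) (hR : R.FG) :
    ∃ R' : Subalgebra k K, R ≤ R' ∧ R'.FG ∧ Algebra.Smooth k R' := by
  classical
  have hft : Algebra.FiniteType k R := ⟨R.fg_top.2 hR⟩
  have hfp : Algebra.FinitePresentation k R := Algebra.FinitePresentation.of_finiteType.1 hft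
  have hess : Algebra.EssFiniteType R (FractionRing R) :=
    Algebra.EssFiniteType.of_isLocalization _ (nonZeroDivisors R)
  have hess' : Algebra.EssFiniteType k (FractionRing R) := Algebra.EssFiniteType.comp k R _
  have hsm : Algebra.FormallySmooth k (FractionRing R) := inferInstance
  have hcomp : (⊥ : Ideal R).primeCompl = nonZeroDivisors R := by
    ext x
    rw [mem_nonZeroDivisors_iff_ne_zero]
    exact Iff.rfl
  have hloc : IsLocalization (nonZeroDivisors R) (Localization.AtPrime (⊥ : Ideal R)) := by
    rw [← hcomp]
    infer_instance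
  let e : FractionRing R ≃ₐ[R] Localization.AtPrime (⊥ : Ideal R) :=
    IsLocalization.algEquiv (nonZeroDivisors R) _ _
  have hsm' : Algebra.IsSmoothAt k (⊥ : Ideal R) :=
    Algebra.FormallySmooth.of_equiv (e.restrictScalars k)
  obtain ⟨f, hf, hfs⟩ := Algebra.IsSmoothAt.exists_notMem_smooth k (⊥ : Ideal R)
  have hf0 : f ≠ 0 := hf
  have hunit : IsUnit (R.val f) := by
    rw [isUnit_iff_ne_zero]
    intro h
    exact hf0 (Subtype.ext h)
  have hunits : ∀ y : Submonoid.powers f, IsUnit (R.val y) := by
    rintro ⟨_, n, rfl⟩
    simp only [map_pow]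
    exact hunit.pow n
  let g : Localization.Away f →ₐ[k] K :=
    IsLocalization.liftAlgHom (M := Submonoid.powers f) (f := R.val) hunits
  have hg : ∀ x : R, g (algebraMap R _ x) = x := by
    intro x
    exact IsLocalization.lift_eq (M := Submonoid.powers f) (g := R.val.toRingHom) hunits x
  have hginj : Function.Injective g := by
    have h1 : Function.Injective (algebraMap R (Localization.Away f)) :=
      IsLocalization.injective _ (powers_le_nonZeroDivisors_of_noZeroDivisors hf0)
    refine (IsLocalization.lift_injective_iff (M := Submonoid.powers f) (g := R.val.toRingHom)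
      hunits).2 fun x y => ⟨fun h => by rw [h1 h], fun h => ?_⟩
    have : x = y := Subtype.ext h
    rw [this]
  let e' : Localization.Away f ≃ₐ[k] g.range := AlgEquiv.ofInjective g hginj
  refine ⟨g.range, ?_, ?_, Algebra.Smooth.of_equiv e'⟩
  · intro x hx
    exact ⟨algebraMap R _ ⟨x, hx⟩, hg ⟨x, hx⟩⟩
  · rw [← g.range.fg_top]
    have h1 : Algebra.FiniteType k (Localization.Away f) := inferInstance
    exact (h1.equiv e').out

end MP8178
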