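import Pool.Agent.Lib_MP_8178ab_ag.SpreadAlg1
import Pool.Agent.Lib_MP_8178ab_ag.SpreadAlg2

open TensorProduct CategoryTheory

namespace MP8178

/-- Spreading out of finite étale algebras over `K ⊗ A`. -/
theorem spread_alg {k K A B : Type} [Field k] [PerfectField k] [Field K] [Algebra k K]
    [CommRing A] [Algebra k A] [CommRing B] [Algebra (K ⊗[k] A) B]
    (hB : Module.Finite (K ⊗[k] A) B) (hB' : Algebra.Etale (K ⊗[k] A) B) :
    ∃ (R : Type) (_ : CommRing R) (_ : Algebra k R) (_ : IsDomain R) (_ : Algebra.Smooth k R)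
      (ι : R →ₐ[k] K) (B₀ : Type) (_ : CommRing B₀) (_ : Algebra (R ⊗[k] A) B₀)
      (g : B₀ →+* B), Module.Finite (R ⊗[k] A) B₀ ∧ Algebra.Etale (R ⊗[k] A) B₀ ∧
      IsPushout (CommRingCat.ofHom (algebraMap (R ⊗[k] A) B₀))
        (CommRingCat.ofHom (Algebra.TensorProduct.map ι (AlgHom.id k A) :
          R ⊗[k] A →+* K ⊗[k] A))
        (CommRingCat.ofHom g) (CommRingCat.ofHom (algebraMap (K ⊗[k] A) B)) := by
  obtain ⟨R, B₀, iC, iA, g, hR, hfin, het, hpo⟩ := spread_fg hB hB'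
  obtain ⟨R', hle, hR', hsm⟩ := exists_smooth_subalgebra R hR
  let m : R ⊗[k] A →+* R' ⊗[k] A :=
    (Algebra.TensorProduct.map (Subalgebra.inclusion hle) (AlgHom.id k A) : R ⊗[k] A →ₐ[k] R' ⊗[k] A)
  let i1 : Algebra (R ⊗[k] A) (R' ⊗[k] A) := m.toAlgebra
  let B₁ : Type := (R' ⊗[k] A) ⊗[R ⊗[k] A] B₀
  have ht := CommRingCat.isPushout_tensorProduct (R ⊗[k] A) (R' ⊗[k] A) B₀
  have ht' : IsPushout (CommRingCat.ofHom m) (CommRingCat.ofHom (algebraMap (R ⊗[k] A) B₀))
      (CommRingCat.ofHom (algebraMap (R' ⊗[k] A) B₁))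
      (CommRingCat.ofHom (Algebra.TensorProduct.includeRight.toRingHom : B₀ →+* B₁)) := ht
  have hcomp : CommRingCat.ofHom m ≫
      CommRingCat.ofHom (Algebra.TensorProduct.map R'.val (AlgHom.id k A) :
          R' ⊗[k] A →+* K ⊗[k] A) = CommRingCat.ofHom (Algebra.TensorProduct.map R.val
            (AlgHom.id k A) : R ⊗[k] A →+* K ⊗[k] A) := by
    rw [← CommRingCat.ofHom_comp]
    congr 1
    have : (Algebra.TensorProduct.map R'.val (AlgHom.id k A)).comp
        (Algebra.TensorProduct.map (Subalgebra.inclusion hle) (AlgHom.id k A)) =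
        Algebra.TensorProduct.map R.val (AlgHom.id k A) := by
      ext x <;> simp
    exact congrArg (fun f : R ⊗[k] A →ₐ[k] K ⊗[k] A => (f : R ⊗[k] A →+* K ⊗[k] A)) this
  have hw : CommRingCat.ofHom m ≫
      (CommRingCat.ofHom (Algebra.TensorProduct.map R'.val (AlgHom.id k A) :
          R' ⊗[k] A →+* K ⊗[k] A) ≫ CommRingCat.ofHom (algebraMap (K ⊗[k] A) B)) =
      CommRingCat.ofHom (algebraMap (R ⊗[k] A) B₀) ≫ CommRingCat.ofHom g := by
    rw [← Category.assoc, hcomp]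
    exact hpo.w.symm
  let d := ht'.desc _ _ hw
  refine ⟨R', inferInstance, inferInstance, inferInstance, hsm, R'.val, B₁, inferInstance,
    inferInstance, d.hom, inferInstance, ?_, ?_⟩
  · infer_instance
  · refine IsPushout.flip (IsPushout.of_left (h₁₁ := CommRingCat.ofHom m)
      (v₁₁ := CommRingCat.ofHom (algebraMap (R ⊗[k] A) B₀))
      (h₂₁ := CommRingCat.ofHom (Algebra.TensorProduct.includeRight.toRingHom : B₀ →+* B₁))
      ?_ ?_ ht')
    · rw [hcomp, CommRingCat.ofHom_hom, ht'.inr_desc]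
      exact hpo.flip
    · exact (ht'.inl_desc _ _ hw).symm

end MP8178
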