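import Mathlib

open TensorProduct CategoryTheory

namespace MP8178

section Abstract

variable {T₀ R' T B₁ B : Type} [CommRing T₀] [CommRing R'] [CommRing T] [CommRing B₁] [CommRing B]
  [Algebra T₀ R'] [Algebra R' T] [Algebra T₀ T] [IsScalarTower T₀ R' T] [Algebra T₀ B₁]
  [Algebra T B]

variable (T₀ R' T B₁) in
/-- the base change map. -/
noncomputable def midMap : R' ⊗[T₀] B₁ →ₐ[T₀] T ⊗[T₀] B₁ :=
  Algebra.TensorProduct.map (IsScalarTower.toAlgHom T₀ R' T) (AlgHom.id T₀ B₁)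

theorem midMap_tmul (r : R') (b : B₁) :
    midMap T₀ R' T B₁ (r ⊗ₜ[T₀] b) = algebraMap R' T r ⊗ₜ[T₀] b := by
  simp [midMap]

theorem spread_isPushout (e : B ≃ₐ[T] T ⊗[T₀] B₁) :
    IsPushout (CommRingCat.ofHom (algebraMap R' (R' ⊗[T₀] B₁)))
      (CommRingCat.ofHom (algebraMap R' T))
      (CommRingCat.ofHom ((e.symm : T ⊗[T₀] B₁ →+* B).comp (midMap T₀ R' T B₁ : _ →+* _)))
      (CommRingCat.ofHom (algebraMap T B)) := by
  have h₁ := CommRingCat.isPushout_tensorProduct T₀ R' B₁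
  have h₂ := CommRingCat.isPushout_tensorProduct T₀ T B₁
  let i : CommRingCat.of (T ⊗[T₀] B₁) ≅ CommRingCat.of B := e.symm.toRingEquiv.toCommRingCatIso
  have h₃ : IsPushout (CommRingCat.ofHom (algebraMap T₀ T)) (CommRingCat.ofHom (algebraMap T₀ B₁))
      (CommRingCat.ofHom (algebraMap T B))
      (CommRingCat.ofHom ((e.symm : T ⊗[T₀] B₁ →+* B).comp
        (Algebra.TensorProduct.includeRight : B₁ →ₐ[T₀] T ⊗[T₀] B₁).toRingHom)) := by
    refine h₂.of_iso (Iso.refl _) (Iso.refl _) (Iso.refl _) i (by simp) (by simp) ?_ ?_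
    · ext x
      change e.symm (algebraMap T _ x) = algebraMap T B x
      rw [AlgEquiv.commutes]
    · ext x
      rfl
  have h₄ : CommRingCat.ofHom (algebraMap T₀ T) =
    CommRingCat.ofHom (algebraMap T₀ R') ≫ CommRingCat.ofHom (algebraMap R' T) := by
    rw [← CommRingCat.ofHom_comp, ← IsScalarTower.algebraMap_eq]
  have h₅ : CommRingCat.ofHom ((e.symm : T ⊗[T₀] B₁ →+* B).comp
        (Algebra.TensorProduct.includeRight : B₁ →ₐ[T₀] T ⊗[T₀] B₁).toRingHom) =
      CommRingCat.ofHom (Algebra.TensorProduct.includeRight : B₁ →ₐ[T₀] R' ⊗[T₀] B₁).toRingHom ≫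
      CommRingCat.ofHom ((e.symm : T ⊗[T₀] B₁ →+* B).comp (midMap T₀ R' T B₁ : _ →+* _)) := by
    ext x
    change e.symm (1 ⊗ₜ x) = e.symm (midMap T₀ R' T B₁ (1 ⊗ₜ x))
    rw [midMap_tmul, map_one]
  rw [h₄, h₅] at h₃
  refine (IsPushout.of_left h₃ ?_ h₁).flip
  ext x
  change algebraMap T B (algebraMap R' T x) = e.symm (midMap T₀ R' T B₁ (x ⊗ₜ 1))
  rw [midMap_tmul, ← e.symm.commutes]
  rfl

theorem spread_finite [Module.Flat T₀ B₁] (hinj : Function.Injective (algebraMap R' T))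
    (G : Finset B₁) (hG : Algebra.adjoin T₀ (G : Set B₁) = ⊤)
    (p : B₁ → Polynomial T) (hp : ∀ b, (p b).Monic)
    (hp0 : ∀ b, Polynomial.eval₂ (algebraMap T (T ⊗[T₀] B₁)) (1 ⊗ₜ b) (p b) = 0)
    (hl : ∀ b ∈ G, p b ∈ Polynomial.lifts (algebraMap R' T)) :
    Module.Finite R' (R' ⊗[T₀] B₁) := by
  have hinj' : Function.Injective (midMap T₀ R' T B₁) := by
    have h := Module.Flat.rTensor_preserves_injective_linearMap (M := B₁)
      (IsScalarTower.toAlgHom T₀ R' T).toLinearMap hinj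
    exact h
  have hft : Algebra.FiniteType T₀ B₁ := ⟨G, hG⟩
  have hft' : Algebra.FiniteType R' (R' ⊗[T₀] B₁) := inferInstance
  have hG' : ∀ b ∈ G, IsIntegral R' ((1 : R') ⊗ₜ[T₀] b) := by
    intro b hb
    obtain ⟨q, hq, -, hqm⟩ := Polynomial.lifts_and_natDegree_eq_and_monic (hl b hb) (hp b)
    refine ⟨q, hqm, ?_⟩
    apply hinj'
    have h1 := hp0 b
    rw [← hq, Polynomial.eval₂_map] at h1
    rw [map_zero, ← h1]
    change (midMap T₀ R' T B₁ : R' ⊗[T₀] B₁ →+* T ⊗[T₀] B₁) _ = _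
    rw [Polynomial.hom_eval₂]
    have h2 : (midMap T₀ R' T B₁ : R' ⊗[T₀] B₁ →+* T ⊗[T₀] B₁).comp
        (algebraMap R' (R' ⊗[T₀] B₁)) =
        (algebraMap T (T ⊗[T₀] B₁)).comp (algebraMap R' T) := by
      ext x
      change midMap T₀ R' T B₁ (x ⊗ₜ 1) = _
      rw [midMap_tmul]
      rfl
    have h3 : (midMap T₀ R' T B₁ : R' ⊗[T₀] B₁ →+* T ⊗[T₀] B₁) (1 ⊗ₜ b) = 1 ⊗ₜ b := by
      change midMap T₀ R' T B₁ (1 ⊗ₜ b) = _
      rw [midMap_tmul, map_one]
    rw [h2, h3]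
  have hall : ∀ b : B₁, IsIntegral R' ((1 : R') ⊗ₜ[T₀] b) := by
    intro b
    have h1 : Algebra.adjoin T₀ (G : Set B₁) ≤
        ((integralClosure R' (R' ⊗[T₀] B₁)).restrictScalars T₀).comap
          Algebra.TensorProduct.includeRight := by
      rw [Algebra.adjoin_le_iff]
      intro x hx
      exact hG' x hx
    rw [hG] at h1
    exact h1 (Algebra.mem_top : b ∈ ⊤)
  have hint : Algebra.IsIntegral R' (R' ⊗[T₀] B₁) := by
    refine ⟨fun x => ?_⟩
    induction x using TensorProduct.induction_on with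
    | zero => exact isIntegral_zero
    | tmul r b =>
      have : r ⊗ₜ[T₀] b = r • ((1 : R') ⊗ₜ[T₀] b) := by rw [smul_tmul', smul_eq_mul, mul_one]
      rw [this]
      exact (hall b).smul r
    | add x y hx hy => exact hx.add hy
  exact Algebra.IsIntegral.finite

end Abstract

theorem exists_fg_range {k K A : Type} [Field k] [Field K] [Algebra k K]
    [CommRing A] [Algebra k A] (F : Finset (K ⊗[k] A)) :
    ∃ R : Subalgebra k K, R.FG ∧ ∀ t ∈ F, t ∈
      (Algebra.TensorProduct.map R.val (AlgHom.id k A)).range := by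
  classical
  have hmono : ∀ R R' : Subalgebra k K, R ≤ R' →
      (Algebra.TensorProduct.map R.val (AlgHom.id k A)).range ≤
      (Algebra.TensorProduct.map R'.val (AlgHom.id k A)).range := by
    rintro R R' h _ ⟨x, rfl⟩
    refine ⟨Algebra.TensorProduct.map (Subalgebra.inclusion h) (AlgHom.id k A) x, ?_⟩
    change (Algebra.TensorProduct.map R'.val (AlgHom.id k A)).comp
      (Algebra.TensorProduct.map (Subalgebra.inclusion h) (AlgHom.id k A)) x = _
    rw [← Algebra.TensorProduct.map_comp]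
    rfl
  have hone : ∀ t : K ⊗[k] A, ∃ R : Subalgebra k K, R.FG ∧ t ∈
      (Algebra.TensorProduct.map R.val (AlgHom.id k A)).range := by
    intro t
    induction t using TensorProduct.induction_on with
    | zero => exact ⟨⊥, Subalgebra.fg_bot, zero_mem _⟩
    | tmul c a =>
      refine ⟨Algebra.adjoin k {c}, ⟨{c}, by simp⟩, ?_⟩
      exact ⟨(⟨c, Algebra.self_mem_adjoin_singleton k c⟩ : Algebra.adjoin k {c}) ⊗ₜ a, by simp⟩
    | add x y hx hy =>
      obtain ⟨R, hR, hx⟩ := hx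
      obtain ⟨R', hR', hy⟩ := hy
      exact ⟨R ⊔ R', hR.sup hR', add_mem (hmono _ _ le_sup_left hx) (hmono _ _ le_sup_right hy)⟩
  induction F using Finset.induction_on with
  | empty => exact ⟨⊥, Subalgebra.fg_bot, by simp⟩
  | insert t F _ ih =>
    obtain ⟨R, hR, hRF⟩ := ih
    obtain ⟨R', hR', hy⟩ := hone t
    refine ⟨R ⊔ R', hR.sup hR', fun s hs => ?_⟩
    rcases Finset.mem_insert.1 hs with rfl | hs
    · exact hmono _ _ le_sup_right hy
    · exact hmono _ _ le_sup_left (hRF s hs)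

/-- Spreading out of finite étale algebras over `K ⊗ A`: first step, over a finitely generated
subalgebra `R` of `K`. -/
theorem spread_fg {k K A B : Type} [Field k] [Field K] [Algebra k K]
    [CommRing A] [Algebra k A] [CommRing B] [Algebra (K ⊗[k] A) B]
    (hB : Module.Finite (K ⊗[k] A) B) (hB' : Algebra.Etale (K ⊗[k] A) B) :
    ∃ (R : Subalgebra k K) (B₀ : Type) (_ : CommRing B₀) (_ : Algebra (R ⊗[k] A) B₀)
      (g : B₀ →+* B), R.FG ∧ Module.Finite (R ⊗[k] A) B₀ ∧ Algebra.Etale (R ⊗[k] A) B₀ ∧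
      IsPushout (CommRingCat.ofHom (algebraMap (R ⊗[k] A) B₀))
        (CommRingCat.ofHom (Algebra.TensorProduct.map R.val (AlgHom.id k A) :
          R ⊗[k] A →+* K ⊗[k] A))
        (CommRingCat.ofHom g) (CommRingCat.ofHom (algebraMap (K ⊗[k] A) B)) := by
  classical
  letI algA : Algebra A (K ⊗[k] A) := Algebra.TensorProduct.rightAlgebra
  obtain ⟨T₀, B₁, _, _, ⟨S, hS⟩, het, ⟨e⟩⟩ :=
    Algebra.Etale.exists_subalgebra_fg A (K ⊗[k] A) B
  obtain ⟨G, hG⟩ : Algebra.FiniteType T₀ B₁ := inferInstance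
  have hfin : Module.Finite (K ⊗[k] A) ((K ⊗[k] A) ⊗[T₀] B₁) :=
    Module.Finite.equiv e.toLinearEquiv
  have hint : ∀ b : B₁, IsIntegral (K ⊗[k] A) ((1 : K ⊗[k] A) ⊗ₜ[T₀] b) := fun b =>
    Algebra.IsIntegral.isIntegral _
  choose p hp hp0 using hint
  obtain ⟨R, hR, hRF⟩ := exists_fg_range (S ∪ G.biUnion (fun b => (p b).coeffs))
  let f : R ⊗[k] A →ₐ[k] K ⊗[k] A := Algebra.TensorProduct.map R.val (AlgHom.id k A)
  have hf : Function.Injective f := by
    have h := Module.Flat.rTensor_preserves_injective_linearMap (M := A)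
      R.val.toLinearMap Subtype.val_injective
    exact h
  have hT₀ : ∀ x : T₀, (x : K ⊗[k] A) ∈ f.range := by
    rintro ⟨x, hx⟩
    change x ∈ f.range
    rw [← hS] at hx
    refine Algebra.adjoin_induction (p := fun x _ => x ∈ f.range) (fun s hs => ?_) (fun a => ?_)
      (fun _ _ _ _ h h' => ?_) (fun _ _ _ _ h h' => ?_) hx
    · exact hRF s (Finset.mem_union_left _ hs)
    · exact ⟨1 ⊗ₜ a, by simp [f]; rfl⟩
    · exact add_mem h h'
    · exact mul_mem h h'
  let ef : R ⊗[k] A ≃ₐ[k] f.range := AlgEquiv.ofInjective f hf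
  let j : T₀ →+* R ⊗[k] A := (ef.symm : f.range →+* R ⊗[k] A).comp
    (T₀.val.toRingHom.codRestrict f.range hT₀)
  have hj : ∀ x, f (j x) = x := by
    intro x
    have h1 : ef (j x) = ⟨x, hT₀ x⟩ := ef.apply_symm_apply _
    exact congrArg Subtype.val h1
  letI alg1 : Algebra T₀ (R ⊗[k] A) := j.toAlgebra
  letI alg2 : Algebra (R ⊗[k] A) (K ⊗[k] A) := f.toRingHom.toAlgebra
  haveI : IsScalarTower T₀ (R ⊗[k] A) (K ⊗[k] A) := IsScalarTower.of_algebraMap_eq
    (fun x => (hj x).symm)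
  refine ⟨R, (R ⊗[k] A) ⊗[T₀] B₁, inferInstance, inferInstance, 
    (e.symm : (K ⊗[k] A) ⊗[T₀] B₁ →+* B).comp (midMap T₀ (R ⊗[k] A) (K ⊗[k] A) B₁ : _ →+* _),
    hR, ?_, inferInstance, ?_⟩
  · refine spread_finite (T := K ⊗[k] A) hf G hG p hp hp0 fun b hb => ?_
    rw [Polynomial.lifts_iff_coeff_lifts]
    intro n
    by_cases hn : (p b).coeff n = 0
    · rw [hn]
      exact ⟨0, map_zero _⟩
    · obtain ⟨y, hy⟩ := hRF ((p b).coeff n) (Finset.mem_union_right _
        (Finset.mem_biUnion.2 ⟨b, hb, Polynomial.coeff_mem_coeffs hn⟩))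
      exact ⟨y, hy⟩
  · exact spread_isPushout e

end MP8178
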