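import Pool.Agent.Lib_MP_8178ab_ag.SpreadAlg
import Pool.Agent.Lib_MP_8178ab_ag.SpecVar
import Pool.Agent.Lib_MP_8178ab_ag.BC
import Pool.Agent.Lib_MP_8178ab_ag.GPull
import Pool.Agent.Lib_MP_8178ab_ag.ConstBase

open CategoryTheory Limits AlgebraicGeometry TensorProduct

namespace MP8178

namespace SG

theorem isPullback_over {B : Scheme.{0}} {P X Y Z : Over B} {fst : P ⟶ X} {snd : P ⟶ Y}
    {f : X ⟶ Z} {g : Y ⟶ Z} (h : IsPullback fst.left snd.left f.left g.left) :
    IsPullback fst snd f g :=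
  IsPullback.of_map_of_faithful (Over.forget B) h

/-- a finite étale scheme over an affine scheme is affine. -/
theorem exists_alg_of_finite {T : Type} [CommRing T] {Z : Scheme.{0}}
    (π : Z ⟶ Spec (CommRingCat.of T)) (hπ : IsFinite π) (hπ' : Etale π) :
    ∃ (B : Type) (_ : CommRing B) (_ : Algebra T B) (w : Z ≅ Spec (CommRingCat.of B)),
      w.hom ≫ Spec.map (CommRingCat.ofHom (algebraMap T B)) = π ∧ Module.Finite T B ∧
      Algebra.Etale T B := by
  have hA : IsAffine Z := isAffine_of_isAffineHom π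
  let ψ : CommRingCat.of T ⟶ Γ(Z, ⊤) := Spec.preimage (Z.isoSpec.inv ≫ π)
  have hψ : Spec.map ψ = Z.isoSpec.inv ≫ π := Spec.map_preimage _
  have h1 : IsFinite (Spec.map ψ) := by rw [hψ]; infer_instance
  have h2 : Etale (Spec.map ψ) := by rw [hψ]; infer_instance
  rw [IsFinite.SpecMap_iff] at h1
  rw [HasRingHomProperty.Spec_iff (P := @Etale)] at h2
  letI : Algebra T Γ(Z, ⊤) := ψ.hom.toAlgebra
  refine ⟨Γ(Z, ⊤), inferInstance, inferInstance, Z.isoSpec, ?_, h1, h2⟩
  change Z.isoSpec.hom ≫ Spec.map ψ = π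
  rw [hψ, Iso.hom_inv_id_assoc]

/-- a nonzero finitely generated algebra over an algebraically closed field has a point. -/
theorem exists_algHom {k R : Type} [Field k] [IsAlgClosed k] [CommRing R] [Nontrivial R]
    [Algebra k R] [Algebra.FiniteType k R] : Nonempty (R →ₐ[k] k) := by
  obtain ⟨m, hm⟩ := Ideal.exists_maximal R
  letI : Field (R ⧸ m) := Ideal.Quotient.field m
  have : Algebra.FiniteType k (R ⧸ m) := inferInstance
  have h1 : Module.Finite k (R ⧸ m) := finite_of_finite_type_of_isJacobsonRing k (R ⧸ m)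
  have h2 : Algebra.IsAlgebraic k (R ⧸ m) := inferInstance
  exact ⟨(IsAlgClosed.lift : (R ⧸ m) →ₐ[k] k).comp (Ideal.Quotient.mkₐ k m)⟩

section

variable {K : Type} [Field K] {k : Type} [Field k]

/-- morphisms to `V_K` over `K` are determined by the projection to `V`. -/
theorem bc_hom_ext (φ : k →+* K) {V : Var k} {T : Over (Spec (CommRingCat.of K))}
    (f g : T ⟶ (bcVar φ V).obj) (h : f.left ≫ bcProj φ V = g.left ≫ bcProj φ V) : f = g := by
  apply Over.OverMorphism.ext
  have hV : IsPullback (bcProj φ V) (bcVar φ V).obj.hom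
      V.obj.hom (Spec.map (CommRingCat.ofHom φ)) := IsPullback.of_hasPullback _ _
  exact hV.hom_ext h ((Over.w f).trans (Over.w g).symm)

/-- the projection of the base change of an affine variety. -/
noncomputable def bcP (φ : k →+* K) (B : Type) [CommRing B] [Algebra k B] [Algebra.Smooth k B] :
    (bcVar φ (specVar k B)).obj.left ⟶ Spec (CommRingCat.of B) := bcProj φ (specVar k B)

theorem bcP_isPullback (φ : k →+* K) {B B' : Type} [CommRing B] [Algebra k B] [Algebra.Smooth k B]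
    [CommRing B'] [Algebra k B'] [Algebra.Smooth k B'] (f : B →ₐ[k] B') :
    IsPullback (bcP φ B') (bcMap φ (specHom f)).left (Spec.map (CommRingCat.ofHom (f : B →+* B')))
      (bcP φ B) := bcMap_isPullback φ (specHom f)

theorem bcP_w (φ : k →+* K) (B : Type) [CommRing B] [Algebra k B] [Algebra.Smooth k B] :
    bcP φ B ≫ Spec.map (CommRingCat.ofHom (algebraMap k B)) =
      (bcVar φ (specVar k B)).obj.hom ≫ Spec.map (CommRingCat.ofHom φ) :=
  pullback.condition

theorem bcP_hom_ext (φ : k →+* K) (B : Type) [CommRing B] [Algebra k B] [Algebra.Smooth k B]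
    {T : Over (Spec (CommRingCat.of K))} (f g : T ⟶ (bcVar φ (specVar k B)).obj)
    (h : f.left ≫ bcP φ B = g.left ≫ bcP φ B) : f = g := bc_hom_ext φ f g h

theorem constHom_left (X : Var K) {Y : Var K} (y : Pt Y) :
    (constHom X y).left = X.obj.hom ≫ y.left := rfl

theorem comp_left' {X Y Z : Over (Spec (CommRingCat.of K))} (f : X ⟶ Y) (g : Y ⟶ Z) (h : X ⟶ Z)
    (e : f ≫ g = h) : f.left ≫ g.left = h.left := by rw [← e]; rfl

theorem vK_iso (φ : k →+* K) [Algebra k K] (hφ : algebraMap k K = φ) (A : Type) [CommRing A]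
    [Algebra k A] [Algebra.Smooth k A] :
    ∃ u : (bcVar φ (specVar k A)).obj.left ≅ Spec (CommRingCat.of (K ⊗[k] A)),
      u.hom ≫ Spec.map (CommRingCat.ofHom
        (Algebra.TensorProduct.includeRight : A →ₐ[k] K ⊗[k] A).toRingHom) = bcP φ A ∧
      u.hom ≫ Spec.map (CommRingCat.ofHom
        (Algebra.TensorProduct.includeLeftRingHom : K →+* K ⊗[k] A)) =
      (bcVar φ (specVar k A)).obj.hom := by
  subst hφ
  have hVK : IsPullback (bcProj (algebraMap k K) (specVar k A))
      (bcVar (algebraMap k K) (specVar k A)).obj.hom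
      (specVar k A).obj.hom (Spec.map (CommRingCat.ofHom (algebraMap k K))) :=
    IsPullback.of_hasPullback _ _
  have hKA : IsPullback (Spec.map (CommRingCat.ofHom
      (Algebra.TensorProduct.includeRight : A →ₐ[k] K ⊗[k] A).toRingHom))
      (Spec.map (CommRingCat.ofHom (Algebra.TensorProduct.includeLeftRingHom : K →+* K ⊗[k] A)))
      (specVar k A).obj.hom (Spec.map (CommRingCat.ofHom (algebraMap k K))) :=
    (isPullback_SpecMap_of_isPushout _ _ _ _ (CommRingCat.isPushout_tensorProduct k K A)).flip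
  exact ⟨hVK.isoIsPullback _ _ hKA, hVK.isoIsPullback_hom_fst _ _ hKA,
    hVK.isoIsPullback_hom_snd _ _ hKA⟩

theorem section_proj (φ : k →+* K) [Algebra k K] (A : Type) [CommRing A]
    [Algebra k A] [Algebra.Smooth k A] (R : Type) [CommRing R] [Algebra k R] [Algebra.Smooth k R]
    [Algebra.Smooth k (R ⊗[k] A)] (ι : R →ₐ[k] K)
    (u : (bcVar φ (specVar k A)).obj.left ≅ Spec (CommRingCat.of (K ⊗[k] A)))
    (hu1 : u.hom ≫ Spec.map (CommRingCat.ofHom
        (Algebra.TensorProduct.includeRight : A →ₐ[k] K ⊗[k] A).toRingHom) = bcP φ A)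
    (hu2 : u.hom ≫ Spec.map (CommRingCat.ofHom
        (Algebra.TensorProduct.includeLeftRingHom : K →+* K ⊗[k] A)) =
      (bcVar φ (specVar k A)).obj.hom)
    (s₁ : Pt (bcVar φ (specVar k R)))
    (hs₁ : s₁.left ≫ bcP φ R = Spec.map (CommRingCat.ofHom (ι : R →+* K)))
    (j₁ : (bcVar φ (specVar k A)).obj ⟶ (bcVar φ (specVar k (R ⊗[k] A))).obj)
    (hj₁p : j₁ ≫ bcMap φ (specHom (Algebra.TensorProduct.includeLeft : R →ₐ[k] R ⊗[k] A)) =
      constHom _ s₁)
    (hj₁q : j₁ ≫ bcMap φ (specHom (Algebra.TensorProduct.includeRight : A →ₐ[k] R ⊗[k] A)) =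
      𝟙 _) :
    j₁.left ≫ bcP φ (R ⊗[k] A) = u.hom ≫
      Spec.map (CommRingCat.ofHom (Algebra.TensorProduct.map ι (AlgHom.id k A) :
          R ⊗[k] A →+* K ⊗[k] A)) := by
  have hRA := isPullback_SpecMap_of_isPushout _ _ _ _ (CommRingCat.isPushout_tensorProduct k R A)
  have e1 := (bcP_isPullback φ (Algebra.TensorProduct.includeLeft : R →ₐ[k] R ⊗[k] A)).w
  have e2 := (bcP_isPullback φ (Algebra.TensorProduct.includeRight : A →ₐ[k] R ⊗[k] A)).w
  have c1 := comp_left' _ _ _ hj₁p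
  have c2 := comp_left' _ _ _ hj₁q
  apply hRA.hom_ext
  · have h3 : Spec.map (CommRingCat.ofHom (Algebra.TensorProduct.map ι (AlgHom.id k A) :
        R ⊗[k] A →+* K ⊗[k] A)) ≫ Spec.map (CommRingCat.ofHom
        (Algebra.TensorProduct.includeLeftRingHom : R →+* R ⊗[k] A)) =
        Spec.map (CommRingCat.ofHom
        (Algebra.TensorProduct.includeLeftRingHom : K →+* K ⊗[k] A)) ≫
          Spec.map (CommRingCat.ofHom (ι : R →+* K)) := by
      rw [← Spec.map_comp, ← CommRingCat.ofHom_comp, ← Spec.map_comp,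
        ← CommRingCat.ofHom_comp]
      congr 2
    rw [Category.assoc, Category.assoc, h3, ← Category.assoc u.hom, hu2, ← hs₁]
    refine (congrArg (fun z => j₁.left ≫ z) e1).trans ?_
    rw [← Category.assoc, c1, constHom_left, Category.assoc]
  · have h3 : Spec.map (CommRingCat.ofHom (Algebra.TensorProduct.map ι (AlgHom.id k A) :
        R ⊗[k] A →+* K ⊗[k] A)) ≫ Spec.map (CommRingCat.ofHom
        (Algebra.TensorProduct.includeRight : A →ₐ[k] R ⊗[k] A).toRingHom) =
        Spec.map (CommRingCat.ofHom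
        (Algebra.TensorProduct.includeRight : A →ₐ[k] K ⊗[k] A).toRingHom) := by
      rw [← Spec.map_comp, ← CommRingCat.ofHom_comp]
      congr 2
      ext a
      simp
    rw [Category.assoc, Category.assoc, h3, hu1]
    refine (congrArg (fun z => j₁.left ≫ z) e2).trans ?_
    rw [← Category.assoc, c2]
    exact Category.id_comp _

theorem exists_bcPt' (φ : k →+* K) (R : Type) [CommRing R] [Algebra k R] [Algebra.Smooth k R]
    (f : R →+* K) (hf : f.comp (algebraMap k R) = φ) :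
    ∃ s : Pt (bcVar φ (specVar k R)), s.left ≫ bcP φ R = Spec.map (CommRingCat.ofHom f) := by
  refine exists_bcPt φ (specVar k R) (Spec.map (CommRingCat.ofHom f)) ?_
  change Spec.map _ ≫ Spec.map _ = Spec.map _
  rw [← Spec.map_comp, ← CommRingCat.ofHom_comp, hf]

theorem specHom_comp {B B' B'' : Type} [CommRing B] [Algebra k B]
    [Algebra.Smooth k B] [CommRing B'] [Algebra k B'] [Algebra.Smooth k B'] [CommRing B'']
    [Algebra k B''] [Algebra.Smooth k B''] (f : B →ₐ[k] B') (g : B' →ₐ[k] B'') :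
    specHom g ≫ specHom f = specHom (g.comp f) := by
  apply Over.OverMorphism.ext
  change Spec.map _ ≫ Spec.map _ = Spec.map _
  rw [← Spec.map_comp, ← CommRingCat.ofHom_comp]
  rfl

theorem specHom_id {B : Type} [CommRing B] [Algebra k B]
    [Algebra.Smooth k B] : specHom (AlgHom.id k B) = 𝟙 _ := by
  apply Over.OverMorphism.ext
  change Spec.map _ = 𝟙 _
  rw [← Spec.map_id]
  rfl

/-- the base change of a constant morphism is constant -/
theorem bc_const (φ : k →+* K) (A : Type) [CommRing A]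
    [Algebra k A] [Algebra.Smooth k A] (R : Type) [CommRing R] [Algebra k R] [Algebra.Smooth k R]
    (r : R →ₐ[k] k) (s₂ : Pt (bcVar φ (specVar k R)))
    (hs₂ : s₂.left ≫ bcP φ R = Spec.map (CommRingCat.ofHom (φ.comp (r : R →+* k)))) :
    bcMap φ (specHom ((Algebra.ofId k A).comp r)) = constHom (bcVar φ (specVar k A)) s₂ := by
  apply bcP_hom_ext
  rw [← (bcP_isPullback φ ((Algebra.ofId k A).comp r)).w, constHom_left, Category.assoc, hs₂]
  have h1 : Spec.map (CommRingCat.ofHom (((Algebra.ofId k A).comp r : R →ₐ[k] A) : R →+* A)) =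
      Spec.map (CommRingCat.ofHom (algebraMap k A)) ≫
        Spec.map (CommRingCat.ofHom (r : R →+* k)) := by
    rw [← Spec.map_comp, ← CommRingCat.ofHom_comp]
    rfl
  rw [h1, ← Category.assoc, bcP_w, CommRingCat.ofHom_comp, Spec.map_comp, Category.assoc]

end

end SG

open SG

variable {K : Type} [Field K] [IsAlgClosed K] {k : Type} [Field k] [IsAlgClosed k]

/-- Geometric form of the spreading out: a finite étale covering `W` of `V_K`, `V = Spec A`, is a
member of a family of coverings over a connected `S`, which has another member which is defined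
over `k`. -/
theorem spread_geo (φ : k →+* K) (A : Type) [CommRing A] [Algebra k A] [Algebra.Smooth k A]
    (W : Var K) (ρ : W.obj ⟶ (bcVar φ (specVar k A)).obj) (hρ : IsFinite ρ.left)
    (hρ' : Etale ρ.left) :
    ∃ (S Y E : Var K) (E₀ : Var k) (p : Y.obj ⟶ S.obj)
      (q : Y.obj ⟶ (bcVar φ (specVar k A)).obj) (τ : E.obj ⟶ Y.obj) (s₁ s₂ : Pt S)
      (j₁ j₂ : (bcVar φ (specVar k A)).obj ⟶ Y.obj) (e₁ : W.obj ⟶ E.obj)
      (ρ₀ : E₀.obj ⟶ (specVar k A).obj) (e₂ : (bcVar φ E₀).obj ⟶ E.obj),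
      Nonempty (IsLimit (BinaryFan.mk p q)) ∧ ConnectedSpace S.obj.left ∧
      IsFinite τ.left ∧ Etale τ.left ∧
      j₁ ≫ p = constHom _ s₁ ∧ j₁ ≫ q = 𝟙 _ ∧ j₂ ≫ p = constHom _ s₂ ∧ j₂ ≫ q = 𝟙 _ ∧
      IsPullback e₁ ρ τ j₁ ∧ IsFinite ρ₀.left ∧ Etale ρ₀.left ∧
      IsPullback e₂ (bcMap φ ρ₀) τ j₂ := by
  letI : Algebra k K := φ.toAlgebra
  obtain ⟨u, hu1, hu2⟩ := vK_iso φ rfl A
  -- the algebra of `W`
  obtain ⟨B, _, _, w, hw, hB, hB'⟩ := exists_alg_of_finite (ρ.left ≫ u.hom) inferInstance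
    inferInstance
  obtain ⟨R, _, _, _, _, ι, B₀, _, _, g, hf, he, hpush⟩ := spread_alg hB hB'
  -- the varieties over `k`
  haveI : Algebra.Smooth k (R ⊗[k] A) := Algebra.Smooth.comp k R (R ⊗[k] A)
  letI : Algebra k B₀ := ((algebraMap (R ⊗[k] A) B₀).comp (algebraMap k (R ⊗[k] A))).toAlgebra
  haveI : IsScalarTower k (R ⊗[k] A) B₀ := IsScalarTower.of_algebraMap_eq (fun _ => rfl)
  haveI : Algebra.Smooth (R ⊗[k] A) B₀ := inferInstance
  haveI : Algebra.Smooth k B₀ := Algebra.Smooth.comp k (R ⊗[k] A) B₀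
  obtain ⟨t, ht⟩ : ∃ t : R ⊗[k] A →ₐ[k] B₀, t = IsScalarTower.toAlgHom k (R ⊗[k] A) B₀ :=
    ⟨_, rfl⟩
  have htr : (t : R ⊗[k] A →+* B₀) = algebraMap (R ⊗[k] A) B₀ := by rw [ht]; rfl
  have htf : IsFinite (specHom t).left := by
    have : IsFinite (Spec.map (CommRingCat.ofHom (t : R ⊗[k] A →+* B₀))) := by
      rw [IsFinite.SpecMap_iff, htr]
      exact RingHom.finite_algebraMap.2 hf
    exact this
  have hte : Etale (specHom t).left := by
    have : Etale (Spec.map (CommRingCat.ofHom (t : R ⊗[k] A →+* B₀))) := by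
      rw [HasRingHomProperty.Spec_iff (P := @Etale), htr]
      exact RingHom.etale_algebraMap.2 he
    exact this
  have hlim := bc_isLimit φ _ _ (spec_isLimit (k := k) R A)
  -- the points
  obtain ⟨r⟩ : Nonempty (R →ₐ[k] k) := exists_algHom
  obtain ⟨s₂, hs₂⟩ := exists_bcPt' φ R (φ.comp (r : R →+* k)) (by
    ext a
    exact congrArg φ (r.commutes a))
  obtain ⟨s₁, hs₁⟩ := exists_bcPt' φ R (ι : R →+* K) ι.comp_algebraMap
  -- the second section
  obtain ⟨m, hm⟩ : ∃ m : R ⊗[k] A →ₐ[k] A, m = Algebra.TensorProduct.lift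
    ((Algebra.ofId k A).comp r) (AlgHom.id k A) (fun _ _ => Commute.all _ _) := ⟨_, rfl⟩
  have hm1 : m.comp (Algebra.TensorProduct.includeLeft : R →ₐ[k] R ⊗[k] A) =
      (Algebra.ofId k A).comp r := by
    rw [hm]
    ext a
    simp
  have hm2 : m.comp (Algebra.TensorProduct.includeRight : A →ₐ[k] R ⊗[k] A) =
      AlgHom.id k A := by
    rw [hm]
    ext a
    simp
  obtain ⟨E₀, ρ₀, q₁, hE₀, hρ₀, hρ₀'⟩ := exists_pullback (specHom m) (specHom t) htf hte
  -- the first section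
  obtain ⟨⟨j₁, hj₁p, hj₁q⟩⟩ : Nonempty {j₁ : (bcVar φ (specVar k A)).obj ⟶
      (bcVar φ (specVar k (R ⊗[k] A))).obj //
        j₁ ≫ bcMap φ (specHom (Algebra.TensorProduct.includeLeft : R →ₐ[k] R ⊗[k] A)) =
          constHom _ s₁ ∧
        j₁ ≫ bcMap φ (specHom (Algebra.TensorProduct.includeRight : A →ₐ[k] R ⊗[k] A)) =
          𝟙 _} := by
    obtain ⟨hl⟩ := hlim
    exact ⟨⟨_, (BinaryFan.IsLimit.lift' hl (constHom _ s₁) (𝟙 _)).2.1,
      (BinaryFan.IsLimit.lift' hl (constHom _ s₁) (𝟙 _)).2.2⟩⟩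
  have hj₁ := section_proj φ A R ι u hu1 hu2 s₁ hs₁ j₁ hj₁p hj₁q
  -- the covering `W` as a base change
  have h0 := isPullback_SpecMap_of_isPushout _ _ _ _ hpush
  have hsq : IsPullback (w.hom ≫ Spec.map (CommRingCat.ofHom g)) ρ.left
      (Spec.map (CommRingCat.ofHom (t : R ⊗[k] A →+* B₀)))
      (j₁.left ≫ bcP φ (R ⊗[k] A)) := by
    rw [hj₁, htr]
    exact (IsPullback.of_horiz_isIso ⟨hw⟩).paste_horiz h0
  have hE := bcP_isPullback φ t
  have hcond : (w.hom ≫ Spec.map (CommRingCat.ofHom g)) ≫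
      Spec.map (CommRingCat.ofHom (t : R ⊗[k] A →+* B₀)) = (ρ.left ≫ j₁.left) ≫
        bcP φ (R ⊗[k] A) := by
    rw [hsq.w, Category.assoc]
  let e₁' := hE.lift _ _ hcond
  have he1 : e₁' ≫ bcP φ B₀ = w.hom ≫ Spec.map (CommRingCat.ofHom g) := hE.lift_fst _ _ _
  have he2 : e₁' ≫ (bcMap φ (specHom t)).left = ρ.left ≫ j₁.left := hE.lift_snd _ _ _
  let e₁ : W.obj ⟶ (bcVar φ (specVar k B₀)).obj := Over.homMk e₁' (by
    have h1 := Over.w (bcMap φ (specHom t))
    have h2 := Over.w j₁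
    have h3 := Over.w ρ
    rw [← h1, ← Category.assoc, he2, Category.assoc, h2, h3])
  refine ⟨bcVar φ (specVar k R), bcVar φ (specVar k (R ⊗[k] A)), bcVar φ (specVar k B₀), E₀,
    bcMap φ (specHom Algebra.TensorProduct.includeLeft),
    bcMap φ (specHom Algebra.TensorProduct.includeRight), bcMap φ (specHom t), s₁, s₂, j₁,
    bcMap φ (specHom m), e₁, ρ₀, bcMap φ q₁, hlim, ?_, bcMap_finite φ _ htf, bcMap_etale φ _ hte,
    hj₁p, hj₁q, ?_, ?_, ?_, hρ₀, hρ₀', ?_⟩
  · refine connected_bc φ (specVar k R) ?_ ?_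
    · change IsAffine (Spec (CommRingCat.of R))
      infer_instance
    · change IsIntegral (Spec (CommRingCat.of R))
      infer_instance
  · rw [← bcMap_comp, specHom_comp, hm1]
    exact bc_const φ A R r s₂ hs₂
  · rw [← bcMap_comp, specHom_comp, hm2, specHom_id, bcMap_id]
  · apply isPullback_over
    refine IsPullback.of_right ?_ he2 hE
    change IsPullback (e₁' ≫ bcP φ B₀) _ _ _
    rw [he1]
    exact hsq
  · exact (bc_isPullback φ hE₀).flip

end MP8178
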