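import Pool.Agent.Lib_MP_8178ab_ag.SpecVar
import Pool.Agent.Lib_MP_8178ab_ag.Api

open CategoryTheory Limits AlgebraicGeometry Polynomial

namespace MP8178

variable {K : Type} [Field K]

/-- the points of `U_h`: elements `a` of `K` with `h(a) ≠ 0`. -/
noncomputable def uPt (h : K[X]) (a : K) (ha : h.eval a ≠ 0) : Pt (uVar K h) :=
  specPt (IsLocalization.liftAlgHom (M := Submonoid.powers h) (f := Polynomial.aeval a) (by
    rintro ⟨_, n, rfl⟩
    simpa using ha.isUnit.pow n))

/-- the coordinate of a point of `U_h` -/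
noncomputable def uCoord {h : K[X]} (x : Pt (uVar K h)) : K :=
  (Scheme.ΓSpecIso (CommRingCat.of K)).hom
    (x.left.appTop ((Scheme.ΓSpecIso (CommRingCat.of (Localization.Away h))).inv
      (algebraMap K[X] (Localization.Away h) X)))

theorem exists_specPt {B : Type} [CommRing B] [Algebra K B] [Algebra.Smooth K B]
    (x : Pt (specVar K B)) : ∃ φ : B →ₐ[K] K, x = specPt φ := by
  obtain ⟨f, hf⟩ : ∃ f : CommRingCat.of B ⟶ CommRingCat.of K, Spec.map f = x.left :=
    Spec.map_surjective _
  have hw : Spec.map f ≫ Spec.map (CommRingCat.ofHom (algebraMap K B)) =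
      𝟙 (Spec (CommRingCat.of K)) := by
    rw [hf]
    exact Over.w x
  rw [← Spec.map_comp, ← Spec.map_id] at hw
  have h2 := Spec.map_injective hw
  have h3 : ∀ a : K, f.hom (algebraMap K B a) = a := by
    intro a
    have := congrArg (fun g : CommRingCat.of K ⟶ CommRingCat.of K => g.hom a) h2
    exact this
  refine ⟨{ f.hom with commutes' := h3 }, ?_⟩
  apply Over.OverMorphism.ext
  exact hf.symm

theorem specPt_comp_specHom {B B' : Type} [CommRing B] [Algebra K B]
    [Algebra.Smooth K B] [CommRing B'] [Algebra K B'] [Algebra.Smooth K B'] (φ : B →ₐ[K] B')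
    (ψ : B' →ₐ[K] K) : specPt ψ ≫ specHom φ = specPt (ψ.comp φ) := by
  apply Over.OverMorphism.ext
  change Spec.map _ ≫ Spec.map _ = Spec.map _
  rw [← Spec.map_comp]
  rfl

theorem specHom_comp_specHom {B B' B'' : Type} [CommRing B] [Algebra K B]
    [Algebra.Smooth K B] [CommRing B'] [Algebra K B'] [Algebra.Smooth K B']
    [CommRing B''] [Algebra K B''] [Algebra.Smooth K B''] (φ : B →ₐ[K] B')
    (ψ : B' →ₐ[K] B'') : specHom ψ ≫ specHom φ = specHom (ψ.comp φ) := by
  apply Over.OverMorphism.ext
  change Spec.map _ ≫ Spec.map _ = Spec.map _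
  rw [← Spec.map_comp]
  rfl

theorem uCoord_specPt {h : K[X]} (φ : Localization.Away h →ₐ[K] K) :
    uCoord (h := h) (specPt φ) = φ (algebraMap K[X] (Localization.Away h) X) := by
  have h1 := Scheme.ΓSpecIso_inv_naturality (CommRingCat.ofHom (φ : Localization.Away h →+* K))
  have h2 := congrArg (fun g : CommRingCat.of (Localization.Away h) ⟶ _ =>
    (Scheme.ΓSpecIso (CommRingCat.of K)).hom.hom (g.hom
      (algebraMap K[X] (Localization.Away h) X))) h1
  refine h2.symm.trans ?_
  change (Scheme.ΓSpecIso (CommRingCat.of K)).hom.hom ((Scheme.ΓSpecIso (CommRingCat.of K)).inv.hom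
    (φ (algebraMap K[X] (Localization.Away h) X))) = _
  rw [← CommRingCat.comp_apply, Iso.inv_hom_id]
  rfl

theorem alg_ext {h : K[X]} {T : Type} [CommRing T] [Algebra K T]
    {φ ψ : Localization.Away h →ₐ[K] T}
    (e : φ (algebraMap K[X] (Localization.Away h) X) =
      ψ (algebraMap K[X] (Localization.Away h) X)) : φ = ψ := by
  have h1 : (φ : Localization.Away h →+* T) = ψ := by
    apply IsLocalization.ringHom_ext (Submonoid.powers h)
    apply Polynomial.ringHom_ext
    · intro a
      change φ (algebraMap K[X] _ (C a)) = ψ (algebraMap K[X] _ (C a))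
      have : algebraMap K[X] (Localization.Away h) (C a) = algebraMap K _ a :=
        (IsScalarTower.algebraMap_apply K K[X] (Localization.Away h) a).symm
      rw [this, φ.commutes, ψ.commutes]
    · exact e
  exact AlgHom.ext fun x => congrArg (fun g : Localization.Away h →+* T => g x) h1

theorem uCoord_uPt (h : K[X]) (a : K) (ha : h.eval a ≠ 0) : uCoord (uPt h a ha) = a := by
  rw [uPt, uCoord_specPt]
  have := IsLocalization.lift_eq (M := Submonoid.powers h) (S := Localization.Away h)
    (g := (Polynomial.aeval a : K[X] →ₐ[K] K).toRingHom) (by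
    rintro ⟨_, n, rfl⟩
    simpa using ha.isUnit.pow n) X
  refine Eq.trans this ?_
  simp

theorem eval_uCoord {h : K[X]} (x : Pt (uVar K h)) : h.eval (uCoord x) ≠ 0 := by
  obtain ⟨φ, rfl⟩ := exists_specPt x
  rw [uCoord_specPt]
  have h1 : IsUnit (φ (algebraMap K[X] (Localization.Away h) h)) :=
    (IsLocalization.Away.algebraMap_isUnit h).map φ
  have h2 : φ (algebraMap K[X] (Localization.Away h) h) =
      h.eval (φ (algebraMap K[X] (Localization.Away h) X)) := by
    have h3 : (φ.comp ((Algebra.ofId K[X] (Localization.Away h)).restrictScalars K)) =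
        Polynomial.aeval (φ (algebraMap K[X] (Localization.Away h) X)) := by
      ext
      simp [Algebra.ofId_apply]
    have h4 := congrArg (fun g : K[X] →ₐ[K] K => g h) h3
    refine Eq.trans h4 ?_
    simp
  rw [← h2]
  exact h1.ne_zero

theorem uPt_uCoord {h : K[X]} (x : Pt (uVar K h)) : uPt h (uCoord x) (eval_uCoord x) = x := by
  obtain ⟨φ, hφ⟩ := exists_specPt x
  have h1 : uCoord x = φ (algebraMap K[X] (Localization.Away h) X) := by
    rw [hφ, uCoord_specPt]
  rw [uPt]
  conv_rhs => rw [hφ]
  congr 1
  apply alg_ext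
  rw [← h1]
  have := uCoord_uPt h (uCoord x) (eval_uCoord x)
  rwa [uPt, uCoord_specPt] at this

theorem uPt_ext {h : K[X]} {x y : Pt (uVar K h)} (e : uCoord x = uCoord y) : x = y := by
  rw [← uPt_uCoord x, ← uPt_uCoord y]
  congr 1

/-- the morphism `U_{h'} → U_h`, `z ↦ q(z)`, where `h(q)` divides a power of `h'`. -/
noncomputable def uHom (h h' q : K[X]) (m : ℕ) (hq : h.comp q ∣ h' ^ m) :
    (uVar K h').obj ⟶ (uVar K h).obj :=
  specHom (IsLocalization.liftAlgHom (M := Submonoid.powers h)
    (f := (Algebra.ofId K[X] (Localization.Away h')).restrictScalars K |>.comp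
      (Polynomial.aeval q)) (by
    rintro ⟨_, n, rfl⟩
    have h1 : IsUnit (algebraMap K[X] (Localization.Away h') (h' ^ m)) := by
      rw [map_pow]
      exact (IsLocalization.Away.algebraMap_isUnit h').pow m
    have h2 : IsUnit (algebraMap K[X] (Localization.Away h') (h.comp q)) :=
      isUnit_of_dvd_unit (map_dvd _ hq) h1
    have h3 : Polynomial.aeval q h = h.comp q := by
      rw [Polynomial.aeval_def, Polynomial.comp]; rfl
    change IsUnit ((algebraMap K[X] (Localization.Away h')) (Polynomial.aeval q (h ^ n)))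
    rw [map_pow, h3, map_pow]
    exact h2.pow n))

theorem uCoord_comp_uHom (h h' q : K[X]) (m : ℕ) (hq : h.comp q ∣ h' ^ m)
    (x : Pt (uVar K h')) : uCoord (x ≫ uHom h h' q m hq) = q.eval (uCoord x) := by
  obtain ⟨φ, rfl⟩ := exists_specPt x
  rw [uCoord_specPt]
  refine Eq.trans (congrArg uCoord (specPt_comp_specHom _ _)) ?_
  rw [uCoord_specPt, AlgHom.comp_apply]
  refine Eq.trans (congrArg φ (IsLocalization.lift_eq _ _)) ?_
  change φ (algebraMap K[X] (Localization.Away h') (Polynomial.aeval q X)) = _
  rw [Polynomial.aeval_X]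
  have h3 : (φ.comp ((Algebra.ofId K[X] (Localization.Away h')).restrictScalars K)) =
      Polynomial.aeval (φ (algebraMap K[X] (Localization.Away h') X)) := by
    ext
    simp [Algebra.ofId_apply]
  have h4 := congrArg (fun g : K[X] →ₐ[K] K => g q) h3
  refine Eq.trans h4 ?_
  simp

theorem uHom_left_X (h h' q : K[X]) (m : ℕ) (hq : h.comp q ∣ h' ^ m) :
    ∃ ψ : Localization.Away h →ₐ[K] Localization.Away h', uHom h h' q m hq = specHom ψ ∧
      ψ (algebraMap K[X] _ X) = algebraMap K[X] _ q := by
  refine ⟨_, rfl, ?_⟩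
  refine Eq.trans (IsLocalization.lift_eq _ _) ?_
  change (algebraMap K[X] (Localization.Away h') (Polynomial.aeval q X)) = _
  rw [Polynomial.aeval_X]

theorem algHom_algebraMap {h h' : K[X]} (ψ : Localization.Away h →ₐ[K] Localization.Away h')
    (q : K[X]) (hq : ψ (algebraMap K[X] _ X) = algebraMap K[X] _ q) (p : K[X]) :
    ψ (algebraMap K[X] _ p) = algebraMap K[X] _ (p.comp q) := by
  have h3 : (ψ.comp ((Algebra.ofId K[X] (Localization.Away h)).restrictScalars K)) =
      ((Algebra.ofId K[X] (Localization.Away h')).restrictScalars K).comp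
        (Polynomial.aeval q) := by
    apply Polynomial.algHom_ext
    simp only [AlgHom.comp_apply, Polynomial.aeval_X]
    exact hq
  have h4 := congrArg (fun g : K[X] →ₐ[K] _ => g p) h3
  refine Eq.trans h4 ?_
  change algebraMap K[X] (Localization.Away h') (Polynomial.aeval q p) = _
  rw [Polynomial.aeval_def, Polynomial.comp]
  rfl

/-- composition of the morphisms `uHom` -/
theorem uHom_comp (h h' h'' q q' : K[X]) (m m' m'' : ℕ) (hq : h.comp q ∣ h' ^ m)
    (hq' : h'.comp q' ∣ h'' ^ m') (hq'' : h.comp (q.comp q') ∣ h'' ^ m'') :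
    uHom h' h'' q' m' hq' ≫ uHom h h' q m hq = uHom h h'' (q.comp q') m'' hq'' := by
  obtain ⟨ψ, h1, h1'⟩ := uHom_left_X h h' q m hq
  obtain ⟨ψ', h2, h2'⟩ := uHom_left_X h' h'' q' m' hq'
  obtain ⟨ψ'', h3, h3'⟩ := uHom_left_X h h'' (q.comp q') m'' hq''
  rw [h1, h2, h3]
  refine (specHom_comp_specHom _ _).trans ?_
  congr 1
  apply alg_ext
  rw [AlgHom.comp_apply, h1', algHom_algebraMap ψ' q' h2', h3']

/-- `U_h` is connected -/
theorem connected_uVar (h : K[X]) (h0 : h ≠ 0) : ConnectedSpace (uVar K h).obj.left := by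
  have : IsDomain (Localization.Away h) :=
    IsLocalization.isDomain_localization (powers_le_nonZeroDivisors_of_noZeroDivisors h0)
  have h1 : IrreducibleSpace (PrimeSpectrum (Localization.Away h)) := inferInstance
  have h2 : ConnectedSpace (PrimeSpectrum (Localization.Away h)) := inferInstance
  exact h2

/-- The algebra of a square root of a unit `c`, `2` invertible, is finite étale; the algebra is
characterized by a universal property. -/
theorem sq_ring {R S : Type} [CommRing R] [CommRing S] [Algebra R S] (c : R) (hc : IsUnit c)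
    (h2 : IsUnit (2 : R)) (x : S) (hx : x ^ 2 = algebraMap R S c)
    (ex : ∀ (T : Type) [CommRing T] [Algebra R T] (y : T), y ^ 2 = algebraMap R T c →
      ∃ θ : S →ₐ[R] T, θ x = y)
    (un : ∀ (θ : S →ₐ[R] S), θ x = x → θ = AlgHom.id R S) :
    Algebra.Etale R S ∧ Module.Finite R S := by
  classical
  have hmon : (X ^ 2 - C c : R[X]).Monic := monic_X_pow_sub_C c (by norm_num)
  constructor
  · obtain ⟨c', hc'⟩ := hc.exists_right_inv
    obtain ⟨d, hd⟩ := h2.exists_right_inv
    let P : StandardEtalePair R :=
      { f := X ^ 2 - C c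
        monic_f := hmon
        g := 1
        cond := by
          refine ⟨C (d * c') * X, - C c', 1, ?_⟩
          have e1 : (C d : R[X]) * 2 = 1 := by
            have : (2 : R[X]) = C 2 := rfl
            rw [this, ← C_mul, mul_comm, hd, C_1]
          have e2 : (C c : R[X]) * C c' = 1 := by
            rw [← C_mul, hc', C_1]
          simp only [derivative_sub, derivative_X_pow, derivative_C, C_mul]
          simp only [Nat.cast_ofNat]
          have e3 : (C (2 : R) : R[X]) = 2 := rfl
          rw [e3]
          linear_combination (C c' * X ^ 2) * e1 + e2 }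
    have hPm : P.HasMap x := by
      refine ⟨?_, ?_⟩
      · simp [P, hx]
      · simp [P]
    obtain ⟨θ, hθ⟩ := ex P.Ring P.X (by
      have := P.hasMap_X.1
      simp only [P, map_sub, map_pow, aeval_X, aeval_C] at this
      exact sub_eq_zero.1 this)
    let e : P.Ring ≃ₐ[R] S := AlgEquiv.ofAlgHom (P.lift x hPm) θ
      (un _ (by rw [AlgHom.comp_apply, hθ, StandardEtalePair.lift_X]))
      (StandardEtalePair.hom_ext (by
        rw [AlgHom.comp_apply, StandardEtalePair.lift_X, hθ]; rfl))
    exact Algebra.Etale.of_equiv e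
  · have hfin : Module.Finite R (AdjoinRoot (X ^ 2 - C c : R[X])) := hmon.finite_adjoinRoot
    obtain ⟨θ, hθ⟩ := ex (AdjoinRoot (X ^ 2 - C c : R[X])) (AdjoinRoot.root _) (by
      have := AdjoinRoot.eval₂_root (X ^ 2 - C c : R[X])
      simp only [eval₂_sub, eval₂_pow, eval₂_X, eval₂_C] at this
      exact sub_eq_zero.1 this)
    let l : AdjoinRoot (X ^ 2 - C c : R[X]) →ₐ[R] S :=
      AdjoinRoot.liftAlgHom _ (Algebra.ofId R S) x (by
        simp [hx])
    have h5 : l.comp θ = AlgHom.id R S := un _ (by
      rw [AlgHom.comp_apply, hθ]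
      simp [l])
    exact Module.Finite.of_surjective l.toLinearMap (fun y => ⟨θ y, congrArg (fun g => g y) h5⟩)

/-- the squaring morphism of the multiplicative group -/
noncomputable def sq (K : Type) [Field K] : (uVar K (X : K[X])).obj ⟶ (uVar K (X : K[X])).obj :=
  uHom X (X : K[X]) (X ^ 2) 2 (by simp)

theorem sq_alg (ψ : Localization.Away (X : K[X]) →ₐ[K] Localization.Away (X : K[X]))
    (h2 : (2 : K) ≠ 0) (hψ : ψ (algebraMap K[X] _ X) = algebraMap K[X] _ (X ^ 2)) :
    (ψ : Localization.Away (X : K[X]) →+* Localization.Away (X : K[X])).Etale ∧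
      (ψ : Localization.Away (X : K[X]) →+* Localization.Away (X : K[X])).Finite := by
  letI alg : Algebra (Localization.Away (X : K[X])) (Localization.Away (X : K[X])) :=
    (ψ : Localization.Away (X : K[X]) →+* Localization.Away (X : K[X])).toAlgebra
  have hC : ∀ a : K, ψ (algebraMap K[X] _ (C a)) = algebraMap K[X] _ (C a) := by
    intro a
    have : algebraMap K[X] (Localization.Away (X : K[X])) (C a) = algebraMap K _ a :=
        (IsScalarTower.algebraMap_apply K K[X] (Localization.Away (X : K[X])) a).symm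
    rw [this, ψ.commutes]
  have hcu : IsUnit (algebraMap K[X] (Localization.Away (X : K[X])) X) :=
    IsLocalization.Away.algebraMap_isUnit _
  have h2u : IsUnit (2 : Localization.Away (X : K[X])) := by
    have := (h2.isUnit.map (algebraMap K (Localization.Away (X : K[X]))))
    rwa [map_ofNat] at this
  refine @sq_ring (Localization.Away (X : K[X])) (Localization.Away (X : K[X])) _ _ alg
    (algebraMap K[X] _ X) hcu h2u (algebraMap K[X] _ X) ?_ ?_ ?_
  · change _ = ψ _
    rw [hψ, map_pow]
  · intro T _ algT y hy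
    let g₀ : K[X] →+* T := eval₂RingHom ((algebraMap (Localization.Away (X : K[X])) T).comp
      (algebraMap K (Localization.Away (X : K[X])))) y
    have hyu : IsUnit y := by
      have h5 : IsUnit (y ^ 2) := by
        rw [hy]
        exact hcu.map _
      exact (isUnit_pow_iff (by norm_num)).1 h5
    have hg₀ : IsUnit (g₀ X) := by
      simpa [g₀] using hyu
    let θ₀ : Localization.Away (X : K[X]) →+* T := IsLocalization.Away.lift X hg₀
    have hθ₀ : ∀ p : K[X], θ₀ (algebraMap K[X] _ p) = g₀ p := fun p =>
      IsLocalization.Away.lift_eq X hg₀ p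
    have hcomm : θ₀.comp (ψ : Localization.Away (X : K[X]) →+* Localization.Away (X : K[X])) =
        algebraMap (Localization.Away (X : K[X])) T := by
      apply IsLocalization.ringHom_ext (Submonoid.powers (X : K[X]))
      apply Polynomial.ringHom_ext
      · intro a
        change θ₀ (ψ (algebraMap K[X] _ (C a))) = algebraMap _ T (algebraMap K[X] _ (C a))
        rw [hC, hθ₀]
        have : algebraMap K[X] (Localization.Away (X : K[X])) (C a) = algebraMap K _ a :=
          (IsScalarTower.algebraMap_apply K K[X] (Localization.Away (X : K[X])) a).symm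
        rw [this]
        simp [g₀]
      · change θ₀ (ψ (algebraMap K[X] _ X)) = algebraMap _ T (algebraMap K[X] _ X)
        rw [hψ, hθ₀, ← hy]
        simp [g₀]
    refine ⟨{ θ₀ with commutes' := fun r => congrArg (fun g : _ →+* T => g r) hcomm }, ?_⟩
    change θ₀ (algebraMap K[X] _ X) = y
    rw [hθ₀]
    simp [g₀]
  · intro θ hθ
    have h5 : (θ : Localization.Away (X : K[X]) →+* Localization.Away (X : K[X])) =
        RingHom.id _ := by
      apply IsLocalization.ringHom_ext (Submonoid.powers (X : K[X]))
      apply Polynomial.ringHom_ext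
      · intro a
        change θ (algebraMap K[X] _ (C a)) = algebraMap K[X] _ (C a)
        have h6 := θ.commutes (algebraMap K[X] _ (C a))
        have h7 : (@algebraMap _ _ _ _ alg) (algebraMap K[X] (Localization.Away (X : K[X])) (C a))
          = algebraMap K[X] (Localization.Away (X : K[X])) (C a) := hC a
        rw [h7] at h6
        exact h6
      · exact hθ
    exact AlgHom.ext fun r => congrArg (fun g : _ →+* Localization.Away (X : K[X]) => g r) h5

/-- the squaring morphism is finite étale if `2 ≠ 0` -/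
theorem sq_finite_etale (h2 : (2 : K) ≠ 0) : IsFinite (sq K).left ∧ Etale (sq K).left := by
  obtain ⟨ψ, h1, h1'⟩ := uHom_left_X (X : K[X]) (X : K[X]) (X ^ 2) 2 (by simp)
  obtain ⟨h3, h4⟩ := sq_alg ψ h2 h1'
  rw [sq, h1]
  constructor
  · change IsFinite (Spec.map (CommRingCat.ofHom
      (ψ : Localization.Away (X : K[X]) →+* Localization.Away (X : K[X]))))
    rw [IsFinite.SpecMap_iff]
    exact h4
  · change Etale (Spec.map (CommRingCat.ofHom
      (ψ : Localization.Away (X : K[X]) →+* Localization.Away (X : K[X]))))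
    rw [HasRingHomProperty.Spec_iff (P := @Etale)]
    exact h3

end MP8178
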