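import Mathlib

open TensorProduct

namespace MP8178

/-- Points of a domain of finite type over an algebraically closed field are dense. -/
theorem exists_point_ne_zero {k B : Type} [Field k] [IsAlgClosed k] [CommRing B] [Algebra k B]
    [IsDomain B] [Algebra.FiniteType k B] (b : B) (hb : b ≠ 0) : ∃ ψ : B →ₐ[k] k, ψ b ≠ 0 := by
  let Bb := Localization.Away b
  have h1 : Nontrivial Bb := by
    refine (IsLocalization.injective Bb (M := Submonoid.powers b) ?_).nontrivial
    exact powers_le_nonZeroDivisors_of_noZeroDivisors hb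
  obtain ⟨m, hm⟩ := Ideal.exists_maximal Bb
  letI := Ideal.Quotient.field m
  haveI h2 : Algebra.FiniteType B Bb := IsLocalization.finiteType_of_monoid_fg (Submonoid.powers b) Bb
  haveI h3 : Algebra.FiniteType k Bb := Algebra.FiniteType.trans (S := B) inferInstance h2
  haveI h4 : Algebra.FiniteType k (Bb ⧸ m) :=
    h3.of_surjective (Ideal.Quotient.mkₐ k m) (Ideal.Quotient.mkₐ_surjective k m)
  haveI h5 : Module.Finite k (Bb ⧸ m) := finite_of_finite_type_of_isJacobsonRing k _
  have hbij : Function.Bijective (algebraMap k (Bb ⧸ m)) :=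
    IsAlgClosed.algebraMap_bijective_of_isIntegral
  let e : k ≃ₐ[k] (Bb ⧸ m) := AlgEquiv.ofBijective (Algebra.ofId k _) hbij
  refine ⟨e.symm.toAlgHom.comp ((Ideal.Quotient.mkₐ k m).comp (IsScalarTower.toAlgHom k B Bb)), ?_⟩
  have hu : IsUnit (algebraMap B Bb b) :=
    IsLocalization.map_units Bb (⟨b, Submonoid.mem_powers b⟩ : Submonoid.powers b)
  have hu2 := hu.map (e.symm.toAlgHom.comp (Ideal.Quotient.mkₐ k m))
  exact hu2.ne_zero

/-- evaluation of `K ⊗ B` at a point of `B`. -/
noncomputable def evPt {k K B : Type} [Field k] [CommRing K] [Algebra k K] [CommRing B]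
    [Algebra k B] (ψ : B →ₐ[k] k) : K ⊗[k] B →ₐ[K] K :=
  Algebra.TensorProduct.lift (AlgHom.id K K) ((Algebra.ofId k K).comp ψ) (fun _ _ => mul_comm _ _)

theorem evPt_tmul {k K B : Type} [Field k] [CommRing K] [Algebra k K] [CommRing B]
    [Algebra k B] (ψ : B →ₐ[k] k) (c : K) (b : B) :
    evPt ψ (c ⊗ₜ[k] b) = c * algebraMap k K (ψ b) := by
  simp [evPt, Algebra.ofId_apply]

theorem exists_evPt_ne_zero {k K B : Type} [Field k] [CommRing K]
    [Algebra k K] [CommRing B] [Algebra k B]
    (u : K ⊗[k] B) (hu : u ≠ 0) : ∃ b : B, b ≠ 0 ∧ ∀ ψ : B →ₐ[k] k, ψ b ≠ 0 → evPt ψ u ≠ 0 := by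
  classical
  let β := Module.Free.chooseBasis k K
  let γ := Algebra.TensorProduct.basis B β
  let c := Algebra.TensorProduct.comm k K B
  have hc : c u ≠ 0 := by
    intro h
    exact hu (c.injective (by rw [h, map_zero]))
  have hr : γ.repr (c u) ≠ 0 := by
    intro h
    exact hc (γ.repr.injective (by rw [h, map_zero]))
  obtain ⟨i, hi⟩ := Finsupp.ne_iff.1 hr
  refine ⟨γ.repr (c u) i, hi, fun ψ hψ h0 => hψ ?_⟩
  have key : ∀ v : K ⊗[k] B, β.repr (evPt ψ v) i = ψ (γ.repr (c v) i) := by
    intro v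
    induction v using TensorProduct.induction_on with
    | zero => simp
    | tmul x y =>
      rw [evPt_tmul]
      simp only [c, Algebra.TensorProduct.comm_tmul, γ]
      rw [Algebra.TensorProduct.basis_repr_tmul]
      rw [mul_comm, ← Algebra.smul_def]
      simp
    | add x y hx hy => simp only [map_add, Finsupp.add_apply, hx, hy]
  rw [← key, h0]
  simp

/-- The tensor product of two domains over an algebraically closed field is a domain (one of them
of finite type). -/
theorem isDomain_tensor {k K B : Type} [Field k] [IsAlgClosed k] [CommRing K] [IsDomain K]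
    [Algebra k K] [CommRing B] [Algebra k B] [IsDomain B] [Algebra.FiniteType k B] :
    IsDomain (K ⊗[k] B) := by
  have hn : Nontrivial (K ⊗[k] B) := by
    obtain ⟨ψ, hψ⟩ := exists_point_ne_zero (k := k) (1 : B) one_ne_zero
    exact (evPt (K := K) ψ).toRingHom.domain_nontrivial
  haveI : NoZeroDivisors (K ⊗[k] B) := by
    refine ⟨fun {u v} huv => ?_⟩
    by_contra hcon
    push Not at hcon
    obtain ⟨b, hb, hb'⟩ := exists_evPt_ne_zero u hcon.1
    obtain ⟨c, hc, hc'⟩ := exists_evPt_ne_zero v hcon.2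
    obtain ⟨ψ, hψ⟩ := exists_point_ne_zero (k := k) (b * c) (mul_ne_zero hb hc)
    rw [map_mul] at hψ
    have h1 := hb' ψ (left_ne_zero_of_mul hψ)
    have h2 := hc' ψ (right_ne_zero_of_mul hψ)
    have h3 : evPt ψ (u * v) = 0 := by rw [huv, map_zero]
    rw [map_mul] at h3
    exact (mul_ne_zero h1 h2) h3
  exact NoZeroDivisors.to_isDomain _

end MP8178
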