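import Pool.Agent.Lib_MP_8178ab_ag.Api

/-!
# The twisted functor `P ⋉ N`
-/

open CategoryTheory Limits AlgebraicGeometry

namespace MP8178

variable {K : Type} [Field K] (P : GrpdFunctor K) (Q : Var K → Prop)
  (V : Type) [AddCommGroup V] [Module ℚ V]

/-- `CC P Q V X x`: elements of `HC V (P.Hom X x x)` killed by all test varieties, that is, for
all `W` with `Q W`, all `f : W ⟶ X`, all arrows `a : f w ⟶ x` and all loops `g` at `w` the
value at `a⁻¹ f(g) a` is zero. -/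
def CC (X : Var K) (x : Pt X) : Submodule ℚ (P.Hom X x x → V) where
  carrier := {ψ | ψ ∈ HC V (P.Hom X x x) ∧ ∀ (W : Var K), Q W → ∀ (w : Pt W) (y : Pt X)
    (f : W.obj ⟶ X.obj) (hf : w ≫ f = y) (a : P.Hom X y x) (g : P.Hom W w w),
    ψ (P.cj a (P.push f hf g)) = 0}
  add_mem' := by
    rintro ψ ψ' ⟨h1, h2⟩ ⟨h1', h2'⟩
    refine ⟨Submodule.add_mem _ h1 h1', fun W hW w y f hf a g => ?_⟩
    rw [Pi.add_apply, h2 W hW, h2' W hW, add_zero]
  zero_mem' := ⟨Submodule.zero_mem _, fun W hW w y f hf a g => rfl⟩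
  smul_mem' := by
    rintro c ψ ⟨h1, h2⟩
    refine ⟨Submodule.smul_mem _ c h1, fun W hW w y f hf a g => ?_⟩
    rw [Pi.smul_apply, h2 W hW, smul_zero]

variable {P Q V}

/-- pull back along a morphism -/
def CC.pull {X Y : Var K} (f : X.obj ⟶ Y.obj) {x : Pt X} {y : Pt Y} (h : x ≫ f = y) :
    CC P Q V Y y →ₗ[ℚ] CC P Q V X x where
  toFun ψ := ⟨fun g => ψ.1 (P.push f h g), HC.comp ψ.2.1 (P.push f h), by
    intro W hW w z u hu a g
    change ψ.1 (P.push f h (P.cj a (P.push u hu g))) = 0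
    rw [P.push_cj f rfl h a, P.push_push u f hu rfl (by rw [← Category.assoc, hu])]
    exact ψ.2.2 W hW _ _ _ _ _ _⟩
  map_add' _ _ := rfl
  map_smul' _ _ := rfl

/-- transport along an arrow -/
def CC.conj {X : Var K} {x y : Pt X} (b : P.Hom X x y) :
    CC P Q V X y →ₗ[ℚ] CC P Q V X x where
  toFun ψ := ⟨fun g => ψ.1 (P.cj b g), HC.comp ψ.2.1 (P.cj b), by
    intro W hW w z u hu a g
    change ψ.1 (P.cj b (P.cj a (P.push u hu g))) = 0
    rw [P.cj_cj]
    exact ψ.2.2 W hW _ _ _ _ _ _⟩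
  map_add' _ _ := rfl
  map_smul' _ _ := rfl

theorem CC.pull_apply {X Y : Var K} (f : X.obj ⟶ Y.obj) {x : Pt X} {y : Pt Y} (h : x ≫ f = y)
    (ψ : CC P Q V Y y) (g : P.Hom X x x) : (CC.pull f h ψ).1 g = ψ.1 (P.push f h g) := rfl

theorem CC.conj_apply {X : Var K} {x y : Pt X} (b : P.Hom X x y)
    (ψ : CC P Q V X y) (g : P.Hom X x x) : (CC.conj b ψ).1 g = ψ.1 (P.cj b g) := rfl

theorem CC.conj_one {X : Var K} {x : Pt X} (ψ : CC P Q V X x) :
    CC.conj (P.one X x) ψ = ψ := by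
  apply Subtype.ext
  funext g
  rw [CC.conj_apply, P.cj_one]

theorem CC.conj_conj {X : Var K} {x y z : Pt X} (a : P.Hom X x y) (b : P.Hom X y z)
    (ψ : CC P Q V X z) : CC.conj a (CC.conj b ψ) = CC.conj (P.comp a b) ψ := by
  apply Subtype.ext
  funext g
  rw [CC.conj_apply, CC.conj_apply, CC.conj_apply, P.cj_cj]

theorem CC.conj_pull {X Y : Var K} (f : X.obj ⟶ Y.obj) {x y : Pt X} {x' y' : Pt Y}
    (hx : x ≫ f = x') (hy : y ≫ f = y') (a : P.Hom X x y) (ψ : CC P Q V Y y') :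
    CC.conj a (CC.pull f hy ψ) = CC.pull f hx (CC.conj (P.map f hx hy a) ψ) := by
  apply Subtype.ext
  funext g
  rw [CC.conj_apply, CC.pull_apply, CC.pull_apply, CC.conj_apply, P.push_cj f hx hy]

theorem CC.pull_id {X : Var K} {x : Pt X} (ψ : CC P Q V X x) :
    CC.pull (𝟙 X.obj) (Category.comp_id x) ψ = ψ := by
  apply Subtype.ext
  funext g
  rw [CC.pull_apply]
  exact congrArg _ (P.map_id g)

theorem CC.pull_pull {X Y Z : Var K} (f : X.obj ⟶ Y.obj) (g : Y.obj ⟶ Z.obj) {x : Pt X}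
    {x' : Pt Y} {x'' : Pt Z} (hx : x ≫ f = x') (hx' : x' ≫ g = x'') (h : x ≫ f ≫ g = x'')
    (ψ : CC P Q V Z x'') : CC.pull f hx (CC.pull g hx' ψ) = CC.pull (f ≫ g) h ψ := by
  apply Subtype.ext
  funext a
  rw [CC.pull_apply, CC.pull_apply, CC.pull_apply, P.push_push f g hx hx' h]

variable (P Q V)

/-- The functor `P ⋉ N` where `N (X, x)` is the space of linear maps `CC P Q V X x → M`: an arrow
`x ⟶ y` is an arrow `a : x ⟶ y` of `P` together with an element `θ` of `N (X, y)`. -/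
noncomputable def twist (M : Type) [AddCommGroup M] [Module ℚ M] : GrpdFunctor K where
  Hom X x y := P.Hom X x y × (CC P Q V X y →ₗ[ℚ] M)
  one X x := (P.one X x, 0)
  comp a b := (P.comp a.1 b.1, a.2.comp (CC.conj b.1) + b.2)
  inv a := (P.inv a.1, - a.2.comp (CC.conj (P.inv a.1)))
  map f _ _ _ _ hx hy a := (P.map f hx hy a.1, a.2.comp (CC.pull f hy))
  one_comp a := by
    refine Prod.ext (P.one_comp a.1) ?_
    simp
  comp_one a := by
    refine Prod.ext (P.comp_one a.1) ?_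
    ext ψ
    change a.2 (CC.conj (P.one _ _) ψ) + 0 = a.2 ψ
    rw [CC.conj_one, add_zero]
  assoc a b c := by
    refine Prod.ext (P.assoc a.1 b.1 c.1) ?_
    ext ψ
    change a.2 (CC.conj b.1 (CC.conj c.1 ψ)) + b.2 (CC.conj c.1 ψ) + c.2 ψ =
      a.2 (CC.conj (P.comp b.1 c.1) ψ) + (b.2 (CC.conj c.1 ψ) + c.2 ψ)
    rw [CC.conj_conj, add_assoc]
  inv_comp a := by
    refine Prod.ext (P.inv_comp a.1) ?_
    ext ψ
    change - a.2 (CC.conj (P.inv a.1) (CC.conj a.1 ψ)) + a.2 ψ = 0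
    rw [CC.conj_conj, P.inv_comp, CC.conj_one, neg_add_cancel]
  comp_inv a := by
    refine Prod.ext (P.comp_inv a.1) ?_
    ext ψ
    change a.2 (CC.conj (P.inv a.1) ψ) + - a.2 (CC.conj (P.inv a.1) ψ) = 0
    rw [add_neg_cancel]
  map_one := by
    intro X Y f x x' hx
    refine Prod.ext (P.map_one f hx) ?_
    ext ψ
    rfl
  map_comp := by
    intro X Y f x y z x' y' z' hx hy hz a b
    refine Prod.ext (P.map_comp f hx hy hz a.1 b.1) ?_
    ext ψ
    change a.2 (CC.conj b.1 (CC.pull f hz ψ)) + b.2 (CC.pull f hz ψ) =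
      a.2 (CC.pull f hy (CC.conj (P.map f hy hz b.1) ψ)) + b.2 (CC.pull f hz ψ)
    rw [CC.conj_pull f hy hz]
  map_id := by
    intro X x y a
    refine Prod.ext (P.map_id a.1) ?_
    ext ψ
    change a.2 (CC.pull (𝟙 X.obj) _ ψ) = a.2 ψ
    rw [CC.pull_id]
  map_map := by
    intro X Y Z f g x y x' y' x'' y'' hx hy hx' hy' h h' a
    refine Prod.ext (P.map_map f g hx hy hx' hy' h h' a.1) ?_
    ext ψ
    change a.2 (CC.pull (f ≫ g) h' ψ) = a.2 (CC.pull f hy (CC.pull g hy' ψ))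
    rw [CC.pull_pull f g hy hy' h']

end MP8178
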