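import Pool.Agent.Lib_MP_8178ab_ag.TwistDef
import Pool.Agent.Lib_MP_8178ab_ag.FinIdx
import Pool.Agent.Lib_MP_8178ab_ag.GPull

open CategoryTheory Limits AlgebraicGeometry

namespace MP8178

variable {K : Type} [Field K] {P : GrpdFunctor K} {Q : Var K → Prop}
  {V : Type} [AddCommGroup V] [Module ℚ V]

/-- pushing along equal morphisms -/
theorem push_congr {X Y : Var K} {f f' : X.obj ⟶ Y.obj} (hff : f = f') {x : Pt X} {y : Pt Y}
    (h : x ≫ f = y) (h' : x ≫ f' = y) (a : P.Hom X x x) : P.push f h a = P.push f' h' a := by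
  subst hff; rfl

/-- étale invariance of `CC` -/
theorem CC.pull_bijective [IsAlgClosed K] (hP : IsPiOneLike P)
    (hQ : ∀ {W W' : Var K} (f : W'.obj ⟶ W.obj), IsFinite f.left → Etale f.left → Q W → Q W')
    {X' X : Var K} (f : X'.obj ⟶ X.obj) (hf : IsFinite f.left) (he : Etale f.left)
    {x' : Pt X'} {x : Pt X} (hx : x' ≫ f = x) :
    Function.Bijective (CC.pull (P := P) (Q := Q) (V := V) f hx) := by
  have hfi := hP.push_finiteIndex f hf he hx
  constructor
  · intro ψ ψ' h
    apply Subtype.ext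
    refine HC.ext (P.push f hx) hfi ψ.2.1 ψ'.2.1 ?_
    exact congrArg Subtype.val h
  · intro ψ'
    obtain ⟨ψ, hψ, hψψ'⟩ := HC.extend (P.push f hx) (hP.push_injective f hf he hx) hfi ψ'.2.1
    refine ⟨⟨ψ, hψ, ?_⟩, Subtype.ext hψψ'⟩
    intro W hW w y u hu a g
    obtain ⟨⟨y', b⟩, ⟨hy, hb⟩, -⟩ := hP.lift f hf he x' x y hx (P.inv a)
    obtain ⟨F, p, q, hF, hp, hp'⟩ := exists_pullback u f hf he
    obtain ⟨w'', hw1, hw2⟩ := pt_lift_of_isPullback hF w y' (by rw [hu, hy])
    have hfi' := hP.push_finiteIndex p hp hp' hw1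
    obtain ⟨n, hn, -, g'', hg''⟩ := Subgroup.exists_pow_mem_of_index_ne_zero
      (H := (P.push p hw1).range) hfi'.index_ne_zero g
    refine HC.eq_zero_of_pow hψ _ n hn ?_
    rw [← map_pow, ← map_pow, ← hg'']
    have h1 : w'' ≫ p ≫ u = y := by rw [← Category.assoc, hw1, hu]
    have h2 : w'' ≫ q ≫ f = y := by rw [← Category.assoc, hw2, hy]
    rw [P.push_push p u hw1 hu h1, push_congr hF.w h1 h2, ← P.push_push q f hw2 hy h2]
    have h3 : a = P.map f hy hx (P.inv b) := by
      rw [P.map_inv f hx hy, hb, P.inv_inv]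
    rw [h3, ← P.push_cj f hy hx]
    have h4 : ∀ c, ψ (P.push f hx c) = ψ'.1 c := fun c => congrFun hψψ' c
    rw [h4]
    exact ψ'.2.2 F (hQ p hp hp' hW) _ _ _ _ _ _

/-- additivity of `CC` -/
theorem CC.prod_bijective (hP : IsPiOneLike P)
    {X Y Z : Var K} (p : Z.obj ⟶ X.obj) (q : Z.obj ⟶ Y.obj)
    (hZ : Nonempty (IsLimit (BinaryFan.mk p q)))
    (z : Pt Z) {x : Pt X} {y : Pt Y} (hx : z ≫ p = x) (hy : z ≫ q = y) :
    Function.Bijective ((CC.pull (P := P) (Q := Q) (V := V) p hx).coprod (CC.pull q hy)) := by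
  obtain ⟨hl⟩ := id hZ
  obtain ⟨i, hip, hiq⟩ := BinaryFan.IsLimit.lift' hl (𝟙 X.obj) (constHom X y)
  obtain ⟨j, hjp, hjq⟩ := BinaryFan.IsLimit.lift' hl (constHom Y x) (𝟙 Y.obj)
  change i ≫ p = 𝟙 _ at hip
  change i ≫ q = constHom X y at hiq
  change j ≫ p = constHom Y x at hjp
  change j ≫ q = 𝟙 _ at hjq
  have hi : x ≫ i = z := by
    apply BinaryFan.IsLimit.hom_ext hl
    · change (x ≫ i) ≫ p = z ≫ p
      rw [Category.assoc, hip, Category.comp_id, hx]
    · change (x ≫ i) ≫ q = z ≫ q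
      rw [Category.assoc, hiq, comp_constHom, hy]
  have hj : y ≫ j = z := by
    apply BinaryFan.IsLimit.hom_ext hl
    · change (y ≫ j) ≫ p = z ≫ p
      rw [Category.assoc, hjp, comp_constHom, hx]
    · change (y ≫ j) ≫ q = z ≫ q
      rw [Category.assoc, hjq, Category.comp_id, hy]
  have hpi : ∀ g : P.Hom X x x, P.push p hx (P.push i hi g) = g := by
    intro g
    rw [P.push_push i p hi hx (by rw [hip, Category.comp_id]), push_congr hip _
      (Category.comp_id x)]
    exact P.map_id g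
  have hqj : ∀ g : P.Hom Y y y, P.push q hy (P.push j hj g) = g := by
    intro g
    rw [P.push_push j q hj hy (by rw [hjq, Category.comp_id]), push_congr hjq _
      (Category.comp_id y)]
    exact P.map_id g
  have hqi : ∀ g : P.Hom X x x, P.push q hy (P.push i hi g) = 1 := by
    intro g
    rw [P.push_push i q hi hy (by rw [hiq, comp_constHom]), push_congr hiq _
      (comp_constHom x y)]
    exact hP.push_const _ g
  have hpj : ∀ g : P.Hom Y y y, P.push p hx (P.push j hj g) = 1 := by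
    intro g
    rw [P.push_push j p hj hx (by rw [hjp, comp_constHom]), push_congr hjp _
      (comp_constHom y x)]
    exact hP.push_const _ g
  have hinj : ∀ a b : P.Hom Z z z, P.push p hx a = P.push p hx b →
      P.push q hy a = P.push q hy b → a = b := by
    intro a b h1 h2
    subst hx hy
    exact (hP.prod p q hZ z z).1 (Prod.ext h1 h2)
  constructor
  · rintro ⟨ψ₁, ψ₂⟩ ⟨ψ₁', ψ₂'⟩ h
    have h1 : ∀ g : P.Hom Z z z, ψ₁.1 (P.push p hx g) + ψ₂.1 (P.push q hy g) =
        ψ₁'.1 (P.push p hx g) + ψ₂'.1 (P.push q hy g) := fun g =>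
      congrFun (congrArg Subtype.val h) g
    refine Prod.ext (Subtype.ext (funext fun g => ?_)) (Subtype.ext (funext fun g => ?_))
    · have := h1 (P.push i hi g)
      rwa [hpi, hqi, HC.map_one ψ₂.2.1, HC.map_one ψ₂'.2.1, add_zero, add_zero] at this
    · have := h1 (P.push j hj g)
      rwa [hqj, hpj, HC.map_one ψ₁.2.1, HC.map_one ψ₁'.2.1, zero_add, zero_add] at this
  · intro ψ
    refine ⟨(CC.pull i hi ψ, CC.pull j hj ψ), Subtype.ext (funext fun g => ?_)⟩
    change ψ.1 (P.push i hi (P.push p hx g)) + ψ.1 (P.push j hj (P.push q hy g)) = ψ.1 g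
    have hc : Commute (P.push i hi (P.push p hx g)) (P.push j hj (P.push q hy g)) := by
      apply hinj
      · rw [map_mul, map_mul, hpi, hpj, mul_one, one_mul]
      · rw [map_mul, map_mul, hqi, hqj, mul_one, one_mul]
    rw [← HC.map_mul_of_commute ψ.2.1 hc]
    refine congrArg ψ.1 (hinj _ _ ?_ ?_)
    · rw [map_mul, hpi, hpj, mul_one]
    · rw [map_mul, hqi, hqj, one_mul]

theorem twist_isPiOneLike [IsAlgClosed K] (hP : IsPiOneLike P)
    (hQ : ∀ {W W' : Var K} (f : W'.obj ⟶ W.obj), IsFinite f.left → Etale f.left → Q W → Q W')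
    (M : Type) [AddCommGroup M] [Module ℚ M] : IsPiOneLike (twist P Q V M) where
  prod := by
    intro X Y Z p q hZ z z'
    have hb := hP.prod p q hZ z z'
    let E := LinearEquiv.ofBijective _
      (CC.prod_bijective (P := P) (Q := Q) (V := V) hP p q hZ z' rfl rfl)
    constructor
    · rintro ⟨a, θ⟩ ⟨a', θ'⟩ h
      have h1 := congrArg (fun t => t.1.1) h
      have h2 := congrArg (fun t => t.2.1) h
      have h3 := congrArg (fun t => t.1.2) h
      have h4 := congrArg (fun t => t.2.2) h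
      change P.map p rfl rfl a = P.map p rfl rfl a' at h1
      change P.map q rfl rfl a = P.map q rfl rfl a' at h2
      change θ.comp (CC.pull p rfl) = θ'.comp (CC.pull p rfl) at h3
      change θ.comp (CC.pull q rfl) = θ'.comp (CC.pull q rfl) at h4
      refine Prod.ext (hb.1 (Prod.ext h1 h2)) (LinearMap.ext fun c => ?_)
      obtain ⟨⟨c₁, c₂⟩, rfl⟩ := E.surjective c
      change θ (CC.pull p rfl c₁ + CC.pull q rfl c₂) = θ' (CC.pull p rfl c₁ + CC.pull q rfl c₂)
      rw [map_add, map_add]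
      exact congrArg₂ _ (LinearMap.congr_fun h3 c₁) (LinearMap.congr_fun h4 c₂)
    · rintro ⟨⟨b, θ₁⟩, ⟨c, θ₂⟩⟩
      obtain ⟨a, ha⟩ := hb.2 (b, c)
      have ha1 := congrArg Prod.fst ha
      have ha2 := congrArg Prod.snd ha
      refine ⟨(a, (θ₁.coprod θ₂).comp E.symm.toLinearMap), ?_⟩
      refine Prod.ext (Prod.ext ha1 (LinearMap.ext fun c => ?_))
        (Prod.ext ha2 (LinearMap.ext fun c => ?_))
      · change (θ₁.coprod θ₂) (E.symm (CC.pull p rfl c)) = θ₁ c
        have : CC.pull p rfl c = E (c, 0) := by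
          change CC.pull p rfl c = CC.pull p rfl c + CC.pull q rfl 0
          rw [map_zero, add_zero]
        rw [this, LinearEquiv.symm_apply_apply, LinearMap.coprod_apply, map_zero, add_zero]
      · change (θ₁.coprod θ₂) (E.symm (CC.pull q rfl c)) = θ₂ c
        have : CC.pull q rfl c = E (0, c) := by
          change CC.pull q rfl c = CC.pull p rfl 0 + CC.pull q rfl c
          rw [map_zero, zero_add]
        rw [this, LinearEquiv.symm_apply_apply, LinearMap.coprod_apply, map_zero, zero_add]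
  conn := fun X hX x y => (hP.conn X hX x y).map fun a => (a, 0)
  lift := by
    intro X' X f hf he x' x y hx a
    obtain ⟨⟨y', b⟩, ⟨hy, hb⟩, huniq⟩ := hP.lift f hf he x' x y hx a.1
    let E := LinearEquiv.ofBijective _
      (CC.pull_bijective (P := P) (Q := Q) (V := V) hP hQ f hf he hy)
    refine ⟨⟨y', (b, a.2.comp E.symm.toLinearMap)⟩, ⟨hy, Prod.ext hb (LinearMap.ext fun c => ?_)⟩,
      ?_⟩
    · change a.2 (E.symm (E c)) = a.2 c
      rw [LinearEquiv.symm_apply_apply]
    · rintro ⟨y'', b', θ'⟩ ⟨hy'', hb'⟩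
      have h1 := huniq ⟨y'', b'⟩ ⟨hy'', congrArg Prod.fst hb'⟩
      simp only [Sigma.mk.injEq] at h1
      obtain ⟨h1, h2⟩ := h1
      subst h1
      rw [heq_iff_eq] at h2
      subst h2
      have h3 : θ' = a.2.comp E.symm.toLinearMap := by
        apply LinearMap.ext
        intro c
        obtain ⟨c', rfl⟩ := E.surjective c
        change θ' (CC.pull f hy c') = a.2 (E.symm (E c'))
        rw [LinearEquiv.symm_apply_apply]
        exact LinearMap.congr_fun (congrArg Prod.snd hb') c'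
      rw [h3]

/-- `CC` vanishes on test varieties. -/
theorem CC.eq_zero (X : Var K) (hX : Q X) (x : Pt X) (ψ : CC P Q V X x) : ψ = 0 := by
  apply Subtype.ext
  funext g
  have := ψ.2.2 X hX x x (𝟙 X.obj) (Category.comp_id x) (P.one X x) g
  rw [P.cj_one] at this
  have h2 : P.push (𝟙 X.obj) (Category.comp_id x) g = g := P.map_id g
  rw [h2] at this
  exact this

end MP8178
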